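import Pool.Agent.LTC.Sys
import Pool.Agent.HLP.Sel

/-!
# Convex and concave functionals
-/

set_option autoImplicit false

open MeasureTheory
open scoped ENNReal

namespace LTC

open HLP (avg)

universe w

variable {Ω : Type w} [MeasurableSpace Ω]

/-- monotone, homogeneous functionals -/
structure Quad (μ : Measure Ω) (N : (Ω → ℝ≥0∞) → ℝ≥0∞) : Prop where
  mono : ∀ u v : Ω → ℝ≥0∞, Measurable u → Measurable v → (∀ᵐ t ∂μ, u t ≤ v t) → N u ≤ N v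
  smul : ∀ c : ℝ≥0∞, c ≠ ∞ → ∀ u : Ω → ℝ≥0∞, Measurable u → N (fun t => c * u t) = c * N u

/-- `r`-convexity with constant one -/
def NConv (N : (Ω → ℝ≥0∞) → ℝ≥0∞) (r : ℝ) : Prop :=
  ∀ {κ : Type} (s : Finset κ) (u : κ → Ω → ℝ≥0∞), (∀ i, Measurable (u i)) →
    N (fun t => (∑ i ∈ s, u i t ^ r) ^ (1 / r)) ≤ (∑ i ∈ s, N (u i) ^ r) ^ (1 / r)

/-- `r`-concavity with constant one -/
def NConc (N : (Ω → ℝ≥0∞) → ℝ≥0∞) (r : ℝ) : Prop :=
  ∀ {κ : Type} (s : Finset κ) (u : κ → Ω → ℝ≥0∞), (∀ i, Measurable (u i)) →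
    (∑ i ∈ s, N (u i) ^ r) ^ (1 / r) ≤ N (fun t => (∑ i ∈ s, u i t ^ r) ^ (1 / r))

variable {μ : Measure Ω} {N : (Ω → ℝ≥0∞) → ℝ≥0∞}

theorem Quad.basic (hQ : Quad μ N) : Basic N where
  zero := by
    have h := hQ.smul 0 (by simp) (fun _ => 0) measurable_const
    simpa using h
  mono := fun u v hu hv h => hQ.mono u v hu hv (Filter.Eventually.of_forall h)

theorem rpow_weight {r : ℝ} (hr : 0 < r) (c x : ℝ≥0∞) : (c ^ (1 / r) * x) ^ r = c * x ^ r := by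
  rw [ENNReal.mul_rpow_of_nonneg _ _ hr.le, ← ENNReal.rpow_mul, one_div_mul_cancel hr.ne',
    ENNReal.rpow_one]

theorem wconv (hQ : Quad μ N) {r : ℝ} (hr : 0 < r) (h : NConv N r) {κ : Type} (s : Finset κ)
    (u : κ → Ω → ℝ≥0∞) (hu : ∀ i, Measurable (u i)) (l : κ → ℝ≥0∞) (hl : ∀ i, l i ≠ ∞) :
    N (fun t => (∑ i ∈ s, l i * u i t ^ r) ^ (1 / r)) ≤ (∑ i ∈ s, l i * N (u i) ^ r) ^ (1 / r) := by
  have h1 := h s (fun i t => l i ^ (1 / r) * u i t) fun i => (hu i).const_mul _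
  have hlt : ∀ i, l i ^ (1 / r) ≠ ∞ := fun i => ENNReal.rpow_ne_top_of_nonneg (by positivity) (hl i)
  simp only [rpow_weight hr] at h1
  simp only [hQ.smul _ (hlt _) _ (hu _), rpow_weight hr] at h1
  exact h1

theorem wconc (hQ : Quad μ N) {r : ℝ} (hr : 0 < r) (h : NConc N r) {κ : Type} (s : Finset κ)
    (u : κ → Ω → ℝ≥0∞) (hu : ∀ i, Measurable (u i)) (l : κ → ℝ≥0∞) (hl : ∀ i, l i ≠ ∞) :
    (∑ i ∈ s, l i * N (u i) ^ r) ^ (1 / r) ≤ N (fun t => (∑ i ∈ s, l i * u i t ^ r) ^ (1 / r)) := by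
  have h1 := h s (fun i t => l i ^ (1 / r) * u i t) fun i => (hu i).const_mul _
  have hlt : ∀ i, l i ^ (1 / r) ≠ ∞ := fun i => ENNReal.rpow_ne_top_of_nonneg (by positivity) (hl i)
  simp only [rpow_weight hr] at h1
  simp only [hQ.smul _ (hlt _) _ (hu _), rpow_weight hr] at h1
  exact h1

theorem meas_pow {u : Ω → ℝ≥0∞} (hu : Measurable u) (r : ℝ) : Measurable fun t => u t ^ r :=
  hu.pow_const r

theorem meas_mix {κ : Type} (s : Finset κ) (u : κ → Ω → ℝ≥0∞) (hu : ∀ i, Measurable (u i))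
    (l : κ → ℝ≥0∞) (r r' : ℝ) : Measurable fun t => (∑ i ∈ s, l i * u i t ^ r) ^ r' :=
  (Finset.measurable_fun_sum s fun i _ => ((hu i).pow_const r).const_mul _).pow_const r'

/-- weighted power means in `[0,∞]` -/
theorem mean_le {κ : Type} (s : Finset κ) (l z : κ → ℝ≥0∞) (hl : ∑ i ∈ s, l i = 1) {r : ℝ}
    (hr : 1 ≤ r) : ∑ i ∈ s, l i * z i ≤ (∑ i ∈ s, l i * z i ^ r) ^ (1 / r) := by
  have h := ENNReal.rpow_arith_mean_le_arith_mean_rpow s l z hl hr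
  have h0 : 0 < r := by linarith
  calc ∑ i ∈ s, l i * z i = ((∑ i ∈ s, l i * z i) ^ r) ^ (1 / r) := by
        rw [← ENNReal.rpow_mul, mul_one_div_cancel h0.ne', ENNReal.rpow_one]
    _ ≤ _ := ENNReal.rpow_le_rpow h (by positivity)

theorem mean_ge {κ : Type} (s : Finset κ) (l z : κ → ℝ≥0∞) (hl : ∑ i ∈ s, l i = 1) {r : ℝ}
    (hr0 : 0 < r) (hr : r ≤ 1) : (∑ i ∈ s, l i * z i ^ r) ^ (1 / r) ≤ ∑ i ∈ s, l i * z i := by
  have h := ENNReal.rpow_arith_mean_le_arith_mean_rpow s l (fun i => z i ^ r) hl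
    (p := 1 / r) (by rw [le_div_iff₀ hr0]; linarith)
  refine h.trans (le_of_eq ?_)
  refine Finset.sum_congr rfl fun i _ => ?_
  rw [← ENNReal.rpow_mul, mul_one_div_cancel hr0.ne', ENNReal.rpow_one]

/-- weights -/
theorem weights_data {κ : Type} (s : Finset κ) (hs : s.Nonempty) (x : κ → ℝ≥0∞)
    (hx : ∑ i ∈ s, x i ≠ ∞) (δ : ℝ≥0∞) (hδ0 : δ ≠ 0) (hδ : δ ≠ ∞) :
    ∃ l : κ → ℝ≥0∞, (∀ i ∈ s, l i ≠ 0) ∧ (∀ i, l i ≠ ∞) ∧ ∑ i ∈ s, l i = 1 ∧
      (∀ i ∈ s, x i ≤ l i * (∑ i ∈ s, x i + s.card * δ)) ∧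
      (∀ i ∈ s, l i * (∑ i ∈ s, x i + s.card * δ) = x i + δ) := by
  classical
  set S := ∑ i ∈ s, x i + s.card * δ with hS
  have hSt : S ≠ ∞ := by
    rw [hS]
    finiteness
  have hcard : (s.card : ℝ≥0∞) ≠ 0 := by
    have := hs.card_pos
    exact_mod_cast this.ne'
  have hS0 : S ≠ 0 := by
    rw [hS]
    intro h
    have := (add_eq_zero.1 h).2
    rcases mul_eq_zero.1 this with h | h
    · exact hcard h
    · exact hδ0 h
  have hxt : ∀ i ∈ s, x i ≠ ∞ := fun i hi =>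
    ne_top_of_le_ne_top hx (Finset.single_le_sum (f := x) (fun _ _ => zero_le) hi)
  have heq : ∀ i ∈ s, (x i + δ) / S * S = x i + δ := fun i _ => ENNReal.div_mul_cancel hS0 hSt
  refine ⟨fun i => if i ∈ s then (x i + δ) / S else 0, ?_, ?_, ?_, ?_, ?_⟩
  · intro i hi
    beta_reduce
    rw [if_pos hi]
    have : x i + δ ≠ 0 := fun h => hδ0 (add_eq_zero.1 h).2
    exact ENNReal.div_ne_zero.2 ⟨this, hSt⟩
  · intro i
    dsimp only
    split_ifs with hi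
    · exact ENNReal.div_ne_top (by have := hxt i hi; finiteness) hS0
    · simp
  · rw [Finset.sum_congr rfl fun i hi => if_pos hi]
    simp_rw [div_eq_mul_inv]
    rw [← Finset.sum_mul, Finset.sum_add_distrib, Finset.sum_const, nsmul_eq_mul]
    exact ENNReal.mul_inv_cancel hS0 hSt
  · intro i hi
    beta_reduce
    rw [if_pos hi, heq i hi]
    exact le_self_add
  · intro i hi
    beta_reduce
    rw [if_pos hi, heq i hi]

end LTC
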