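import Pool.Agent.LTC.Cls

/-!
# Convex functionals, exponent larger than one
-/

set_option autoImplicit false

open MeasureTheory
open scoped ENNReal NNReal

namespace LTC

open HLP (avg avg_sum avg_mul avg_mono avg_const avg_le_const lln_up)

universe w

variable {Ω : Type w} [MeasurableSpace Ω] {μ : Measure Ω} {N : (Ω → ℝ≥0∞) → ℝ≥0∞}

theorem mixA (hQ : Quad μ N) {r : ℝ} (hr : 1 < r) (h : NConv N r) {κ : Type} (s : Finset κ)
    (hs : s.Nonempty) (V : κ → Ω → ℝ≥0∞) (hV : ∀ i, Measurable (V i))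
    (hS : ∑ i ∈ s, N (V i) ≠ ∞) (δ : ℝ≥0∞) (hδ0 : δ ≠ 0) (hδ : δ ≠ ∞) :
    ∃ Z : Ω → ℝ≥0∞, Measurable Z ∧ N Z ≤ ∑ i ∈ s, N (V i) + s.card * δ ∧
      (∀ t, ∑ i ∈ s, V i t ≤ Z t) ∧
      ∀ c : ℝ≥0∞, ∀ l ∈ s,
        c ^ (r / (r - 1)) * (N (V l) + δ) ≤ ∑ i ∈ s, N (V i) + s.card * δ →
          ∀ t, c * V l t ≤ Z t := by
  have hr0 : 0 < r := by linarith
  have hr1 : 0 < r - 1 := by linarith
  obtain ⟨l, hl0, hlt, hl1, hlx, hle⟩ := weights_data s hs (fun i => N (V i)) hS δ hδ0 hδ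
  set S := ∑ i ∈ s, N (V i) + s.card * δ with hSdef
  have hSt : S ≠ ∞ := by
    rw [hSdef]
    finiteness
  have hS0 : S ≠ 0 := by
    obtain ⟨i, hi⟩ := hs
    intro h0
    have := hle i hi
    rw [h0, mul_zero] at this
    exact hδ0 (add_eq_zero.1 this.symm).2
  refine ⟨fun t => (∑ i ∈ s, l i * ((l i)⁻¹ * V i t) ^ r) ^ (1 / r), ?_, ?_, ?_, ?_⟩
  · exact meas_mix s (fun i t => (l i)⁻¹ * V i t) (fun i => (hV i).const_mul _) l r (1 / r)
  · have h1 := wconv hQ hr0 h s (fun i t => (l i)⁻¹ * V i t) (fun i => (hV i).const_mul _) l hlt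
    refine h1.trans ?_
    have h2 : ∑ i ∈ s, l i * N (fun t => (l i)⁻¹ * V i t) ^ r ≤ S ^ r := by
      calc _ ≤ ∑ i ∈ s, l i * S ^ r := by
            refine Finset.sum_le_sum fun i hi => ?_
            rw [hQ.smul _ (ENNReal.inv_ne_top.2 (hl0 i hi)) _ (hV i)]
            gcongr
            calc (l i)⁻¹ * N (V i) ≤ (l i)⁻¹ * (l i * S) := by
                  gcongr
                  exact hlx i hi
              _ = S := by rw [← mul_assoc, ENNReal.inv_mul_cancel (hl0 i hi) (hlt i), one_mul]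
        _ = S ^ r := by rw [← Finset.sum_mul, hl1, one_mul]
    calc _ ≤ (S ^ r) ^ (1 / r) := ENNReal.rpow_le_rpow h2 (by positivity)
      _ = S := by rw [← ENNReal.rpow_mul, mul_one_div_cancel hr0.ne', ENNReal.rpow_one]
  · intro t
    refine le_trans (le_of_eq ?_) (mean_le s l (fun i => (l i)⁻¹ * V i t) hl1 hr.le)
    refine Finset.sum_congr rfl fun i hi => ?_
    rw [← mul_assoc, ENNReal.mul_inv_cancel (hl0 i hi) (hlt i), one_mul]
  · intro c i hi hc t
    have hb : c ^ (r / (r - 1)) ≤ (l i)⁻¹ := by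
      rw [ENNReal.le_inv_iff_mul_le]
      rw [← hle i hi, ← mul_assoc] at hc
      exact (ENNReal.mul_le_mul_iff_left hS0 hSt).1 (by rwa [one_mul])
    have h3 : (c * V i t) ^ r ≤ l i * ((l i)⁻¹ * V i t) ^ r := by
      have hli0 : (l i)⁻¹ ≠ 0 := ENNReal.inv_ne_zero.2 (hlt i)
      have hlit : (l i)⁻¹ ≠ ∞ := ENNReal.inv_ne_top.2 (hl0 i hi)
      have e1 : l i * ((l i)⁻¹) ^ r = ((l i)⁻¹) ^ (r - 1) := by
        have : ((l i)⁻¹) ^ r = (l i)⁻¹ * ((l i)⁻¹) ^ (r - 1) := by
          calc ((l i)⁻¹) ^ r = ((l i)⁻¹) ^ (1 + (r - 1)) := by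
                congr 1
                ring
            _ = ((l i)⁻¹) ^ (1 : ℝ) * ((l i)⁻¹) ^ (r - 1) := ENNReal.rpow_add _ _ hli0 hlit
            _ = _ := by rw [ENNReal.rpow_one]
        rw [this, ← mul_assoc, ENNReal.mul_inv_cancel (hl0 i hi) (hlt i), one_mul]
      rw [ENNReal.mul_rpow_of_nonneg _ _ hr0.le, ENNReal.mul_rpow_of_nonneg _ _ hr0.le, ← mul_assoc,
        e1]
      gcongr
      calc c ^ r = (c ^ (r / (r - 1))) ^ (r - 1) := by
            rw [← ENNReal.rpow_mul, div_mul_cancel₀ _ hr1.ne']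
        _ ≤ _ := ENNReal.rpow_le_rpow hb hr1.le
    have h4 : l i * ((l i)⁻¹ * V i t) ^ r ≤ ∑ i ∈ s, l i * ((l i)⁻¹ * V i t) ^ r :=
      Finset.single_le_sum (f := fun i => l i * ((l i)⁻¹ * V i t) ^ r) (fun _ _ => zero_le) hi
    calc c * V i t = ((c * V i t) ^ r) ^ (1 / r) := by
          rw [← ENNReal.rpow_mul, mul_one_div_cancel hr0.ne', ENNReal.rpow_one]
      _ ≤ _ := ENNReal.rpow_le_rpow (h3.trans h4) (by positivity)

theorem subA (hQ : Quad μ N) {r : ℝ} (hr : 1 < r) (h : NConv N r) {κ : Type} (s : Finset κ)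
    (V : κ → Ω → ℝ≥0∞) (hV : ∀ i, Measurable (V i)) :
    N (fun t => ∑ i ∈ s, V i t) ≤ ∑ i ∈ s, N (V i) := by
  rcases s.eq_empty_or_nonempty with rfl | hs
  · simp only [Finset.sum_empty]
    exact hQ.basic.zero.le
  refine ENNReal.le_of_forall_pos_le_add fun ε hε hfin => ?_
  have hcard : (s.card : ℝ≥0∞) ≠ 0 := by
    have := hs.card_pos
    exact_mod_cast this.ne'
  have hε0 : (ε : ℝ≥0∞) ≠ 0 := by exact_mod_cast hε.ne'
  obtain ⟨Z, hZ, hNZ, hle, -⟩ := mixA hQ hr h s hs V hV hfin.ne (ε / s.card)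
    (ENNReal.div_ne_zero.2 ⟨hε0, by simp⟩) (ENNReal.div_ne_top (by simp) hcard)
  rw [ENNReal.mul_div_cancel hcard (by simp)] at hNZ
  exact (hQ.basic.mono _ _ (Finset.measurable_fun_sum s fun i _ => hV i) hZ hle).trans hNZ

theorem numA {R : ℝ} (hR : 1 ≤ R) (η : ℝ≥0∞) (hη0 : η ≠ 0) (hη : η ≠ ∞) :
    ∃ T : ℝ≥0∞, T ≠ ∞ ∧ ∀ x y D : ℝ≥0∞, x ≠ ∞ → y ≤ x → x ^ R + y ^ R ≤ (x + D) ^ R →
      y ≤ η * x + T * D := by
  have hR0 : 0 < R := by linarith
  have hηR : η ^ R ≠ 0 := by
    rw [Ne, ENNReal.rpow_eq_zero_iff]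
    push Not
    exact ⟨fun h => absurd h hη0, fun h => absurd h hη⟩
  have h1 : 1 < (1 + η ^ R) ^ (1 / R) := by
    apply ENNReal.one_lt_rpow _ (by positivity)
    exact ENNReal.lt_add_right (by simp) hηR
  set θ := (1 + η ^ R) ^ (1 / R) - 1 with hθ
  have hθ0 : θ ≠ 0 := (tsub_pos_of_lt h1).ne'
  have h1θ : 1 + θ = (1 + η ^ R) ^ (1 / R) := add_tsub_cancel_of_le h1.le
  have hθt : θ ≠ ∞ := by
    have h2 : (1 + η ^ R) ^ (1 / R) ≠ ∞ := by
      apply ENNReal.rpow_ne_top_of_nonneg (by positivity)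
      have := ENNReal.rpow_ne_top_of_nonneg hR0.le hη
      finiteness
    exact ne_top_of_le_ne_top h2 tsub_le_self
  refine ⟨θ⁻¹, ENNReal.inv_ne_top.2 hθ0, ?_⟩
  intro x y D hx hyx hxy
  rcases le_total (θ * x) D with hD | hD
  · calc y ≤ x := hyx
      _ = θ⁻¹ * (θ * x) := by rw [← mul_assoc, ENNReal.inv_mul_cancel hθ0 hθt, one_mul]
      _ ≤ θ⁻¹ * D := by gcongr
      _ ≤ _ := le_add_self
  · have h3 : (x + D) ^ R ≤ x ^ R + (η * x) ^ R := by
      calc (x + D) ^ R ≤ ((1 + θ) * x) ^ R := by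
            apply ENNReal.rpow_le_rpow _ hR0.le
            rw [add_mul, one_mul]
            gcongr
        _ = (1 + η ^ R) * x ^ R := by
            rw [h1θ, ENNReal.mul_rpow_of_nonneg _ _ hR0.le, ← ENNReal.rpow_mul,
              one_div_mul_cancel hR0.ne', ENNReal.rpow_one]
        _ = _ := by
            rw [add_mul, one_mul, ENNReal.mul_rpow_of_nonneg _ _ hR0.le]
    have h4 : y ^ R ≤ (η * x) ^ R :=
      (ENNReal.add_le_add_iff_left (ENNReal.rpow_ne_top_of_nonneg hR0.le hx)).1 (hxy.trans h3)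
    have h5 : y ≤ η * x := (ENNReal.rpow_le_rpow_iff hR0).1 h4
    exact h5.trans le_self_add

/-- concavity for a function and its restriction -/
theorem concA {R : ℝ} (h : NConc N R) (hR : 1 ≤ R) (u v : Ω → ℝ≥0∞) (hu : Measurable u)
    (hv : Measurable v) :
    N u ^ R + N v ^ R ≤ N (fun t => (u t ^ R + v t ^ R) ^ (1 / R)) ^ R := by
  have h1 := h (Finset.univ : Finset Bool) (fun b => Bool.rec v u b) (by
    intro b
    cases b
    · exact hv
    · exact hu)
  simp only [Fintype.sum_bool] at h1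
  calc N u ^ R + N v ^ R = ((N u ^ R + N v ^ R) ^ (1 / R)) ^ R := by
        rw [← ENNReal.rpow_mul, one_div_mul_cancel (by linarith), ENNReal.rpow_one]
    _ ≤ _ := ENNReal.rpow_le_rpow h1 (by linarith)

/-- the bad set carries little -/
theorem badA (hQ : Quad μ N) {r R : ℝ} (hr : 1 < r) (hR : 1 ≤ R) (hv : NConv N r)
    (hc : NConc N R) {κ : Type} [Fintype κ] (n : ℕ) (hn : 1 ≤ n)
    (V : κ → Ω → ℝ≥0∞) (hV : ∀ l, Measurable (V l)) (m : ℝ≥0∞) (hm : ∀ l, N (V l) ≤ m)
    (hS : ∑ l, N (V l) ≠ ∞) (hm2 : 2 * (2 * (n : ℝ≥0∞)) ^ (r / (r - 1)) * m < ∑ l, N (V l))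
    (B : Set Ω) (hB : MeasurableSet B) (hBV : ∀ t ∈ B, ∃ l, ∑ l, V l t < n * V l t)
    (η T : ℝ≥0∞) (hTt : T ≠ ∞)
    (hT : ∀ x y D : ℝ≥0∞, x ≠ ∞ → y ≤ x → x ^ R + y ^ R ≤ (x + D) ^ R → y ≤ η * x + T * D) :
    N (B.indicator fun t => ∑ l, V l t) ≤ η * N (fun t => ∑ l, V l t) +
      T * (∑ l, N (V l) - N (fun t => ∑ l, V l t)) := by
  classical
  have hr1 : 0 < r - 1 := by linarith
  have hR0 : 0 < R := by linarith
  set S := ∑ l, N (V l) with hSdef
  set W : Ω → ℝ≥0∞ := fun t => ∑ l, V l t with hW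
  have hWm : Measurable W := Finset.measurable_fun_sum _ fun l _ => hV l
  set b := (2 * (n : ℝ≥0∞)) ^ (r / (r - 1)) with hb
  have hbt : b ≠ ∞ := ENNReal.rpow_ne_top_of_nonneg (by positivity) (by finiteness)
  have hn1 : (1 : ℝ≥0∞) ≤ n := by exact_mod_cast hn
  have hb1 : 1 ≤ b := by
    apply ENNReal.one_le_rpow _ (by positivity)
    calc (1 : ℝ≥0∞) = 1 * 1 := (one_mul 1).symm
      _ ≤ 2 * n := by gcongr; norm_num
  have hb0 : b ≠ 0 := (lt_of_lt_of_le one_pos hb1).ne'
  have hS0 : S ≠ 0 := (lt_of_le_of_lt zero_le hm2).ne'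
  have hne : (Finset.univ : Finset κ).Nonempty := by
    by_contra h
    rw [Finset.not_nonempty_iff_eq_empty] at h
    apply hS0
    rw [hSdef, h, Finset.sum_empty]
  have hWN : N W ≤ S := subA hQ hr hv Finset.univ V hV
  have hWt : N W ≠ ∞ := ne_top_of_le_ne_top hS hWN
  have key : ∀ δ : ℝ≥0∞, δ ≠ 0 → δ ≠ ∞ → 2 * b * δ ≤ S →
      N (B.indicator W) ≤ η * N W + T * (S - N W) + T * (Fintype.card κ * δ) := by
    intro δ hδ0 hδt hδS
    obtain ⟨Z, hZ, hNZ, hle, hbig⟩ := mixA hQ hr hv Finset.univ hne V hV hS δ hδ0 hδt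
    rw [← hSdef] at hNZ hbig
    have hlb : ∀ l, b * (N (V l) + δ) ≤ S := by
      intro l
      have h1 : 2 * (b * (N (V l) + δ)) ≤ 2 * S := by
        calc 2 * (b * (N (V l) + δ)) = 2 * b * N (V l) + 2 * b * δ := by ring
          _ ≤ 2 * b * m + 2 * b * δ := by
              gcongr
              exact hm l
          _ ≤ S + S := add_le_add hm2.le hδS
          _ = 2 * S := (two_mul S).symm
      exact (ENNReal.mul_le_mul_iff_right (by norm_num) (by simp)).1 h1
    have hZB : ∀ t ∈ B, 2 * W t ≤ Z t := by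
      intro t ht
      obtain ⟨l, hl⟩ := hBV t ht
      have h1 := hbig (2 * (n : ℝ≥0∞)) l (Finset.mem_univ l) ((hlb l).trans le_self_add) t
      calc 2 * W t ≤ 2 * (n * V l t) := by
            gcongr
        _ = 2 * n * V l t := by ring
        _ ≤ Z t := h1
    have h2 := concA hc hR W (B.indicator W) hWm (hWm.indicator hB)
    have h3 : N (fun t => (W t ^ R + B.indicator W t ^ R) ^ (1 / R)) ≤ N Z := by
      refine hQ.basic.mono _ _ ?_ hZ fun t => ?_
      · exact ((hWm.pow_const R).add ((hWm.indicator hB).pow_const R)).pow_const _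
      · by_cases ht : t ∈ B
        · rw [Set.indicator_of_mem ht]
          calc (W t ^ R + W t ^ R) ^ (1 / R) ≤ ((2 * W t) ^ R) ^ (1 / R) := by
                apply ENNReal.rpow_le_rpow _ (by positivity)
                rw [ENNReal.mul_rpow_of_nonneg _ _ hR0.le, ← two_mul]
                gcongr
                calc (2 : ℝ≥0∞) = 2 ^ (1 : ℝ) := (ENNReal.rpow_one 2).symm
                  _ ≤ 2 ^ R := ENNReal.rpow_le_rpow_of_exponent_le (by norm_num) hR
            _ = 2 * W t := by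
                rw [← ENNReal.rpow_mul, mul_one_div_cancel hR0.ne', ENNReal.rpow_one]
            _ ≤ Z t := hZB t ht
        · rw [Set.indicator_of_notMem ht, ENNReal.zero_rpow_of_pos hR0, add_zero,
            ← ENNReal.rpow_mul, mul_one_div_cancel hR0.ne', ENNReal.rpow_one]
          exact hle t
    set Sδ := S + (Finset.univ : Finset κ).card * δ with hSδ
    have hWS : N W ≤ Sδ := hWN.trans le_self_add
    have h4 : N W ^ R + N (B.indicator W) ^ R ≤ (N W + (Sδ - N W)) ^ R := by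
      rw [add_tsub_cancel_of_le hWS]
      exact h2.trans (ENNReal.rpow_le_rpow (h3.trans hNZ) hR0.le)
    have h5 := hT _ _ _ hWt (hQ.basic.mono _ _ (hWm.indicator hB) hWm fun t =>
      Set.indicator_le_self _ _ _) h4
    refine h5.trans ?_
    have h6 : Sδ - N W ≤ (S - N W) + Fintype.card κ * δ := by
      rw [hSδ, Finset.card_univ, tsub_le_iff_right]
      calc S + Fintype.card κ * δ ≤ (S - N W + N W) + Fintype.card κ * δ := by
            gcongr
            exact le_tsub_add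
        _ = _ := by ring
    calc η * N W + T * (Sδ - N W) ≤ η * N W + T * ((S - N W) + Fintype.card κ * δ) := by gcongr
      _ = _ := by ring
  refine ENNReal.le_of_forall_pos_le_add fun ε hε hfin => ?_
  have hε0 : (ε : ℝ≥0∞) ≠ 0 := by exact_mod_cast hε.ne'
  set c : ℝ≥0∞ := T * Fintype.card κ + 1 with hcdef
  have hc0 : c ≠ 0 := by
    rw [hcdef]
    exact (lt_of_lt_of_le one_pos le_add_self).ne'
  have hct : c ≠ ∞ := by
    rw [hcdef]
    finiteness
  set δ := min ((ε : ℝ≥0∞) / c) (S / (2 * b)) with hδ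
  have hδ0 : δ ≠ 0 := by
    have h1 : 0 < (ε : ℝ≥0∞) / c := ENNReal.div_pos hε0 hct
    have h2 : 0 < S / (2 * b) := ENNReal.div_pos hS0 (by finiteness)
    exact (lt_min h1 h2).ne'
  have hδt : δ ≠ ∞ := ne_top_of_le_ne_top (ENNReal.div_ne_top (by simp) hc0) (min_le_left _ _)
  have h1 := key δ hδ0 hδt (by
    calc 2 * b * δ ≤ 2 * b * (S / (2 * b)) := by
          gcongr
          exact min_le_right _ _
      _ = S := ENNReal.mul_div_cancel (mul_ne_zero (by norm_num) hb0) (by finiteness))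
  refine h1.trans ?_
  gcongr
  calc T * (Fintype.card κ * δ) = (T * Fintype.card κ) * δ := by ring
    _ ≤ c * δ := by
        gcongr
        exact le_self_add
    _ ≤ c * ((ε : ℝ≥0∞) / c) := by
        gcongr
        exact min_le_left _ _
    _ = ε := ENNReal.mul_div_cancel hc0 hct

/-- averages as weighted sums -/
theorem avg_eq {κ : Type} [Fintype κ] [DecidableEq κ] (n : ℕ) (F : (κ → Fin n) → ℝ≥0∞) :
    avg n F = ∑ σ, ((n : ℝ≥0∞) ^ (Fintype.card κ))⁻¹ * F σ := by
  unfold avg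
  rw [ENNReal.div_eq_inv_mul, Finset.mul_sum]

theorem avg_w {κ : Type} [Fintype κ] [DecidableEq κ] (n : ℕ) (hn : 1 ≤ n) :
    ∑ _σ : κ → Fin n, ((n : ℝ≥0∞) ^ (Fintype.card κ))⁻¹ = 1 := by
  have h := avg_const (κ := κ) n hn 1
  rw [avg_eq] at h
  simpa using h

theorem avg_wt {κ : Type} [Fintype κ] (n : ℕ) (hn : 1 ≤ n) :
    ((n : ℝ≥0∞) ^ (Fintype.card κ))⁻¹ ≠ ∞ := by
  rw [ENNReal.inv_ne_top]
  exact pow_ne_zero _ (by exact_mod_cast (by omega : n ≠ 0))

/-- the good set: averages of selections -/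
theorem goodA (hQ : Quad μ N) {R : ℝ} (hR : 1 ≤ R) (hc : NConc N R) {κ : Type} [Fintype κ]
    [DecidableEq κ] (n : ℕ) (hn : 1 ≤ n) (U : Fin n → κ → Ω → ℝ≥0∞)
    (hU : ∀ i l, Measurable (U i l)) (G : Set Ω) (hG : MeasurableSet G)
    (hGU : ∀ t ∈ G, ∀ l, n * ∑ i, U i l t ≤ ∑ l, ∑ i, U i l t) :
    (avg n fun σ : κ → Fin n => N (G.indicator fun t => ∑ l, U (σ l) l t)) ≤
      ENNReal.ofReal ((⌈R⌉₊).factorial * Real.exp 2) *
        ((n : ℝ≥0∞)⁻¹ * N (fun t => ∑ l, ∑ i, U i l t)) := by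
  have hR0 : 0 < R := by linarith
  set c := ENNReal.ofReal ((⌈R⌉₊).factorial * Real.exp 2) with hcdef
  have hc1 : 1 ≤ c := by
    rw [hcdef, ENNReal.one_le_ofReal]
    have h1 : (1 : ℝ) ≤ (⌈R⌉₊).factorial := by exact_mod_cast Nat.factorial_pos _
    have h2 : (1 : ℝ) ≤ Real.exp 2 := Real.one_le_exp (by norm_num)
    nlinarith
  have hct : c ≠ ∞ := ENNReal.ofReal_ne_top
  have hn0 : (n : ℝ≥0∞) ≠ 0 := by exact_mod_cast (by omega : n ≠ 0)
  set w := ((n : ℝ≥0∞) ^ (Fintype.card κ))⁻¹ with hw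
  set Y : (κ → Fin n) → Ω → ℝ≥0∞ := fun σ => G.indicator fun t => ∑ l, U (σ l) l t with hY
  have hYm : ∀ σ, Measurable (Y σ) := fun σ =>
    (Finset.measurable_fun_sum _ fun l _ => hU _ l).indicator hG
  rw [avg_eq]
  refine (mean_le Finset.univ (fun _ => w) (fun σ => N (Y σ)) (avg_w n hn) hR).trans ?_
  refine (wconc hQ hR0 hc Finset.univ Y hYm (fun _ => w) fun _ => avg_wt n hn).trans ?_
  have hW : Measurable fun t => ∑ l, ∑ i, U i l t :=
    Finset.measurable_fun_sum _ fun l _ => Finset.measurable_fun_sum _ fun i _ => hU i l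
  have e1 : c * ((n : ℝ≥0∞)⁻¹ * N (fun t => ∑ l, ∑ i, U i l t)) =
      N (fun t => (c * (n : ℝ≥0∞)⁻¹) * ∑ l, ∑ i, U i l t) := by
    rw [hQ.smul _ (by finiteness) _ hW, mul_assoc]
  rw [e1]
  refine hQ.basic.mono _ _ (meas_mix Finset.univ Y hYm (fun _ => w) R (1 / R)) (hW.const_mul _)
    fun t => ?_
  by_cases ht : t ∈ G
  · have hYt : ∀ σ, Y σ t = ∑ l, U (σ l) l t := fun σ => Set.indicator_of_mem ht _
    simp only [hYt]
    by_cases hWt : ∑ l, ∑ i, U i l t = ∞
    · rw [hWt, ENNReal.mul_top]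
      · exact le_top
      · exact mul_ne_zero (lt_of_lt_of_le one_pos hc1).ne' (by simp)
    · have h1 := lln_up n (fun i l => U i l t) hn hWt (hGU t ht) R ⌈R⌉₊ hR0 (Nat.le_ceil R)
      rw [← hcdef, avg_eq] at h1
      calc _ ≤ (c * ((∑ l, ∑ i, U i l t) / n) ^ R) ^ (1 / R) :=
            ENNReal.rpow_le_rpow h1 (by positivity)
        _ = c ^ (1 / R) * ((∑ l, ∑ i, U i l t) / n) := by
            rw [ENNReal.mul_rpow_of_nonneg _ _ (by positivity), ← ENNReal.rpow_mul,
              mul_one_div_cancel hR0.ne', ENNReal.rpow_one]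
        _ ≤ c * ((∑ l, ∑ i, U i l t) / n) := by
            gcongr
            calc c ^ (1 / R) ≤ c ^ (1 : ℝ) := by
                  apply ENNReal.rpow_le_rpow_of_exponent_le hc1
                  rw [div_le_iff₀ hR0]
                  linarith
              _ = c := ENNReal.rpow_one c
        _ = _ := by
            rw [ENNReal.div_eq_inv_mul, mul_assoc]
  · have hYt : ∀ σ, Y σ t = 0 := fun σ => Set.indicator_of_notMem ht _
    simp only [hYt, ENNReal.zero_rpow_of_pos hR0, mul_zero, Finset.sum_const_zero]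
    rw [ENNReal.zero_rpow_of_pos (by positivity)]
    exact zero_le

/-- constant of the upper selection inequality -/
noncomputable def cA (R : ℝ) : ℝ≥0∞ := ENNReal.ofReal ((⌈R⌉₊).factorial * Real.exp 2) + 1

theorem cA_ne_top (R : ℝ) : cA R ≠ ∞ := by
  unfold cA
  finiteness

/-- functionals that are strictly more than `1`-convex, and `R`-concave -/
theorem upc (hQ : Quad μ N) {r R : ℝ} (hr : 1 < r) (hR : 1 ≤ R) (hv : NConv N r)
    (hc : NConc N R) : UpC N (cA R) where
  sub := fun s u hu => subA hQ hr hv s u hu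
  sel := by
    intro n hn
    have hr1 : 0 < r - 1 := by linarith
    have hn0 : (n : ℝ≥0∞) ≠ 0 := by exact_mod_cast (by omega : n ≠ 0)
    obtain ⟨T, hTt, hT⟩ := numA hR (n : ℝ≥0∞)⁻¹ (by simp) (ENNReal.inv_ne_top.2 hn0)
    set b := (2 * (n : ℝ≥0∞)) ^ (r / (r - 1)) with hb
    have hbt : b ≠ ∞ := ENNReal.rpow_ne_top_of_nonneg (by positivity) (by finiteness)
    refine ⟨T + 2 * b + 1, by finiteness, ?_⟩
    intro κ _ _ U hU m hmt hW hm
    set W : Ω → ℝ≥0∞ := fun t => ∑ l, ∑ i, U i l t with hWdef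
    set V : κ → Ω → ℝ≥0∞ := fun l t => ∑ i, U i l t with hVdef
    have hV : ∀ l, Measurable (V l) := fun l => Finset.measurable_fun_sum _ fun i _ => hU i l
    have hWm : Measurable W := Finset.measurable_fun_sum _ fun l _ => hV l
    have hY : ∀ σ : κ → Fin n, Measurable (fun t => ∑ l, U (σ l) l t) := fun σ =>
      Finset.measurable_fun_sum _ fun l _ => hU _ l
    have hYW : ∀ (σ : κ → Fin n) t, ∑ l, U (σ l) l t ≤ W t := fun σ t =>
      Finset.sum_le_sum fun l _ =>
        Finset.single_le_sum (f := fun i => U i l t) (fun _ _ => zero_le) (Finset.mem_univ _)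
    by_cases hS : ∑ l, N (V l) = ∞
    · have : (T + 2 * b + 1) * (∑ l, N (V l) - N W) = ∞ := by
        rw [hS, ENNReal.top_sub hW, ENNReal.mul_top]
        exact (lt_of_lt_of_le one_pos le_add_self).ne'
      rw [this]
      simp
    by_cases hm2 : 2 * b * m < ∑ l, N (V l)
    · set B : Set Ω := {t | ∃ l, W t < n * V l t} with hB
      have hBm : MeasurableSet B := by
        have : B = ⋃ l, {t | W t < n * V l t} := by
          ext t
          simp [hB]
        rw [this]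
        exact MeasurableSet.iUnion fun l => measurableSet_lt hWm ((hV l).const_mul _)
      have h1 := badA hQ hr hR hv hc n hn V hV m hm hS hm2 B hBm (fun t ht => ht)
        (n : ℝ≥0∞)⁻¹ T hTt hT
      have h2 := goodA hQ hR hc n hn U hU Bᶜ hBm.compl (by
        intro t ht l
        by_contra hcon
        exact ht ⟨l, not_le.1 hcon⟩)
      have h3 : ∀ σ : κ → Fin n, N (fun t => ∑ l, U (σ l) l t) ≤
          N (Bᶜ.indicator fun t => ∑ l, U (σ l) l t) + N (B.indicator W) := by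
        intro σ
        have h4 := subA hQ hr hv (Finset.univ : Finset Bool)
          (fun b => Bool.rec (B.indicator W) (Bᶜ.indicator fun t => ∑ l, U (σ l) l t) b) (by
            intro b
            cases b
            · exact hWm.indicator hBm
            · exact (hY σ).indicator hBm.compl)
        simp only [Fintype.sum_bool] at h4
        refine le_trans (hQ.basic.mono _ _ (hY σ)
          (((hY σ).indicator hBm.compl).add (hWm.indicator hBm)) fun t => ?_) h4
        simp only [Pi.add_apply]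
        by_cases ht : t ∈ B
        · rw [Set.indicator_of_mem ht]
          exact (hYW σ t).trans le_add_self
        · rw [Set.indicator_of_mem (show t ∈ Bᶜ from ht)]
          exact le_self_add
      calc (avg n fun σ : κ → Fin n => N (fun t => ∑ l, U (σ l) l t))
          ≤ avg n fun σ : κ → Fin n =>
            (N (Bᶜ.indicator fun t => ∑ l, U (σ l) l t) + N (B.indicator W)) := avg_mono n h3
        _ = (avg n fun σ : κ → Fin n => N (Bᶜ.indicator fun t => ∑ l, U (σ l) l t)) +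
            N (B.indicator W) := by
            rw [avg_eq, avg_eq]
            simp_rw [mul_add]
            rw [Finset.sum_add_distrib, ← Finset.sum_mul, avg_w n hn, one_mul]
        _ ≤ ENNReal.ofReal ((⌈R⌉₊).factorial * Real.exp 2) * ((n : ℝ≥0∞)⁻¹ * N W) +
            ((n : ℝ≥0∞)⁻¹ * N W + T * (∑ l, N (V l) - N W)) := add_le_add h2 h1
        _ = cA R * ((n : ℝ≥0∞)⁻¹ * N W) + T * (∑ l, N (V l) - N W) := by
            unfold cA
            ring
        _ ≤ cA R * ((n : ℝ≥0∞)⁻¹ * N W) + (T + 2 * b + 1) * (∑ l, N (V l) - N W) +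
            (T + 2 * b + 1) * m := by
            refine le_trans ?_ le_self_add
            gcongr
            rw [add_assoc]
            exact le_self_add
    · push Not at hm2
      calc (avg n fun σ : κ → Fin n => N (fun t => ∑ l, U (σ l) l t))
          ≤ ∑ l, N (V l) := by
            refine avg_le_const n hn fun σ => ?_
            refine (subA hQ hr hv Finset.univ (fun l => U (σ l) l) fun l => hU _ l).trans ?_
            refine Finset.sum_le_sum fun l _ => ?_
            refine hQ.basic.mono _ _ (hU _ l) (hV l) fun t => ?_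
            exact Finset.single_le_sum (f := fun i => U i l t) (fun _ _ => zero_le)
              (Finset.mem_univ _)
        _ ≤ 2 * b * m := hm2
        _ ≤ (T + 2 * b + 1) * m := by
            gcongr
            calc 2 * b ≤ T + 2 * b := le_add_self
              _ ≤ _ := le_self_add
        _ ≤ _ := le_add_self

theorem UpC.mono {c c' : ℝ≥0∞} (h : UpC N c) (hc : c ≤ c') : UpC N c' where
  sub := h.sub
  sel := by
    intro n hn
    obtain ⟨K, hK, hsel⟩ := h.sel n hn
    refine ⟨K, hK, ?_⟩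
    intro κ _ _ U hU m hm hW hle
    refine (hsel U hU m hm hW hle).trans ?_
    gcongr

theorem cA_mono {R R' : ℝ} (h : R ≤ R') : cA R ≤ cA R' := by
  unfold cA
  gcongr

/-- additive functionals -/
theorem upc_add (hv : NConv N 1) (hc : NConc N 1) : UpC N 1 := by
  have hadd : ∀ {κ : Type} (s : Finset κ) (u : κ → Ω → ℝ≥0∞), (∀ i, Measurable (u i)) →
      N (fun t => ∑ i ∈ s, u i t) = ∑ i ∈ s, N (u i) := by
    intro κ s u hu
    have h1 := hv s u hu
    have h2 := hc s u hu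
    simp only [ENNReal.rpow_one, div_one] at h1 h2
    exact le_antisymm h1 h2
  refine ⟨fun s u hu => (hadd s u hu).le, fun n hn => ⟨0, by simp, ?_⟩⟩
  intro κ _ _ U hU m hm hW hle
  rw [zero_mul, zero_mul, add_zero, add_zero, one_mul]
  have e1 : ∀ σ : κ → Fin n, N (fun t => ∑ l, U (σ l) l t) = ∑ l, N (U (σ l) l) := fun σ =>
    hadd Finset.univ (fun l => U (σ l) l) fun l => hU _ l
  have e2 : N (fun t => ∑ l, ∑ i, U i l t) = ∑ l, ∑ i, N (U i l) := by
    rw [hadd Finset.univ (fun l t => ∑ i, U i l t)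
      fun l => Finset.measurable_fun_sum _ fun i _ => hU i l]
    exact Finset.sum_congr rfl fun l _ => hadd Finset.univ (fun i => U i l) fun i => hU i l
  simp only [e1]
  rw [← avg_sum, e2, Finset.mul_sum]
  refine (Finset.sum_congr rfl fun l _ => ?_).le
  exact HLP.avg_coord n hn l fun i => N (U i l)

end LTC
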