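import Pool.Agent.LTC.ClsA

/-!
# Concave functionals, exponent smaller than one
-/

set_option autoImplicit false

open MeasureTheory
open scoped ENNReal NNReal

namespace LTC

open HLP (avg avg_sum avg_mul avg_mono avg_const avg_le_const lln_low)

universe w

theorem rpow_sum_le {κ : Type} (s : Finset κ) (x : κ → ℝ≥0∞) {t : ℝ} (ht : 0 < t) (ht1 : t ≤ 1) :
    (∑ i ∈ s, x i) ^ t ≤ ∑ i ∈ s, x i ^ t := by
  classical
  induction s using Finset.induction_on with
  | empty => simp [ENNReal.zero_rpow_of_pos ht]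
  | insert a s ha ih =>
    rw [Finset.sum_insert ha, Finset.sum_insert ha]
    exact (ENNReal.rpow_add_le_add_rpow _ _ ht.le ht1).trans (add_le_add le_rfl ih)

variable {Ω : Type w} [MeasurableSpace Ω] {μ : Measure Ω} {N : (Ω → ℝ≥0∞) → ℝ≥0∞}

theorem quasiB (hQ : Quad μ N) (h : NConv N (1 / 2)) {κ : Type} (s : Finset κ)
    (V : κ → Ω → ℝ≥0∞) (hV : ∀ i, Measurable (V i)) :
    N (fun t => ∑ i ∈ s, V i t) ≤ s.card * ∑ i ∈ s, N (V i) := by
  have h1 := h s V hV
  have h2 : N (fun t => ∑ i ∈ s, V i t) ≤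
      N (fun t => (∑ i ∈ s, V i t ^ (1 / 2 : ℝ)) ^ (1 / (1 / 2 : ℝ))) := by
    refine hQ.basic.mono _ _ (Finset.measurable_fun_sum s fun i _ => hV i)
      ((Finset.measurable_fun_sum s fun i _ => (hV i).pow_const _).pow_const _) fun t => ?_
    calc ∑ i ∈ s, V i t = ((∑ i ∈ s, V i t) ^ (1 / 2 : ℝ)) ^ (1 / (1 / 2 : ℝ)) := by
          rw [← ENNReal.rpow_mul, mul_one_div_cancel (by norm_num), ENNReal.rpow_one]
      _ ≤ _ := ENNReal.rpow_le_rpow (rpow_sum_le s _ (by norm_num) (by norm_num)) (by norm_num)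
  refine h2.trans (h1.trans ?_)
  have h3 := ENNReal.rpow_sum_le_const_mul_sum_rpow (s := s) (f := fun i => N (V i) ^ (1 / 2 : ℝ))
    (p := 2) (by norm_num)
  rw [show (1 / (1 / 2 : ℝ)) = 2 by norm_num]
  refine h3.trans (le_of_eq ?_)
  rw [show (2 - 1 : ℝ) = 1 by norm_num, ENNReal.rpow_one]
  congr 1
  refine Finset.sum_congr rfl fun i _ => ?_
  rw [← ENNReal.rpow_mul, show (1 / 2 * 2 : ℝ) = 1 by norm_num, ENNReal.rpow_one]

/-- the concave mixture -/
theorem mixB (hQ : Quad μ N) {p : ℝ} (hp0 : 0 < p) (hp1 : p < 1) (h : NConc N p) {κ : Type}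
    (s : Finset κ) (V : κ → Ω → ℝ≥0∞) (hV : ∀ i, Measurable (V i))
    (hS0 : ∑ i ∈ s, N (V i) ≠ 0) (hS : ∑ i ∈ s, N (V i) ≠ ∞) :
    ∃ Z : Ω → ℝ≥0∞, Measurable Z ∧ ∑ i ∈ s, N (V i) ≤ N Z ∧ (∀ t, Z t ≤ ∑ i ∈ s, V i t) ∧
      ∀ (n : ℕ) (e : ℝ≥0∞), 1 ≤ n → (∀ l ∈ s, N (V l) ≤ e * ∑ i ∈ s, N (V i)) →
        ∀ t, ∀ l ∈ s, ∑ i ∈ s, V i t < n * V l t →
          Z t ≤ ((1 - (n : ℝ≥0∞)⁻¹) ^ p + e ^ (1 - p)) ^ (1 / p) * ∑ i ∈ s, V i t := by
  classical
  set S := ∑ i ∈ s, N (V i) with hSdef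
  set s' := s.filter (fun i => N (V i) ≠ 0) with hs'
  have hsub : s' ⊆ s := Finset.filter_subset _ _
  have hNt : ∀ i ∈ s, N (V i) ≠ ∞ := fun i hi =>
    ne_top_of_le_ne_top hS (Finset.single_le_sum (f := fun i => N (V i)) (fun _ _ => zero_le) hi)
  have hsum : ∑ i ∈ s', N (V i) = S := by
    rw [hs', hSdef, Finset.sum_filter_ne_zero]
  set l : κ → ℝ≥0∞ := fun i => if i ∈ s' then N (V i) / S else 0 with hl
  have hli : ∀ i ∈ s', l i = N (V i) / S := fun i hi => if_pos hi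
  have hl0 : ∀ i ∈ s', l i ≠ 0 := by
    intro i hi
    rw [hli i hi]
    exact ENNReal.div_ne_zero.2 ⟨(Finset.mem_filter.1 hi).2, hS⟩
  have hlt : ∀ i, l i ≠ ∞ := by
    intro i
    by_cases hi : i ∈ s'
    · rw [hli i hi]
      exact ENNReal.div_ne_top (hNt i (hsub hi)) hS0
    · rw [hl]
      beta_reduce
      rw [if_neg hi]
      simp
  have hl1 : ∑ i ∈ s', l i = 1 := by
    rw [Finset.sum_congr rfl hli]
    simp_rw [div_eq_mul_inv]
    rw [← Finset.sum_mul, hsum, ENNReal.mul_inv_cancel hS0 hS]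
  have hlS : ∀ i ∈ s', l i * S = N (V i) := fun i hi => by
    rw [hli i hi, ENNReal.div_mul_cancel hS0 hS]
  have hinv : ∀ i ∈ s', (l i)⁻¹ * N (V i) = S := fun i hi => by
    rw [← hlS i hi, ← mul_assoc, ENNReal.inv_mul_cancel (hl0 i hi) (hlt i), one_mul]
  have hcan : ∀ i ∈ s', ∀ x : ℝ≥0∞, l i * ((l i)⁻¹ * x) = x := fun i hi x => by
    rw [← mul_assoc, ENNReal.mul_inv_cancel (hl0 i hi) (hlt i), one_mul]
  have hZle : ∀ t, (∑ i ∈ s', l i * ((l i)⁻¹ * V i t) ^ p) ^ (1 / p) ≤ ∑ i ∈ s', V i t := by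
    intro t
    refine (mean_ge s' l (fun i => (l i)⁻¹ * V i t) hl1 hp0 hp1.le).trans (le_of_eq ?_)
    exact Finset.sum_congr rfl fun i hi => hcan i hi _
  refine ⟨fun t => (∑ i ∈ s', l i * ((l i)⁻¹ * V i t) ^ p) ^ (1 / p), ?_, ?_, ?_, ?_⟩
  · exact meas_mix s' (fun i t => (l i)⁻¹ * V i t) (fun i => (hV i).const_mul _) l p (1 / p)
  · have h1 := wconc hQ hp0 h s' (fun i t => (l i)⁻¹ * V i t) (fun i => (hV i).const_mul _) l hlt
    refine le_trans (le_of_eq ?_) h1
    have h2 : ∑ i ∈ s', l i * N (fun t => (l i)⁻¹ * V i t) ^ p = S ^ p := by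
      calc _ = ∑ i ∈ s', l i * S ^ p := by
            refine Finset.sum_congr rfl fun i hi => ?_
            rw [hQ.smul _ (ENNReal.inv_ne_top.2 (hl0 i hi)) _ (hV i), hinv i hi]
        _ = S ^ p := by rw [← Finset.sum_mul, hl1, one_mul]
    rw [h2, ← ENNReal.rpow_mul, mul_one_div_cancel hp0.ne', ENNReal.rpow_one]
  · intro t
    exact (hZle t).trans (Finset.sum_le_sum_of_subset hsub)
  · intro n e hn he t j hj hjt
    have hn0 : (n : ℝ≥0∞) ≠ 0 := by exact_mod_cast (by omega : n ≠ 0)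
    set W := ∑ i ∈ s, V i t with hW
    have hWt : W ≠ ∞ := (lt_of_lt_of_le hjt le_top).ne
    have hrest : ∑ i ∈ s.erase j, V i t ≤ (1 - (n : ℝ≥0∞)⁻¹) * W := by
      have h1 : (n : ℝ≥0∞)⁻¹ * W ≤ V j t := by
        calc (n : ℝ≥0∞)⁻¹ * W ≤ (n : ℝ≥0∞)⁻¹ * (n * V j t) := by gcongr
          _ = V j t := by rw [← mul_assoc, ENNReal.inv_mul_cancel hn0 (by simp), one_mul]
      rw [ENNReal.sub_mul fun _ _ => hWt, one_mul]
      refine ENNReal.le_sub_of_add_le_right (by finiteness) ?_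
      calc ∑ i ∈ s.erase j, V i t + (n : ℝ≥0∞)⁻¹ * W ≤ ∑ i ∈ s.erase j, V i t + V j t := by gcongr
        _ = W := Finset.sum_erase_add _ _ hj
    have hW' : ((W ^ p) ^ (1 / p)) = W := by
      rw [← ENNReal.rpow_mul, mul_one_div_cancel hp0.ne', ENNReal.rpow_one]
    by_cases hj' : j ∈ s'
    · have h2 : l j * ((l j)⁻¹ * V j t) ^ p ≤ e ^ (1 - p) * W ^ p := by
        have hlj : l j ≤ e := by
          rw [hli j hj']
          exact ENNReal.div_le_of_le_mul (he j hj)
        have hVW : V j t ≤ W := Finset.single_le_sum (f := fun i => V i t) (fun _ _ => zero_le) hj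
        have e1 : l j * ((l j)⁻¹) ^ p = (l j) ^ (1 - p) := by
          rw [ENNReal.inv_rpow, ← ENNReal.rpow_neg]
          calc l j * (l j) ^ (-p) = (l j) ^ (1 : ℝ) * (l j) ^ (-p) := by rw [ENNReal.rpow_one]
            _ = (l j) ^ (1 + -p) := (ENNReal.rpow_add _ _ (hl0 j hj') (hlt j)).symm
            _ = _ := by congr 1
        rw [ENNReal.mul_rpow_of_nonneg _ _ hp0.le, ← mul_assoc, e1]
        exact mul_le_mul' (ENNReal.rpow_le_rpow hlj (by linarith))
          (ENNReal.rpow_le_rpow hVW hp0.le)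
      have h3 : ∑ i ∈ s'.erase j, l i * ((l i)⁻¹ * V i t) ^ p ≤
          ((1 - (n : ℝ≥0∞)⁻¹) ^ p) * W ^ p := by
        have h4 := mean_ge s' l (fun i => if i = j then 0 else (l i)⁻¹ * V i t) hl1 hp0 hp1.le
        have e2 : ∑ i ∈ s', l i * (if i = j then 0 else (l i)⁻¹ * V i t) ^ p =
            ∑ i ∈ s'.erase j, l i * ((l i)⁻¹ * V i t) ^ p := by
          rw [← Finset.sum_erase_add _ _ hj']
          simp only [if_true, ENNReal.zero_rpow_of_pos hp0, mul_zero, add_zero]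
          refine Finset.sum_congr rfl fun i hi => ?_
          rw [if_neg (Finset.ne_of_mem_erase hi)]
        have e3 : ∑ i ∈ s', l i * (if i = j then 0 else (l i)⁻¹ * V i t) =
            ∑ i ∈ s'.erase j, V i t := by
          rw [← Finset.sum_erase_add _ _ hj']
          simp only [if_true, mul_zero, add_zero]
          refine Finset.sum_congr rfl fun i hi => ?_
          rw [if_neg (Finset.ne_of_mem_erase hi), hcan i (Finset.mem_of_mem_erase hi)]
        rw [e2, e3] at h4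
        have h5 : ∑ i ∈ s'.erase j, V i t ≤ (1 - (n : ℝ≥0∞)⁻¹) * W :=
          (Finset.sum_le_sum_of_subset (Finset.erase_subset_erase j hsub)).trans hrest
        have h6 := ENNReal.rpow_le_rpow (h4.trans h5) hp0.le
        rw [← ENNReal.rpow_mul, one_div_mul_cancel hp0.ne', ENNReal.rpow_one,
          ENNReal.mul_rpow_of_nonneg _ _ hp0.le] at h6
        exact h6
      have h7 : ∑ i ∈ s', l i * ((l i)⁻¹ * V i t) ^ p ≤
          ((1 - (n : ℝ≥0∞)⁻¹) ^ p + e ^ (1 - p)) * W ^ p := by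
        rw [← Finset.sum_erase_add _ _ hj', add_mul]
        exact add_le_add h3 h2
      calc _ ≤ (((1 - (n : ℝ≥0∞)⁻¹) ^ p + e ^ (1 - p)) * W ^ p) ^ (1 / p) :=
            ENNReal.rpow_le_rpow h7 (by positivity)
        _ = _ := by rw [ENNReal.mul_rpow_of_nonneg _ _ (by positivity), hW']
    · have h8 : s' ⊆ s.erase j := fun i hi =>
        Finset.mem_erase.2 ⟨fun h => hj' (h ▸ hi), hsub hi⟩
      calc _ ≤ ∑ i ∈ s', V i t := hZle t
        _ ≤ ∑ i ∈ s.erase j, V i t := Finset.sum_le_sum_of_subset h8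
        _ ≤ (1 - (n : ℝ≥0∞)⁻¹) * W := hrest
        _ = ((1 - (n : ℝ≥0∞)⁻¹) ^ p) ^ (1 / p) * W := by
            rw [← ENNReal.rpow_mul, mul_one_div_cancel hp0.ne', ENNReal.rpow_one]
        _ ≤ _ := by
            gcongr
            exact le_self_add

theorem supB (hQ : Quad μ N) {p : ℝ} (hp0 : 0 < p) (hp1 : p < 1) (h : NConc N p) {κ : Type}
    (s : Finset κ) (V : κ → Ω → ℝ≥0∞) (hV : ∀ i, Measurable (V i)) :
    ∑ i ∈ s, N (V i) ≤ N (fun t => ∑ i ∈ s, V i t) := by
  classical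
  have hVs : Measurable fun t => ∑ i ∈ s, V i t := Finset.measurable_fun_sum s fun i _ => hV i
  by_cases hS0 : ∑ i ∈ s, N (V i) = 0
  · rw [hS0]
    exact zero_le
  by_cases hS : ∑ i ∈ s, N (V i) = ∞
  · obtain ⟨i, hi, hit⟩ := ENNReal.sum_eq_top.1 hS
    have h1 := hQ.basic.mono (V i) (fun t => ∑ i ∈ s, V i t) (hV i) hVs fun t =>
      Finset.single_le_sum (f := fun i => V i t) (fun _ _ => zero_le) hi
    rw [hit, top_le_iff] at h1
    rw [h1]
    exact le_top
  obtain ⟨Z, hZ, h1, h2, -⟩ := mixB hQ hp0 hp1 h s V hV hS0 hS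
  exact h1.trans (hQ.basic.mono _ _ hZ hVs h2)

theorem choose_e {p : ℝ} (hp0 : 0 < p) (hp1 : p < 1) (n : ℕ) :
    ∃ e : ℝ≥0∞, e ≠ 0 ∧ e ≠ ∞ ∧ ((1 - (n : ℝ≥0∞)⁻¹) ^ p + e ^ (1 - p)) ^ (1 / p) < 1 := by
  have h1p : 0 < 1 - p := by linarith
  set a : ℝ≥0∞ := (1 - (n : ℝ≥0∞)⁻¹) ^ p with ha
  have ha1 : a < 1 := by
    apply ENNReal.rpow_lt_one _ hp0
    exact ENNReal.sub_lt_self (by simp) (by simp) (by simp)
  set g : ℝ≥0∞ := (1 - a) / 2 with hg
  have hg0 : g ≠ 0 := by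
    rw [hg]
    exact ENNReal.div_ne_zero.2 ⟨(tsub_pos_of_lt ha1).ne', by simp⟩
  have hgt : g ≠ ∞ := by
    rw [hg]
    exact ENNReal.div_ne_top (ne_top_of_le_ne_top (by simp) tsub_le_self) (by simp)
  refine ⟨g ^ (1 / (1 - p)), ?_, ?_, ?_⟩
  · rw [Ne, ENNReal.rpow_eq_zero_iff]
    push Not
    exact ⟨fun h => absurd h hg0, fun h => absurd h hgt⟩
  · exact ENNReal.rpow_ne_top_of_nonneg (by positivity) hgt
  · rw [← ENNReal.rpow_mul, one_div_mul_cancel h1p.ne', ENNReal.rpow_one]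
    apply ENNReal.rpow_lt_one _ (by positivity)
    have hag : a + g < a + (1 - a) := by
      apply ENNReal.add_lt_add_left (ne_top_of_lt ha1)
      rw [hg]
      exact ENNReal.half_lt_self (tsub_pos_of_lt ha1).ne' (ne_top_of_le_ne_top (by simp) tsub_le_self)
    rwa [add_tsub_cancel_of_le ha1.le] at hag

/-- the bad set carries little -/
theorem badB (hQ : Quad μ N) {p : ℝ} (hp0 : 0 < p) (hp1 : p < 1) (h : NConc N p) {κ : Type}
    [Fintype κ] (n : ℕ) (hn : 1 ≤ n) (V : κ → Ω → ℝ≥0∞) (hV : ∀ l, Measurable (V l))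
    (hS0 : ∑ l, N (V l) ≠ 0) (hS : ∑ l, N (V l) ≠ ∞) (e : ℝ≥0∞)
    (he1 : ((1 - (n : ℝ≥0∞)⁻¹) ^ p + e ^ (1 - p)) ^ (1 / p) < 1)
    (he : ∀ l, N (V l) ≤ e * ∑ l, N (V l)) (B : Set Ω) (hB : MeasurableSet B)
    (hBV : ∀ t ∈ B, ∃ l, ∑ l, V l t < n * V l t) :
    (1 - ((1 - (n : ℝ≥0∞)⁻¹) ^ p + e ^ (1 - p)) ^ (1 / p)) *
      N (B.indicator fun t => ∑ l, V l t) + ∑ l, N (V l) ≤ N (fun t => ∑ l, V l t) := by
  classical
  set th := ((1 - (n : ℝ≥0∞)⁻¹) ^ p + e ^ (1 - p)) ^ (1 / p) with hth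
  set W : Ω → ℝ≥0∞ := fun t => ∑ l, V l t with hW
  have hWm : Measurable W := Finset.measurable_fun_sum _ fun l _ => hV l
  obtain ⟨Z, hZ, h1, h2, h3⟩ := mixB hQ hp0 hp1 h Finset.univ V hV hS0 hS
  have hct : 1 - th ≠ ∞ := ne_top_of_le_ne_top (by simp) tsub_le_self
  have hBW : Measurable (B.indicator W) := hWm.indicator hB
  have h4 := supB hQ hp0 hp1 h (Finset.univ : Finset Bool)
    (fun b => Bool.rec Z (fun t => (1 - th) * B.indicator W t) b) (by
      intro b
      cases b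
      · exact hZ
      · exact hBW.const_mul _)
  simp only [Fintype.sum_bool] at h4
  rw [hQ.smul _ hct _ hBW] at h4
  refine (add_le_add le_rfl h1).trans (h4.trans ?_)
  refine hQ.basic.mono _ _ ((hBW.const_mul _).add hZ) hWm fun t => ?_
  by_cases ht : t ∈ B
  · obtain ⟨l, hl⟩ := hBV t ht
    rw [Set.indicator_of_mem ht]
    calc (1 - th) * W t + Z t ≤ (1 - th) * W t + th * W t := by
          gcongr
          exact h3 n e hn (fun l _ => he l) t l (Finset.mem_univ l) hl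
      _ = W t := by rw [← add_mul, tsub_add_cancel_of_le he1.le, one_mul]
  · rw [Set.indicator_of_notMem ht, mul_zero, zero_add]
    exact h2 t

/-- the good set -/
theorem goodB (hQ : Quad μ N) (hh : NConv N (1 / 2)) {κ : Type} [Fintype κ]
    [DecidableEq κ] (n : ℕ) (hn : 1 ≤ n) (U : Fin n → κ → Ω → ℝ≥0∞)
    (hU : ∀ i l, Measurable (U i l)) (G : Set Ω) (hG : MeasurableSet G)
    (hGU : ∀ t ∈ G, ∀ l, n * ∑ i, U i l t ≤ ∑ l, ∑ i, U i l t) :
    N (G.indicator fun t => ∑ l, ∑ i, U i l t) ≤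
      16 * n * avg n fun σ : κ → Fin n => N (fun t => ∑ l, U (σ l) l t) := by
  have hn0 : (n : ℝ≥0∞) ≠ 0 := by exact_mod_cast (by omega : n ≠ 0)
  set w := ((n : ℝ≥0∞) ^ (Fintype.card κ))⁻¹ with hw
  have hw0 : w ≠ 0 := by
    rw [hw]
    simp
  set Y : (κ → Fin n) → Ω → ℝ≥0∞ := fun σ t => ∑ l, U (σ l) l t with hY
  have hYm : ∀ σ, Measurable (Y σ) := fun σ => Finset.measurable_fun_sum _ fun l _ => hU _ l
  have hW : Measurable fun t => ∑ l, ∑ i, U i l t :=
    Finset.measurable_fun_sum _ fun l _ => Finset.measurable_fun_sum _ fun i _ => hU i l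
  have h1 : N (fun t => (∑ σ, w * Y σ t ^ (1 / 2 : ℝ)) ^ (1 / (1 / 2 : ℝ))) ≤
      avg n fun σ : κ → Fin n => N (Y σ) := by
    refine (wconv hQ (by norm_num) hh Finset.univ Y hYm (fun _ => w)
      fun _ => avg_wt n hn).trans ?_
    rw [avg_eq]
    exact mean_ge Finset.univ (fun _ => w) (fun σ => N (Y σ)) (avg_w n hn) (by norm_num)
      (by norm_num)
  have hm : Measurable fun t => (∑ σ, w * Y σ t ^ (1 / 2 : ℝ)) ^ (1 / (1 / 2 : ℝ)) :=
    meas_mix Finset.univ Y hYm (fun _ => w) (1 / 2) (1 / (1 / 2))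
  have h2 : N (G.indicator fun t => ∑ l, ∑ i, U i l t) ≤
      N (fun t => (16 * (n : ℝ≥0∞)) *
        (∑ σ, w * Y σ t ^ (1 / 2 : ℝ)) ^ (1 / (1 / 2 : ℝ))) := by
    refine hQ.basic.mono _ _ (hW.indicator hG) (hm.const_mul _) fun t => ?_
    by_cases ht : t ∈ G
    · rw [Set.indicator_of_mem ht]
      by_cases hWt : ∑ l, ∑ i, U i l t = ∞
      · have h3 : ∑ σ, w * Y σ t ^ (1 / 2 : ℝ) = ∞ := by
          obtain ⟨l, -, hl⟩ := ENNReal.sum_eq_top.1 hWt
          obtain ⟨i, -, hi⟩ := ENNReal.sum_eq_top.1 hl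
          rw [ENNReal.sum_eq_top]
          refine ⟨fun _ => i, Finset.mem_univ _, ?_⟩
          have h4 : Y (fun _ => i) t = ∞ := by
            rw [hY]
            exact ENNReal.sum_eq_top.2 ⟨l, Finset.mem_univ _, hi⟩
          rw [h4, ENNReal.top_rpow_of_pos (by norm_num), ENNReal.mul_top hw0]
        rw [h3, ENNReal.top_rpow_of_pos (by norm_num), ENNReal.mul_top]
        · exact le_top
        · exact mul_ne_zero (by norm_num) hn0
      · have h5 := lln_low n (fun i l => U i l t) hn hWt (hGU t ht) (1 / 2) (by norm_num)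
          (by norm_num)
        rw [avg_eq] at h5
        have h6 := ENNReal.rpow_le_rpow h5 (z := 1 / (1 / 2 : ℝ)) (by norm_num)
        rw [ENNReal.mul_rpow_of_nonneg _ _ (by norm_num), ← ENNReal.rpow_mul,
          mul_one_div_cancel (by norm_num : (1 / 2 : ℝ) ≠ 0), ENNReal.rpow_one] at h6
        have e1 : (1 / 4 : ℝ≥0∞) ^ (1 / (1 / 2 : ℝ)) = 16⁻¹ := by
          rw [show (1 / (1 / 2 : ℝ)) = ((2 : ℕ) : ℝ) by norm_num, ENNReal.rpow_natCast, one_div,
            ← ENNReal.inv_pow]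
          norm_num
        rw [e1] at h6
        calc ∑ l, ∑ i, U i l t = 16 * n * (16⁻¹ * ((∑ l, ∑ i, U i l t) / n)) := by
              rw [ENNReal.div_eq_inv_mul]
              calc _ = (16 * 16⁻¹) * (n * (n : ℝ≥0∞)⁻¹) * ∑ l, ∑ i, U i l t := by
                    rw [ENNReal.mul_inv_cancel hn0 (by simp),
                      ENNReal.mul_inv_cancel (by norm_num) (by simp), one_mul, one_mul]
                _ = _ := by ring
          _ ≤ _ := by gcongr
    · rw [Set.indicator_of_notMem ht]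
      exact zero_le
  rw [hQ.smul _ (by finiteness) _ hm] at h2
  refine h2.trans ?_
  gcongr

/-- functionals that are strictly more than `1`-concave -/
theorem downc (hQ : Quad μ N) {p : ℝ} (hp0 : 0 < p) (hp1 : p < 1) (h : NConc N p)
    (hh : NConv N (1 / 2)) : DownC N where
  sup := fun s u hu => supB hQ hp0 hp1 h s u hu
  quasi := fun s u hu => quasiB hQ hh s u hu
  sel := by
    intro n hn
    have hn0 : (n : ℝ≥0∞) ≠ 0 := by exact_mod_cast (by omega : n ≠ 0)
    obtain ⟨e, he0, het, he1⟩ := choose_e hp0 hp1 n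
    set c := 1 - ((1 - (n : ℝ≥0∞)⁻¹) ^ p + e ^ (1 - p)) ^ (1 / p) with hc
    have hc0 : c ≠ 0 := (tsub_pos_of_lt he1).ne'
    have hct : c ≠ ∞ := ne_top_of_le_ne_top (by simp) tsub_le_self
    have hci : c⁻¹ ≠ ∞ := ENNReal.inv_ne_top.2 hc0
    have hei : e⁻¹ ≠ ∞ := ENNReal.inv_ne_top.2 he0
    refine ⟨2 * c⁻¹ + e⁻¹ + 1, by finiteness, ?_⟩
    intro κ _ _ U hU m hmt hWt hm
    set K := 2 * c⁻¹ + e⁻¹ + 1 with hK
    set W : Ω → ℝ≥0∞ := fun t => ∑ l, ∑ i, U i l t with hWdef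
    set V : κ → Ω → ℝ≥0∞ := fun l t => ∑ i, U i l t with hVdef
    have hV : ∀ l, Measurable (V l) := fun l => Finset.measurable_fun_sum _ fun i _ => hU i l
    have hWm : Measurable W := Finset.measurable_fun_sum _ fun l _ => hV l
    have hSW : ∑ l, N (V l) ≤ N W := supB hQ hp0 hp1 h Finset.univ V hV
    have hSt : ∑ l, N (V l) ≠ ∞ := ne_top_of_le_ne_top hWt hSW
    by_cases hS0 : ∑ l, N (V l) = 0
    · have h1 := quasiB hQ hh Finset.univ V hV
      rw [hS0, mul_zero] at h1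
      exact h1.trans zero_le
    by_cases hm2 : m ≤ e * ∑ l, N (V l)
    · set B : Set Ω := {t | ∃ l, W t < n * V l t} with hB
      have hBm : MeasurableSet B := by
        have : B = ⋃ l, {t | W t < n * V l t} := by
          ext t
          simp [hB]
        rw [this]
        exact MeasurableSet.iUnion fun l => measurableSet_lt hWm ((hV l).const_mul _)
      have h1 := badB hQ hp0 hp1 h n hn V hV hS0 hSt e he1 (fun l => (hm l).trans hm2) B hBm
        (fun t ht => ht)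
      rw [← hc] at h1
      have h2 := goodB hQ hh n hn U hU Bᶜ hBm.compl (by
        intro t ht l
        by_contra hcon
        exact ht ⟨l, not_le.1 hcon⟩)
      have h3 : N (B.indicator W) ≤ c⁻¹ * (N W - ∑ l, N (V l)) := by
        have h4 : c * N (B.indicator W) ≤ N W - ∑ l, N (V l) :=
          ENNReal.le_sub_of_add_le_right hSt h1
        calc N (B.indicator W) = c⁻¹ * (c * N (B.indicator W)) := by
              rw [← mul_assoc, ENNReal.inv_mul_cancel hc0 hct, one_mul]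
          _ ≤ _ := by gcongr
      have h5 := quasiB hQ hh (Finset.univ : Finset Bool)
        (fun b => Bool.rec (B.indicator W) (Bᶜ.indicator W) b) (by
          intro b
          cases b
          · exact hWm.indicator hBm
          · exact hWm.indicator hBm.compl)
      simp only [Fintype.sum_bool, Finset.card_univ, Fintype.card_bool] at h5
      have h6 : N W ≤ N (fun t => Bᶜ.indicator W t + B.indicator W t) := by
        refine hQ.basic.mono _ _ hWm ((hWm.indicator hBm.compl).add (hWm.indicator hBm))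
          fun t => ?_
        by_cases ht : t ∈ B
        · rw [Set.indicator_of_mem ht]
          exact le_add_self
        · rw [Set.indicator_of_mem (show t ∈ Bᶜ from ht)]
          exact le_self_add
      calc N W ≤ _ := h6
        _ ≤ _ := h5
        _ ≤ ((2 : ℕ) : ℝ≥0∞) * (16 * n * (avg n fun σ : κ → Fin n =>
              N (fun t => ∑ l, U (σ l) l t)) + c⁻¹ * (N W - ∑ l, N (V l))) := by
            gcongr
        _ = 32 * n * (avg n fun σ : κ → Fin n => N (fun t => ∑ l, U (σ l) l t)) +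
            2 * c⁻¹ * (N W - ∑ l, N (V l)) := by
            push_cast
            ring
        _ ≤ 64 * n * (avg n fun σ : κ → Fin n => N (fun t => ∑ l, U (σ l) l t)) +
            K * (N W - ∑ l, N (V l)) := by
            gcongr
            · norm_num
            · rw [hK, add_assoc]
              exact le_self_add
        _ ≤ _ := le_self_add
    · push Not at hm2
      have h7 : ∑ l, N (V l) ≤ e⁻¹ * m := by
        calc ∑ l, N (V l) = e⁻¹ * (e * ∑ l, N (V l)) := by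
              rw [← mul_assoc, ENNReal.inv_mul_cancel he0 het, one_mul]
          _ ≤ _ := by gcongr
      calc N W = (N W - ∑ l, N (V l)) + ∑ l, N (V l) := (tsub_add_cancel_of_le hSW).symm
        _ ≤ K * (N W - ∑ l, N (V l)) + K * m := by
            refine add_le_add ?_ (h7.trans ?_)
            · calc N W - ∑ l, N (V l) = 1 * (N W - ∑ l, N (V l)) := (one_mul _).symm
                _ ≤ _ := by
                  gcongr
                  exact le_add_self
            · gcongr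
              rw [hK, add_assoc]
              exact le_self_add.trans le_add_self
        _ ≤ _ := by
            rw [add_assoc]
            exact le_add_self

end LTC
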