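import Pool.Agent.LTC.TypeDir

/-!
# The cotype 2 direction
-/

set_option autoImplicit false

open MeasureTheory
open scoped ENNReal

namespace LTC

open HLP (avg cells mem_cells sum_cells sum_cells_cells half_pow sum_half esc pigeon tele_down
  tele_up ext ext_val sum_fin_cells avg_sum avg_tsum avg_mul avg_coord avg_mono avg_const
  avg_le_const)

universe w

/-- cyclic shifts: selections for functionals of the second kind -/
theorem sel_one {Ω : Type w} [MeasurableSpace Ω] {N : (Ω → ℝ≥0∞) → ℝ≥0∞} (hN : DownC N)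
    {κ : Type} [Fintype κ] [DecidableEq κ] (n : ℕ) [NeZero n] (U : Fin n → κ → Ω → ℝ≥0∞)
    (hU : ∀ i l, Measurable (U i l)) :
    (avg n fun σ : κ → Fin n => N (fun t => ∑ l, U (σ l) l t)) ≤
      (n : ℝ≥0∞)⁻¹ * N (fun t => ∑ l, ∑ i, U i l t) := by
  have hn : 1 ≤ n := Nat.one_le_iff_ne_zero.2 (NeZero.ne n)
  have hn0 : (n : ℝ≥0∞) ≠ 0 := by exact_mod_cast NeZero.ne n
  set F : (κ → Fin n) → ℝ≥0∞ := fun σ => N (fun t => ∑ l, U (σ l) l t) with hF
  have h1 : ∀ b : Fin n, (avg n fun σ => F fun l => σ l + b) = avg n F := by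
    intro b
    unfold avg
    congr 1
    exact Equiv.sum_comp (Equiv.piCongrRight fun _ : κ => Equiv.addRight b) F
  have h2 : n * avg n F ≤ N (fun t => ∑ l, ∑ i, U i l t) := by
    calc n * avg n F = ∑ _b : Fin n, avg n F := by simp
      _ = ∑ b : Fin n, avg n (fun σ => F fun l => σ l + b) :=
          Finset.sum_congr rfl fun b _ => (h1 b).symm
      _ = avg n fun σ => ∑ b : Fin n, F fun l => σ l + b := avg_sum n _ _
      _ ≤ N (fun t => ∑ l, ∑ i, U i l t) := by
          refine avg_le_const n hn fun σ => ?_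
          have h3 := hN.sup Finset.univ
            (fun b : Fin n => fun t => ∑ l, U (σ l + b) l t)
            fun b => Finset.measurable_fun_sum _ fun l _ => hU _ l
          refine h3.trans (le_of_eq ?_)
          congr 1
          funext t
          rw [Finset.sum_comm]
          refine Finset.sum_congr rfl fun l _ => ?_
          exact Equiv.sum_comp (Equiv.addLeft (σ l)) fun i => U i l t
  calc avg n F = (n : ℝ≥0∞)⁻¹ * (n * avg n F) := by
        rw [← mul_assoc, ENNReal.inv_mul_cancel hn0 (by simp), one_mul]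
    _ ≤ _ := by gcongr

namespace Sys

variable {ι : Type} {Ω : ι → Type w} [∀ k, MeasurableSpace (Ω k)]
    {N : ∀ k, (Ω k → ℝ≥0∞) → ℝ≥0∞} {n : ℕ} [NeZero n] {D C : ℝ≥0∞}
    (S : Sys N n D C)

theorem sel_low_part (s : Fin n → ℕ) (j j' : ℕ) (hj : j ≤ j')
    (hs : ∀ r, j' ≤ s r) (T : Finset ι) (hT : ∀ k ∈ T, DownC (N k)) :
    ∑ k ∈ T, ∑ β ∈ Finset.range (2 ^ j), (avg n fun σ : Fin (2 ^ j') → Fin n =>
      N k (S.Y s (ext σ) j j' β k)) ≤ C * D := by
  have hn0 : (n : ℝ≥0∞) ≠ 0 := by exact_mod_cast NeZero.ne n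
  have h1 : ∀ k ∈ T, ∀ β, (avg n fun σ : Fin (2 ^ j') → Fin n =>
      N k (S.Y s (ext σ) j j' β k)) ≤
        (n : ℝ≥0∞)⁻¹ * N k (S.W s j β k) := by
    intro k hk β
    have h := sel_one (hT k hk) n (S.U s j j' β k)
      fun i l => S.meas_U s j j' β k i l
    simp_rw [S.sum_U s j j' β k hj hs, S.sel_U s j j' β k] at h
    exact h
  calc _ ≤ ∑ k ∈ T, ∑ β ∈ Finset.range (2 ^ j),
        (n : ℝ≥0∞)⁻¹ * N k (S.W s j β k) :=
        Finset.sum_le_sum fun k hk => Finset.sum_le_sum fun β _ => h1 k hk β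
    _ = (n : ℝ≥0∞)⁻¹ * S.EE s T j := by
        unfold EE
        simp_rw [Finset.mul_sum]
    _ ≤ (n : ℝ≥0∞)⁻¹ * (C * (n * D)) := by
        gcongr
        exact S.EE_le s T j fun r => hj.trans (hs r)
    _ = ((n : ℝ≥0∞)⁻¹ * n) * (C * D) := by ring
    _ = C * D := by rw [ENNReal.inv_mul_cancel hn0 (by simp), one_mul]

theorem G_total (s : Fin n → ℕ) (a : Fin n) (j : ℕ) (hs : ∀ r, j ≤ s r) (T : Finset ι) :
    ∑ k ∈ T, ∑ β ∈ Finset.range (2 ^ j), N k (S.G s a j β k) ≤ C * D := by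
  rw [Finset.sum_comm]
  calc _ ≤ ∑ β ∈ Finset.range (2 ^ j), (2⁻¹ : ℝ≥0∞) ^ j * (C * D) := by
        refine Finset.sum_le_sum fun β hβ => ?_
        refine (ENNReal.sum_le_tsum T).trans ?_
        refine (S.shift_le s a j β (Finset.mem_range.1 hβ) hs).trans (le_of_eq ?_)
        ring
    _ = _ := sum_half j _

theorem esc_part (hB : ∀ k, Basic (N k)) {cU : ℝ≥0∞} (η : ℝ≥0∞) (F : Finset ι) (J : ℕ) (s : Fin n → ℕ)
    (L : Fin n → Finset ι) (hs : ∀ r, J ≤ s r) (hLL : ∀ r r', r ≠ r' → Disjoint (L r) (L r'))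
    (hL : ∀ r i j, j ≤ J → ∀ t : Finset ι, (∀ k ∈ t, k ∉ F ∧ k ∉ L r) →
        ∑ k ∈ t, S.e (s r) i j k ≤ η) (j j' : ℕ) (hj : j ≤ j') (hj' : j' ≤ J) (T : Finset ι)
    (hT : ∀ k ∈ T, UpC (N k) cU ∧ k ∉ F) :
    ∑ k ∈ T, ∑ β ∈ Finset.range (2 ^ j), (avg n fun σ : Fin (2 ^ j') → Fin n =>
      N k (S.Y s (ext σ) j j' β k)) ≤ C * D + n * η := by
  classical
  have hn : 1 ≤ n := Nat.one_le_iff_ne_zero.2 (NeZero.ne n)
  have hn0 : (n : ℝ≥0∞) ≠ 0 := by exact_mod_cast NeZero.ne n
  have h1 : ∀ k ∈ T, ∀ β, (avg n fun σ : Fin (2 ^ j') → Fin n =>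
      N k (S.Y s (ext σ) j j' β k)) ≤
      ∑ l ∈ cells j j' β, ∑ r, (n : ℝ≥0∞)⁻¹ * ∑ i, N k (S.M (s r) i j' l k) := by
    intro k hk β
    calc _ ≤ avg n fun σ : Fin (2 ^ j') → Fin n => ∑ l ∈ cells j j' β, ∑ r,
          N k (S.M (s r) (ext σ l) j' l k) := by
          refine avg_mono n fun σ => ?_
          refine ((hT k hk).1.sub (cells j j' β)
            (fun l => fun t => ∑ r, S.M (s r) (ext σ l) j' l k t)
            fun l => (Finset.measurable_fun_sum _ fun r _ => S.meas _ _ _ _ _)).trans ?_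
          refine Finset.sum_le_sum fun l _ => ?_
          exact (hT k hk).1.sub Finset.univ (fun r => S.M (s r) (ext σ l) j' l k)
            fun r => (S.meas _ _ _ _ _)
      _ = ∑ l ∈ cells j j' β, ∑ r, avg n fun σ : Fin (2 ^ j') → Fin n =>
          N k (S.M (s r) (ext σ l) j' l k) := by
          rw [← avg_sum]
          exact Finset.sum_congr rfl fun l _ => (avg_sum n _ _).symm
      _ = _ := by
          refine Finset.sum_congr rfl fun l hl => Finset.sum_congr rfl fun r _ => ?_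
          have hl2 : l < 2 ^ j' := (mem_cells.1 hl).1
          have e1 : (fun σ : Fin (2 ^ j') → Fin n =>
              N k (S.M (s r) (ext σ l) j' l k)) =
              fun σ => (fun i => N k (S.M (s r) i j' l k)) (σ ⟨l, hl2⟩) := by
            funext σ
            have := ext_val σ ⟨l, hl2⟩
            simp only at this
            rw [this]
          rw [e1]
          exact avg_coord n hn (⟨l, hl2⟩ : Fin (2 ^ j'))
            (fun i => N k (S.M (s r) i j' l k))
  have h2 : ∑ k ∈ T, ∑ β ∈ Finset.range (2 ^ j), (avg n fun σ : Fin (2 ^ j') → Fin n =>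
      N k (S.Y s (ext σ) j j' β k)) ≤
      (n : ℝ≥0∞)⁻¹ * ∑ r, ∑ i, ∑ k ∈ T, S.e (s r) i j' k := by
    calc _ ≤ ∑ k ∈ T, ∑ β ∈ Finset.range (2 ^ j), ∑ l ∈ cells j j' β, ∑ r, (n : ℝ≥0∞)⁻¹ *
          ∑ i, N k (S.M (s r) i j' l k) :=
          Finset.sum_le_sum fun k hk => Finset.sum_le_sum fun β _ => h1 k hk β
      _ = ∑ k ∈ T, (n : ℝ≥0∞)⁻¹ * ∑ r, ∑ i, S.e (s r) i j' k := by
          refine Finset.sum_congr rfl fun k _ => ?_
          rw [sum_cells hj, Finset.sum_comm, Finset.mul_sum]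
          refine Finset.sum_congr rfl fun r _ => ?_
          rw [← Finset.mul_sum, Finset.sum_comm]
          rfl
      _ = _ := by
          rw [← Finset.mul_sum, Finset.sum_comm]
          congr 1
          refine Finset.sum_congr rfl fun r _ => Finset.sum_comm
  refine h2.trans ?_
  have h3 : ∑ r, ∑ i, ∑ k ∈ T, S.e (s r) i j' k ≤ n * (C * D) + n * (n * η) := by
    calc ∑ r, ∑ i, ∑ k ∈ T, S.e (s r) i j' k
        ≤ ∑ r, ∑ i, (∑ k ∈ T with k ∈ L r, S.e (s r) i j' k + η) := by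
          refine Finset.sum_le_sum fun r _ => Finset.sum_le_sum fun i _ => ?_
          rw [← Finset.sum_filter_add_sum_filter_not T (fun k => k ∈ L r)]
          refine add_le_add le_rfl (hL r i j' hj' _ fun k hk => ?_)
          rw [Finset.mem_filter] at hk
          exact ⟨(hT k hk.1).2, hk.2⟩
      _ = ∑ a : Fin n, ∑ r, ∑ k ∈ T with k ∈ L r, S.e (s r) (r + a) j' k + n * (n * η) := by
          simp_rw [Finset.sum_add_distrib]
          congr 1
          · rw [Finset.sum_comm (s := (Finset.univ : Finset (Fin n)))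
              (t := (Finset.univ : Finset (Fin n)))
              (f := fun a r => ∑ k ∈ T with k ∈ L r, S.e (s r) (r + a) j' k)]
            refine Finset.sum_congr rfl fun r _ => ?_
            exact (Equiv.sum_comp (Equiv.addLeft r)
              fun i => ∑ k ∈ T with k ∈ L r, S.e (s r) i j' k).symm
          · simp
      _ ≤ ∑ _a : Fin n, C * D + n * (n * η) := by
          gcongr with a _
          calc ∑ r, ∑ k ∈ T with k ∈ L r, S.e (s r) (r + a) j' k
              ≤ ∑ r, ∑ k ∈ T with k ∈ L r, ∑ β ∈ Finset.range (2 ^ j'),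
                N k (S.G s a j' β k) := by
                refine Finset.sum_le_sum fun r _ => Finset.sum_le_sum fun k _ => ?_
                unfold e
                refine Finset.sum_le_sum fun β _ => ?_
                refine (hB k).mono _ _ (S.meas _ _ _ _ _) (S.meas_G _ _ _ _ _) fun t => ?_
                exact Finset.single_le_sum (f := fun r => S.M (s r) (r + a) j' β k t)
                  (fun _ _ => zero_le) (Finset.mem_univ r)
            _ = ∑ k ∈ (Finset.univ : Finset (Fin n)).biUnion (fun r => T.filter fun k => k ∈ L r),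
                ∑ β ∈ Finset.range (2 ^ j'), N k (S.G s a j' β k) := by
                rw [Finset.sum_biUnion]
                intro r _ r' _ hr
                refine Finset.disjoint_left.2 fun k hk hk' => ?_
                exact (Finset.disjoint_left.1 (hLL r r' hr)) (Finset.mem_filter.1 hk).2
                  (Finset.mem_filter.1 hk').2
            _ ≤ C * D := S.G_total s a j' (fun r => hj'.trans (hs r)) _
      _ = _ := by simp
  calc (n : ℝ≥0∞)⁻¹ * ∑ r, ∑ i, ∑ k ∈ T, S.e (s r) i j' k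
      ≤ (n : ℝ≥0∞)⁻¹ * (n * (C * D) + n * (n * η)) := by gcongr
    _ = ((n : ℝ≥0∞)⁻¹ * n) * (C * D + n * η) := by ring
    _ = _ := by rw [ENNReal.inv_mul_cancel hn0 (by simp), one_mul]

include S in
/-- **Cotype 2 direction.** -/
theorem cotyp (hB : ∀ k, Basic (N k)) (up : ι → Prop) [DecidablePred up] {cU : ℝ≥0∞}
    (hU : ∀ k, up k → UpC (N k) cU) (hDn : ∀ k, ¬ up k → DownC (N k))
    (hC1 : 1 ≤ C) (hC : C ≠ ∞) (hD : D ≠ ∞) :
    n ≤ 2 * C * (2 * C + cU * C + 2) * D := by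
  classical
  have hn : 1 ≤ n := Nat.one_le_iff_ne_zero.2 (NeZero.ne n)
  have hn0 : (n : ℝ≥0∞) ≠ 0 := by exact_mod_cast NeZero.ne n
  have hC0 : C ≠ 0 := (lt_of_lt_of_le one_pos hC1).ne'
  set η : ℝ≥0∞ := (2 * C)⁻¹ with hη
  have hη0 : η ≠ 0 := by
    rw [hη, Ne, ENNReal.inv_eq_zero]
    finiteness
  obtain ⟨F, hF⟩ := S.levels up hU hDn hC η hη0
  set Fp := F.filter (fun k => up k) with hFp
  -- constants
  have hsel : ∀ k : ι, ∃ K : ℝ≥0∞, K ≠ ∞ ∧ (up k → ∀ (s : Fin n → ℕ) (j j' β : ℕ),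
      j ≤ j' → (∀ r, j' ≤ s r) → β < 2 ^ j →
      (avg n fun σ : Fin (2 ^ j') → Fin n =>
          N k (S.Y s (ext σ) j j' β k)) ≤
        cU * ((n : ℝ≥0∞)⁻¹ * N k (S.W s j β k)) +
        K * (∑ l ∈ cells j j' β, N k (S.W s j' l k) -
          N k (S.W s j β k)) +
        K * (C * ((2⁻¹ : ℝ≥0∞) ^ j' * (n * D)))) := by
    intro k
    by_cases hk : up k
    · obtain ⟨K, hK1, hK2⟩ := (hU k hk).sel n hn
      refine ⟨K, hK1, fun _ s j j' β hj hs hβ => ?_⟩
      have h := hK2 (S.U s j j' β k) (fun i l => S.meas_U s j j' β k i l)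
        (C * ((2⁻¹ : ℝ≥0∞) ^ j' * (n * D))) (by finiteness)
      simp_rw [S.sum_U s j j' β k hj hs] at h
      have h2 := h (by
        refine ne_top_of_le_ne_top ?_ (S.W_cell_le s j β hβ (fun r => hj.trans (hs r)) k)
        finiteness) (S.rho_U_le hB s j j' β k hs)
      rw [S.rho_sum_U hB s j j' β k] at h2
      simp_rw [S.sel_U s j j' β k] at h2
      exact h2
    · exact ⟨0, by simp, fun h => absurd h hk⟩
  choose Kk hKk1 hKk2 using hsel
  set KF : ℝ≥0∞ := ∑ k ∈ Fp, Kk k with hKF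
  have hKFt : KF ≠ ∞ := by
    rw [hKF, ENNReal.sum_ne_top]
    exact fun k _ => hKk1 k
  obtain ⟨J, hJ⟩ := ENNReal.exists_nat_gt (show KF * C * n ≠ ∞ by finiteness)
  obtain ⟨a, ha⟩ := ENNReal.exists_nat_gt
    (show KF * n * C * (Fp.card : ℝ≥0∞) ≠ ∞ by finiteness)
  have hJ1 : 1 ≤ J := by
    rcases Nat.eq_zero_or_pos J with h | h
    · rw [h] at hJ; simp at hJ
    · exact h
  have ha2 : KF * n * C * (Fp.card : ℝ≥0∞) ≤ (2 : ℝ≥0∞) ^ a := by
    refine ha.le.trans ?_
    have : a ≤ 2 ^ a := Nat.lt_two_pow_self.le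
    exact_mod_cast this
  obtain ⟨s, L, hs, -, hLL, hL⟩ := hF (J * a)
  set E : ℕ → ℝ≥0∞ := fun m => S.EE s Fp (m * a) with hE
  have hle : ∀ m, m ≤ J → m * a ≤ J * a := fun m hm => Nat.mul_le_mul_right a hm
  have hsplit : ∀ m, m < J → ∀ k ∈ Fp, ∀ β, N k (S.W s (m * a) β k) ≤
      ∑ l ∈ cells (m * a) ((m + 1) * a) β, N k (S.W s ((m + 1) * a) l k) := by
    intro m hm k hk β
    have h := (hU k (Finset.mem_filter.1 hk).2).sub
      (cells (m * a) ((m + 1) * a) β) (fun l => S.W s ((m + 1) * a) l k)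
      fun l => S.meas_W s _ l k
    refine le_trans (le_of_eq ?_) h
    congr 1
    funext t
    exact S.split_W s _ _ β k t (Nat.mul_le_mul_right a (by omega))
      fun r => (hle (m + 1) (by omega)).trans (hs r)
  have hEinc : ∀ m, m < J → E m ≤ E (m + 1) := by
    intro m hm
    rw [hE]
    unfold EE
    refine Finset.sum_le_sum fun k hk => ?_
    rw [← sum_cells (Nat.mul_le_mul_right a (by omega : m ≤ m + 1))]
    exact Finset.sum_le_sum fun β _ => hsplit m hm k hk β
  have hEJ : E J ≤ C * (n * D) := S.EE_le s Fp _ hs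
  have htele := tele_up E J hEinc
  obtain ⟨m, hm, hmd⟩ := pigeon (fun m => E (m + 1) - E m) J hJ1 (C * (n * D))
    (le_trans le_self_add (htele.trans hEJ))
  have hj : m * a ≤ (m + 1) * a := Nat.mul_le_mul_right a (by omega)
  have hsj : ∀ r, (m + 1) * a ≤ s r := fun r => (hle (m + 1) (by omega)).trans (hs r)
  have hEmt : E m ≤ C * (n * D) := S.EE_le s Fp _ fun r => hj.trans (hsj r)
  -- the part in `Fp`
  have hpart : ∑ k ∈ Fp, ∑ β ∈ Finset.range (2 ^ (m * a)),
      (avg n fun σ : Fin (2 ^ ((m + 1) * a)) → Fin n =>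
        N k (S.Y s (ext σ) (m * a) ((m + 1) * a) β k)) ≤
      (cU * C + 2) * D := by
    have h1 : ∑ k ∈ Fp, ∑ β ∈ Finset.range (2 ^ (m * a)),
        (avg n fun σ : Fin (2 ^ ((m + 1) * a)) → Fin n =>
          N k (S.Y s (ext σ) (m * a) ((m + 1) * a) β k)) ≤
        ∑ k ∈ Fp, ∑ β ∈ Finset.range (2 ^ (m * a)),
        (cU * ((n : ℝ≥0∞)⁻¹ * N k (S.W s (m * a) β k)) +
        KF * (∑ l ∈ cells (m * a) ((m + 1) * a) β, N k (S.W s ((m + 1) * a) l k) -
          N k (S.W s (m * a) β k)) +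
        KF * (C * ((2⁻¹ : ℝ≥0∞) ^ ((m + 1) * a) * (n * D)))) := by
      refine Finset.sum_le_sum fun k hk => Finset.sum_le_sum fun β hβ => ?_
      have hKle : Kk k ≤ KF := Finset.single_le_sum (f := Kk) (fun _ _ => zero_le) hk
      refine (hKk2 k (Finset.mem_filter.1 hk).2 s (m * a) ((m + 1) * a) β hj hsj
        (Finset.mem_range.1 hβ)).trans ?_
      gcongr
    refine h1.trans ?_
    simp_rw [Finset.sum_add_distrib, ← Finset.mul_sum]
    have t1 : cU * ((n : ℝ≥0∞)⁻¹ * ∑ k ∈ Fp, ∑ β ∈ Finset.range (2 ^ (m * a)),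
        N k (S.W s (m * a) β k)) ≤ cU * C * D := by
      calc cU * ((n : ℝ≥0∞)⁻¹ * ∑ k ∈ Fp, ∑ β ∈ Finset.range (2 ^ (m * a)),
            N k (S.W s (m * a) β k)) ≤ cU * ((n : ℝ≥0∞)⁻¹ * (C * (n * D))) := by
            gcongr
            exact hEmt
        _ = ((n : ℝ≥0∞)⁻¹ * n) * (cU * C * D) := by ring
        _ = _ := by rw [ENNReal.inv_mul_cancel hn0 (by simp), one_mul]
    have hJ0 : (J : ℝ≥0∞) ≠ 0 := by
      have : J ≠ 0 := by omega
      exact_mod_cast this
    have t2 : KF * ∑ k ∈ Fp, ∑ β ∈ Finset.range (2 ^ (m * a)),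
        (∑ l ∈ cells (m * a) ((m + 1) * a) β, N k (S.W s ((m + 1) * a) l k) -
          N k (S.W s (m * a) β k)) ≤ D := by
      calc _ ≤ KF * (E (m + 1) - E m) := by
            gcongr
            refine ENNReal.le_sub_of_add_le_right ?_ ?_
            · refine ne_top_of_le_ne_top ?_ hEmt
              finiteness
            · rw [hE]
              unfold EE
              rw [← Finset.sum_add_distrib]
              refine Finset.sum_le_sum fun k hk => ?_
              rw [← sum_cells hj, ← Finset.sum_add_distrib]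
              refine Finset.sum_le_sum fun β _ => ?_
              rw [tsub_add_cancel_of_le (hsplit m hm k hk β)]
        _ ≤ KF * (C * (n * D) / J) := by gcongr
        _ = (KF * C * n) / J * D := by
            rw [ENNReal.div_eq_inv_mul, ENNReal.div_eq_inv_mul]
            ring
        _ ≤ 1 * D := by
            gcongr
            exact ENNReal.div_le_of_le_mul (by rw [one_mul]; exact hJ.le)
        _ = D := one_mul _
    have t3 : KF * (Fp.card * (C * ((2⁻¹ : ℝ≥0∞) ^ a * (n * D)))) ≤ D := by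
      calc _ = (KF * n * C * (Fp.card : ℝ≥0∞)) * (2⁻¹ : ℝ≥0∞) ^ a * D := by ring
        _ ≤ (2 : ℝ≥0∞) ^ a * (2⁻¹ : ℝ≥0∞) ^ a * D := by gcongr
        _ = D := by
            rw [← mul_pow, ENNReal.mul_inv_cancel (by simp) (by simp), one_pow, one_mul]
    have e1 : (2⁻¹ : ℝ≥0∞) ^ ((m + 1) * a) = (2⁻¹ : ℝ≥0∞) ^ (m * a) * (2⁻¹ : ℝ≥0∞) ^ a := by
      rw [← pow_add]
      congr 1
      ring
    calc _ ≤ cU * C * D + D + D := by
          refine add_le_add (add_le_add t1 t2) (le_trans (le_of_eq ?_) t3)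
          rw [Finset.sum_const, Finset.sum_const, Finset.card_range, nsmul_eq_mul, nsmul_eq_mul, e1]
          calc _ = KF * ((Fp.card : ℝ≥0∞) * (C * ((((2 ^ (m * a) : ℕ) : ℝ≥0∞) *
                (2⁻¹ : ℝ≥0∞) ^ (m * a)) * (2⁻¹ : ℝ≥0∞) ^ a * (n * D)))) := by ring
            _ = _ := by rw [half_pow, one_mul]
      _ = (cU * C + 2) * D := by ring
  -- all coordinates
  have hall : ∀ T : Finset ι, ∑ k ∈ T, ∑ β ∈ Finset.range (2 ^ (m * a)),
      (avg n fun σ : Fin (2 ^ ((m + 1) * a)) → Fin n =>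
        N k (S.Y s (ext σ) (m * a) ((m + 1) * a) β k)) ≤
      (2 * C + cU * C + 2) * D + n * η := by
    intro T
    rw [← Finset.sum_filter_add_sum_filter_not T (fun k => up k),
      ← Finset.sum_filter_add_sum_filter_not (T.filter fun k => up k) (fun k => k ∈ F)]
    have p1 := S.sel_low_part s (m * a) ((m + 1) * a) hj hsj (T.filter fun k => ¬ up k)
      fun k hk => hDn k (Finset.mem_filter.1 hk).2
    have p2 := S.esc_part hB (cU := cU) η F (J * a) s L hs hLL hL (m * a) ((m + 1) * a) hj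
      (hle (m + 1) (by omega)) ((T.filter fun k => up k).filter fun k => ¬ k ∈ F) (by
        intro k hk
        rw [Finset.mem_filter, Finset.mem_filter] at hk
        exact ⟨hU k hk.1.2, hk.2⟩)
    have p3 : ∑ k ∈ (T.filter fun k => up k) with k ∈ F, ∑ β ∈ Finset.range (2 ^ (m * a)),
        (avg n fun σ : Fin (2 ^ ((m + 1) * a)) → Fin n =>
          N k (S.Y s (ext σ) (m * a) ((m + 1) * a) β k)) ≤
        (cU * C + 2) * D := by
      refine le_trans (Finset.sum_le_sum_of_subset ?_) hpart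
      intro k hk
      rw [Finset.mem_filter, Finset.mem_filter] at hk
      exact Finset.mem_filter.2 ⟨hk.2, hk.1.2⟩
    calc _ ≤ ((cU * C + 2) * D + (C * D + n * η)) + C * D :=
          add_le_add (add_le_add p3 p2) p1
      _ = _ := by ring
  -- conclusion
  have hmain : (n : ℝ≥0∞) ≤ C * ((2 * C + cU * C + 2) * D + n * η) := by
    have h1 : ∀ σ : Fin (2 ^ ((m + 1) * a)) → Fin n, (n : ℝ≥0∞) ≤
        C * ∑' k, ∑ β ∈ Finset.range (2 ^ (m * a)),
          N k (S.Y s (ext σ) (m * a) ((m + 1) * a) β k) := by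
      intro σ
      calc (n : ℝ≥0∞) = ∑ _β ∈ Finset.range (2 ^ (m * a)), (2⁻¹ : ℝ≥0∞) ^ (m * a) * n :=
            (sum_half (m * a) _).symm
        _ ≤ ∑ β ∈ Finset.range (2 ^ (m * a)), C * ∑' k,
              N k (S.Y s (ext σ) (m * a) ((m + 1) * a) β k) :=
            Finset.sum_le_sum fun β hβ =>
              S.sel_ge s (ext σ) (m * a) ((m + 1) * a) β (Finset.mem_range.1 hβ) hj hsj
        _ = _ := by rw [← Finset.mul_sum, tsum_cells]
    calc (n : ℝ≥0∞) = avg n fun _ : Fin (2 ^ ((m + 1) * a)) → Fin n => (n : ℝ≥0∞) :=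
          (avg_const n hn _).symm
      _ ≤ avg n fun σ : Fin (2 ^ ((m + 1) * a)) → Fin n =>
          C * ∑' k, ∑ β ∈ Finset.range (2 ^ (m * a)),
            N k (S.Y s (ext σ) (m * a) ((m + 1) * a) β k) := avg_mono n h1
      _ = C * ∑' k, ∑ β ∈ Finset.range (2 ^ (m * a)),
          avg n fun σ : Fin (2 ^ ((m + 1) * a)) → Fin n =>
            N k (S.Y s (ext σ) (m * a) ((m + 1) * a) β k) := by
          rw [avg_mul, ← avg_tsum]
          congr 1
          exact tsum_congr fun k => (avg_sum n _ _).symm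
      _ ≤ _ := by
          gcongr
          rw [ENNReal.tsum_eq_iSup_sum]
          exact iSup_le hall
  have hCη : C * (n * η) = n / 2 := by
    rw [hη, ENNReal.mul_inv (Or.inl (by simp)) (Or.inl (by simp)), ENNReal.div_eq_inv_mul]
    calc C * (n * (2⁻¹ * C⁻¹)) = (C * C⁻¹) * (2⁻¹ * n) := by ring
      _ = _ := by rw [ENNReal.mul_inv_cancel hC0 hC, one_mul]
  rw [mul_add, hCη] at hmain
  have h5 : (n : ℝ≥0∞) / 2 ≤ C * ((2 * C + cU * C + 2) * D) := by
    have h6 : (n : ℝ≥0∞) / 2 + n / 2 ≤ C * ((2 * C + cU * C + 2) * D) + n / 2 := by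
      rw [ENNReal.add_halves]
      exact hmain
    exact (ENNReal.add_le_add_iff_right (ENNReal.div_ne_top (by simp) (by simp))).1 h6
  calc (n : ℝ≥0∞) = 2 * (n / 2) := by rw [ENNReal.mul_div_cancel (by simp) (by simp)]
    _ ≤ 2 * (C * ((2 * C + cU * C + 2) * D)) := by gcongr
    _ = _ := by ring

end Sys

end LTC
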