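import Mathlib

/-!
# Banach function norms: definitions

`MP_19fa38_an`, Banach lattices on one side of `2`.
-/

set_option autoImplicit false

open MeasureTheory
open scoped ENNReal NNReal

namespace LTC

universe u v w

/-- A function norm on a measure space `(Ω, μ)`: the norm, with values in `[0,∞]`, of a Banach
function space (Köthe function space), as a functional of nonnegative measurable functions. It is
monotone (almost everywhere), positively homogeneous and satisfies the triangle inequality. -/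
structure FnNorm (Ω : Type w) [MeasurableSpace Ω] (μ : Measure Ω) where
  /-- the norm of a nonnegative function -/
  nrm : (Ω → ℝ≥0∞) → ℝ≥0∞
  mono : ∀ u v : Ω → ℝ≥0∞, Measurable u → Measurable v → (∀ᵐ t ∂μ, u t ≤ v t) → nrm u ≤ nrm v
  smul : ∀ (c : ℝ≥0) (u : Ω → ℝ≥0∞), Measurable u → nrm (fun t => c * u t) = c * nrm u
  add : ∀ u v : Ω → ℝ≥0∞, Measurable u → Measurable v →
    nrm (fun t => u t + v t) ≤ nrm u + nrm v

section
variable {Ω : Type w} [MeasurableSpace Ω] {μ : Measure Ω}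

/-- `s`-convexity with constant `M`: `‖(∑ |u_i|^s)^{1/s}‖ ≤ M (∑ ‖u_i‖^s)^{1/s}` for all finite
families. -/
def FnNorm.Convex (ρ : FnNorm Ω μ) (s : ℝ) (M : ℝ≥0) : Prop :=
  ∀ (n : ℕ) (u : Fin n → Ω → ℝ≥0∞), (∀ i, Measurable (u i)) →
    ρ.nrm (fun t => (∑ i, u i t ^ s) ^ (1 / s)) ≤ M * (∑ i, ρ.nrm (u i) ^ s) ^ (1 / s)

/-- `s`-concavity with constant `M`: `(∑ ‖u_i‖^s)^{1/s} ≤ M ‖(∑ |u_i|^s)^{1/s}‖` for all finite
families. -/
def FnNorm.Concave (ρ : FnNorm Ω μ) (s : ℝ) (M : ℝ≥0) : Prop :=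
  ∀ (n : ℕ) (u : Fin n → Ω → ℝ≥0∞), (∀ i, Measurable (u i)) →
    (∑ i, ρ.nrm (u i) ^ s) ^ (1 / s) ≤ M * ρ.nrm (fun t => (∑ i, u i t ^ s) ^ (1 / s))

/-- The function space lies on one side of `2`: it is `s`-convex for some `s > 2` and `r`-concave
for some `r ≤ R`, or `s`-concave for some `s < 2`, or both `2`-convex and `2`-concave; all
constants are at most `M`. -/
def FnNorm.OneSide (ρ : FnNorm Ω μ) (R : ℝ) (M : ℝ≥0) : Prop :=
  (∃ s r : ℝ, 2 < s ∧ s ≤ r ∧ r ≤ R ∧ ρ.Convex s M ∧ ρ.Concave r M) ∨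
  (∃ s : ℝ, 1 ≤ s ∧ s < 2 ∧ ρ.Concave s M) ∨
  (ρ.Convex 2 M ∧ ρ.Concave 2 M)

end

/-- `E` is isomorphic to a subspace of the `ℓ²`-sum, over `𝕜`, of a family of Banach function
spaces (with function norms `ρ i`), all of which lie on one side of `2` (`FnNorm.OneSide`), with
uniformly bounded constants: there are linear maps `T i` into measurable functions modulo null
sets such that `∑_i ρ_i(|T_i x|)²` is equivalent to `‖x‖²`.  The family is arbitrary; one summand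
is allowed. -/
def InOneSideSum (𝕜 : Type v) [RCLike 𝕜] (E : Type u) [NormedAddCommGroup E]
    [NormedSpace 𝕜 E] : Prop :=
  ∃ (ι : Type) (Ω : ι → Type w) (_ : ∀ i, MeasurableSpace (Ω i)) (μ : ∀ i, Measure (Ω i))
    (ρ : ∀ i, FnNorm (Ω i) (μ i)) (R : ℝ) (M : ℝ≥0)
    (T : ∀ i, E →ₗ[𝕜] (Ω i →ₘ[μ i] 𝕜)) (c : ℝ≥0),
    (∀ i, (ρ i).OneSide R M) ∧
      ∀ x : E, ∑' i, (ρ i).nrm (fun t => ‖(T i x : Ω i → 𝕜) t‖ₑ) ^ 2 ≤ c * ‖x‖ₑ ^ 2 ∧
        ‖x‖ₑ ^ 2 ≤ c * ∑' i, (ρ i).nrm (fun t => ‖(T i x : Ω i → 𝕜) t‖ₑ) ^ 2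


end LTC
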