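import Pool.Agent.LTC.Unit

/-!
# Embeddings into `ℓ²`-sums of Banach function spaces
-/

set_option autoImplicit false

open MeasureTheory
open scoped ENNReal unitInterval

namespace LTC

open DLP (Embeds em em_lower)

universe u v w

section
variable {𝕜 : Type v} [RCLike 𝕜] {ι : Type} {Ω : ι → Type w} [∀ i, MeasurableSpace (Ω i)]
  {μ : ∀ i, Measure (Ω i)} {N : ∀ k, (Ω k → ℝ≥0∞) → ℝ≥0∞}

theorem enorm_le_mul {E F : Type*} [NormedAddCommGroup E] [NormedAddCommGroup F] (x : E) (y : F)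
    (a : ℝ) (ha : 0 ≤ a) (h : ‖y‖ ≤ a * ‖x‖) : ‖y‖ₑ ≤ ENNReal.ofReal a * ‖x‖ₑ := by
  rw [← ofReal_norm, ← ofReal_norm, ← ENNReal.ofReal_mul ha]
  exact ENNReal.ofReal_le_ofReal h

theorem LatEmb.comp {E F : Type u} [NormedAddCommGroup E] [NormedSpace 𝕜 E]
    [NormedAddCommGroup F] [NormedSpace 𝕜 F] {T : ∀ k, E →ₗ[𝕜] (Ω k →ₘ[μ k] 𝕜)} {c : ℝ≥0∞}
    (hc1 : 1 ≤ c) (hct : c ≠ ∞) (hT : LatEmb N T c) (S : F →L[𝕜] E) (a : ℝ) (ha : 0 < a)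
    (hS : ∀ f, a * ‖f‖ ≤ ‖S f‖) :
    ∃ (T' : ∀ k, F →ₗ[𝕜] (Ω k →ₘ[μ k] 𝕜)) (c' : ℝ≥0∞), 1 ≤ c' ∧ c' ≠ ∞ ∧ LatEmb N T' c' := by
  set m : ℝ := max 1 (max ‖S‖ a⁻¹) with hm
  have hm1 : 1 ≤ m := le_max_left _ _
  have hmS : ‖S‖ ≤ m := (le_max_left _ _).trans (le_max_right _ _)
  have hma : a⁻¹ ≤ m := (le_max_right _ _).trans (le_max_right _ _)
  have hm0 : 0 ≤ m := by linarith
  have h1m : 1 ≤ ENNReal.ofReal m := ENNReal.one_le_ofReal.2 hm1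
  refine ⟨fun k => (T k) ∘ₗ (S : F →ₗ[𝕜] E), c * ENNReal.ofReal m ^ 2, ?_, by finiteness, ?_, ?_⟩
  · calc (1 : ℝ≥0∞) = 1 * 1 := (one_mul 1).symm
      _ ≤ _ := mul_le_mul' hc1 (one_le_pow₀ h1m)
  · intro f
    have h1 : ‖S f‖ₑ ≤ ENNReal.ofReal m * ‖f‖ₑ := by
      refine enorm_le_mul f (S f) m hm0 ((S.le_opNorm f).trans ?_)
      gcongr
    calc ∑' k, N k (fun t => ‖(T k (S f) : Ω k → 𝕜) t‖ₑ ^ 2) ≤ c * ‖S f‖ₑ ^ 2 := hT.le (S f)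
      _ ≤ c * (ENNReal.ofReal m * ‖f‖ₑ) ^ 2 := by gcongr
      _ = c * ENNReal.ofReal m ^ 2 * ‖f‖ₑ ^ 2 := by rw [mul_pow, mul_assoc]
  · intro f
    have h1 : ‖f‖ₑ ≤ ENNReal.ofReal m * ‖S f‖ₑ := by
      refine enorm_le_mul (S f) f m hm0 ?_
      calc ‖f‖ = a⁻¹ * (a * ‖f‖) := by field_simp
        _ ≤ m * ‖S f‖ := by
          gcongr
          exact hS f
    calc ‖f‖ₑ ^ 2 ≤ (ENNReal.ofReal m * ‖S f‖ₑ) ^ 2 := by gcongr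
      _ = ENNReal.ofReal m ^ 2 * ‖S f‖ₑ ^ 2 := mul_pow _ _ _
      _ ≤ ENNReal.ofReal m ^ 2 *
          (c * ∑' k, N k (fun t => ‖(T k (S f) : Ω k → 𝕜) t‖ₑ ^ 2)) := by
          gcongr
          exact hT.ge (S f)
      _ = c * ENNReal.ofReal m ^ 2 * ∑' k, N k (fun t => ‖(T k (S f) : Ω k → 𝕜) t‖ₑ ^ 2) := by
          ring

theorem ell2_enorm {E : Type*} [NormedAddCommGroup E] (f : DiestelL2.ell2V E) :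
    ‖f‖ₑ ^ 2 = ∑' n, ‖f n‖ₑ ^ 2 := by
  have h1 : ‖f‖ ^ 2 = ∑' n, ‖f n‖ ^ 2 := DiestelL2.Dbl.norm_sq f
  have h2 : Summable fun n => ‖f n‖ ^ 2 := DiestelL2.Dbl.memℓp_two_iff.1 f.2
  rw [DLP.SQL_.enorm_sq_eq, h1, ENNReal.ofReal_tsum_of_nonneg (fun n => by positivity) h2]
  exact tsum_congr fun n => (DLP.SQL_.enorm_sq_eq _).symm

/-- evaluation of a sequence -/
noncomputable def evl (𝕜 : Type v) [RCLike 𝕜] {E : Type u} [NormedAddCommGroup E]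
    [NormedSpace 𝕜 E] (n : ℕ) : DiestelL2.ell2V E →ₗ[𝕜] E where
  toFun f := f n
  map_add' _ _ := rfl
  map_smul' _ _ := rfl

theorem LatEmb.ell2 {E : Type u} [NormedAddCommGroup E] [NormedSpace 𝕜 E]
    {T : ∀ k, E →ₗ[𝕜] (Ω k →ₘ[μ k] 𝕜)} {c : ℝ≥0∞} (hT : LatEmb N T c) :
    LatEmb (ι := ℕ × ι) (Ω := fun k => Ω k.2) (μ := fun k => μ k.2) (fun k => N k.2)
      (fun k => (T k.2) ∘ₗ (evl 𝕜 k.1 : DiestelL2.ell2V E →ₗ[𝕜] E)) c := by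
  have e : ∀ f : DiestelL2.ell2V E, ∑' k : ℕ × ι, N k.2 (fun t =>
      ‖(((T k.2) ∘ₗ (evl 𝕜 k.1 : DiestelL2.ell2V E →ₗ[𝕜] E)) f : Ω k.2 → 𝕜) t‖ₑ ^ 2) =
      ∑' n, ∑' k, N k (fun t => ‖(T k (f n) : Ω k → 𝕜) t‖ₑ ^ 2) := fun f =>
    ENNReal.tsum_prod (f := fun n k => N k (fun t => ‖(T k (f n) : Ω k → 𝕜) t‖ₑ ^ 2))
  refine ⟨fun f => ?_, fun f => ?_⟩
  · rw [e f, ell2_enorm, ← ENNReal.tsum_mul_left]
    exact ENNReal.tsum_le_tsum fun n => hT.le (f n)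
  · rw [e f, ell2_enorm, ← ENNReal.tsum_mul_left]
    exact ENNReal.tsum_le_tsum fun n => hT.ge (f n)

/-- admissible families of functionals -/
structure Adm (𝕜 : Type v) [RCLike 𝕜] (μ : ∀ i, Measure (Ω i))
    (N : ∀ k, (Ω k → ℝ≥0∞) → ℝ≥0∞) (up : ι → Prop) (cU K₀ : ℝ≥0∞) : Prop where
  cU_ne_top : cU ≠ ∞
  one_le : 1 ≤ K₀
  ne_top : K₀ ≠ ∞
  quad : ∀ k, Quad (μ k) (N k)
  upc : ∀ k, up k → UpC (N k) cU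
  downc : ∀ k, ¬ up k → DownC (N k)
  kh : ∀ k, Kh 𝕜 (N k) K₀

theorem hilb_of_lat (X : Type u) [NormedAddCommGroup X] [NormedSpace 𝕜 X] [CompleteSpace X]
    {up : ι → Prop} {cU K₀ : ℝ≥0∞} (hA : Adm 𝕜 μ N up cU K₀)
    (T : ∀ k, DiestelL2.L2V X →ₗ[𝕜] (Ω k →ₘ[μ k] 𝕜)) (c : ℝ≥0∞) (hc1 : 1 ≤ c) (hct : c ≠ ∞)
    (hT : LatEmb N T c) : DiestelL2.IsHilbertian 𝕜 X := by
  classical
  obtain ⟨K, hK0, hK1, hK2⟩ := type_cotype up hA.cU_ne_top hA.quad hA.upc hA.downc K₀ hA.one_le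
    hA.ne_top hA.kh T c hc1 hct hT
  exact DLP.rgk.{u, v} 𝕜 X K hK0 hK1 hK2

theorem hilb_of_ell2 (X : Type u) [NormedAddCommGroup X] [NormedSpace 𝕜 X] [CompleteSpace X]
    (Z : Type u) [NormedAddCommGroup Z] [NormedSpace 𝕜 Z]
    {up : ι → Prop} {cU K₀ : ℝ≥0∞} (hA : Adm 𝕜 μ N up cU K₀)
    (T : ∀ k, Z →ₗ[𝕜] (Ω k →ₘ[μ k] 𝕜)) (c : ℝ≥0∞) (hc1 : 1 ≤ c) (hct : c ≠ ∞)
    (hT : LatEmb N T c) (h : Embeds 𝕜 (DiestelL2.L2V X) (DiestelL2.ell2V Z)) :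
    DiestelL2.IsHilbertian 𝕜 X := by
  obtain ⟨S, a, ha, hS⟩ := h
  obtain ⟨T', c', h1, h2, h3⟩ := hT.ell2.comp hc1 hct S a ha hS
  exact hilb_of_lat (ι := ℕ × ι) (Ω := fun k => Ω k.2) (μ := fun k => μ k.2)
    (N := fun k => N k.2) (up := fun k => up k.2) X
    ⟨hA.cU_ne_top, hA.one_le, hA.ne_top, fun k => hA.quad _, fun k => hA.upc _,
      fun k => hA.downc _, fun k => hA.kh _⟩ T' c' h1 h2 h3

theorem embeds_of_equiv {E F : Type u} [NormedAddCommGroup E] [NormedSpace 𝕜 E]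
    [NormedAddCommGroup F] [NormedSpace 𝕜 F] (e : F ≃L[𝕜] E) : Embeds 𝕜 E F := by
  refine ⟨(e.symm : E →L[𝕜] F), (‖(e : F →L[𝕜] E)‖ + 1)⁻¹, by positivity, fun x => ?_⟩
  rw [inv_mul_le_iff₀ (by positivity)]
  have h1 : ‖x‖ ≤ ‖(e : F →L[𝕜] E)‖ * ‖(e.symm : E →L[𝕜] F) x‖ := by
    have := (e : F →L[𝕜] E).le_opNorm ((e.symm : E →L[𝕜] F) x)
    simpa using this
  refine h1.trans ?_
  gcongr
  linarith

/-- **Part 1**, for `X` itself. -/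
theorem diestel_X (X : Type u) [NormedAddCommGroup X] [NormedSpace 𝕜 X] [CompleteSpace X]
    [TopologicalSpace.SeparableSpace X]
    {up : ι → Prop} {cU K₀ : ℝ≥0∞} (hA : Adm 𝕜 μ N up cU K₀)
    (T : ∀ k, X →ₗ[𝕜] (Ω k →ₘ[μ k] 𝕜)) (c : ℝ≥0∞) (hc1 : 1 ≤ c) (hct : c ≠ ∞)
    (hT : LatEmb N T c) :
    (DiestelL2.Isom 𝕜 (lp (fun _ : ℕ => X) 2) (Lp X 2 (volume : Measure I)) ↔
        DiestelL2.IsHilbertian 𝕜 X) ∧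
      (Embeds 𝕜 (Lp X 2 (volume : Measure I)) (lp (fun _ : ℕ => X) 2) ↔
        DiestelL2.IsHilbertian 𝕜 X) := by
  have fwd := hilb_of_ell2 X X hA T c hc1 hct hT
  refine ⟨⟨fun ⟨e⟩ => fwd (embeds_of_equiv e), fun hH => DiestelL2.conv 𝕜 X hH⟩,
    ⟨fwd, fun hH => ?_⟩⟩
  obtain ⟨e⟩ := DiestelL2.conv 𝕜 X hH
  exact embeds_of_equiv e

end

section dual
variable {𝕜 : Type v} [RCLike 𝕜] {ι : Type} {Ω : ι → Type w} [∀ i, MeasurableSpace (Ω i)]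
  {μ : ∀ i, Measure (Ω i)} {N : ∀ k, (Ω k → ℝ≥0∞) → ℝ≥0∞}

/-- **Part 1**, for `X*`. -/
theorem diestel_dual (X : Type u) [NormedAddCommGroup X] [NormedSpace 𝕜 X] [CompleteSpace X]
    [TopologicalSpace.SeparableSpace X]
    {up : ι → Prop} {cU K₀ : ℝ≥0∞} (hA : Adm 𝕜 μ N up cU K₀)
    (T : ∀ k, StrongDual 𝕜 X →ₗ[𝕜] (Ω k →ₘ[μ k] 𝕜)) (c : ℝ≥0∞) (hc1 : 1 ≤ c) (hct : c ≠ ∞)
    (hT : LatEmb N T c) :
    DiestelL2.Isom 𝕜 (lp (fun _ : ℕ => X) 2) (Lp X 2 (volume : Measure I)) ↔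
        DiestelL2.IsHilbertian 𝕜 X := by
  refine ⟨fun ⟨e⟩ => ?_, fun hH => DiestelL2.conv 𝕜 X hH⟩
  obtain ⟨S, a, ha, hS⟩ := DLP.dua 𝕜 X (StrongDual 𝕜 X) e
    (ContinuousLinearMap.id 𝕜 (StrongDual 𝕜 X)) 1 one_pos (fun φ => by simp)
  exact DLP.dhi 𝕜 X (hilb_of_ell2 (StrongDual 𝕜 X) (StrongDual 𝕜 X) hA T c hc1 hct hT
    ⟨S, a, ha, hS⟩)

end dual

end LTC
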