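import Pool.Agent.LTC.Kh
import Pool.Agent.LTC.CotDir
import Pool.Agent.HLP.RadL

/-!
# The energy system of an embedding into a sum of Banach function spaces
-/

set_option autoImplicit false

open MeasureTheory
open scoped ENNReal unitInterval

namespace LTC

open HLP (cells mem_cells sum_cells_cells adr adr_div adr_vol cellv rad_fam rad_nonneg rad_const
  rad_reindex)
open DLP (rsum rad sgn)

universe u v w

section
variable {𝕜 : Type v} [RCLike 𝕜] {ι : Type} {Ω : ι → Type w} [∀ i, MeasurableSpace (Ω i)]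
  {μ : ∀ i, Measure (Ω i)} {N : ∀ k, (Ω k → ℝ≥0∞) → ℝ≥0∞}

/-- square function energy of a finite family -/
noncomputable def qg (N : ∀ k, (Ω k → ℝ≥0∞) → ℝ≥0∞) {E : Type u} [NormedAddCommGroup E]
    [NormedSpace 𝕜 E] (T : ∀ k, E →ₗ[𝕜] (Ω k →ₘ[μ k] 𝕜)) {A : Type} [Fintype A]
    (x : A → E) : ℝ≥0∞ :=
  ∑' k, N k (fun t => ∑ a, ‖(T k (x a) : Ω k → 𝕜) t‖ₑ ^ 2)

/-- Rademacher averages and square functions of images are comparable. -/
def RadQ (N : ∀ k, (Ω k → ℝ≥0∞) → ℝ≥0∞) {E : Type u} [NormedAddCommGroup E] [NormedSpace 𝕜 E]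
    (T : ∀ k, E →ₗ[𝕜] (Ω k →ₘ[μ k] 𝕜)) (C₀ : ℝ≥0∞) : Prop :=
  ∀ (A : Type) [Fintype A] [DecidableEq A] (x : A → E),
    qg N T x ≤ C₀ * ENNReal.ofReal (rad x) ∧ ENNReal.ofReal (rad x) ≤ C₀ * qg N T x

theorem coe_rsum {k : ι} {A : Type} [Fintype A] (f : A → (Ω k →ₘ[μ k] 𝕜)) (ε : A → Bool) :
    ∀ᵐ t ∂(μ k), (rsum f ε : Ω k →ₘ[μ k] 𝕜) t = rsum (fun a => f a t) ε := by
  have h1 := AEEqFun.coeFn_finsetSum (μ := μ k) Finset.univ (fun a => sgn (ε a) (f a))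
  have h2 : ∀ᵐ t ∂(μ k), ∀ a, (sgn (ε a) (f a) : Ω k →ₘ[μ k] 𝕜) t = sgn (ε a) (f a t) := by
    rw [ae_all_iff]
    intro a
    unfold sgn
    by_cases h : ε a = true
    · simp [h]
    · simp only [h]
      filter_upwards [AEEqFun.coeFn_neg (f a)] with t ht
      simpa using ht
  filter_upwards [h1, h2] with t h3 h4
  unfold rsum
  rw [h3, Finset.sum_apply]
  exact Finset.sum_congr rfl fun a _ => h4 a

theorem rsum_lin {E F : Type*} [AddCommGroup E] [AddCommGroup F] [Module 𝕜 E] [Module 𝕜 F]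
    (T : E →ₗ[𝕜] F) {A : Type} [Fintype A] (x : A → E) (ε : A → Bool) :
    T (rsum x ε) = rsum (fun a => T (x a)) ε := by
  unfold rsum
  rw [map_sum]
  refine Finset.sum_congr rfl fun a _ => ?_
  unfold sgn
  split_ifs
  · rfl
  · exact map_neg T (x a)

theorem radq {E : Type u} [NormedAddCommGroup E] [NormedSpace 𝕜 E]
    (T : ∀ k, E →ₗ[𝕜] (Ω k →ₘ[μ k] 𝕜)) (hQ : ∀ k, Quad (μ k) (N k)) (K : ℝ≥0∞)
    (hK1 : 1 ≤ K) (hKt : K ≠ ∞) (hK : ∀ k, Kh 𝕜 (N k) K) (c : ℝ≥0∞) (hc1 : 1 ≤ c) (hct : c ≠ ∞)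
    (h1 : ∀ x : E, ∑' k, N k (fun t => ‖(T k x : Ω k → 𝕜) t‖ₑ ^ 2) ≤ c * ‖x‖ₑ ^ 2)
    (h2 : ∀ x : E, ‖x‖ₑ ^ 2 ≤ c * ∑' k, N k (fun t => ‖(T k x : Ω k → 𝕜) t‖ₑ ^ 2)) :
    ∃ C₀ : ℝ≥0∞, 1 ≤ C₀ ∧ C₀ ≠ ∞ ∧ RadQ N T C₀ := by
  refine ⟨K * c, ?_, ENNReal.mul_ne_top hKt hct, ?_⟩
  · calc (1 : ℝ≥0∞) = 1 * 1 := (one_mul 1).symm
      _ ≤ _ := mul_le_mul' hK1 hc1
  intro A _ _ x
  have hrad : ENNReal.ofReal (rad x) = ∑ ε : A → Bool, cs A * ‖rsum x ε‖ₑ ^ 2 := by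
    unfold rad
    rw [DLP.SQL_.ofReal_mean _ fun ε => by positivity]
    simp only [DLP.SQL_.enorm_sq_eq]
    rfl
  have hm : ∀ k (y : E), Measurable (T k y : Ω k → 𝕜) := fun k y => AEEqFun.measurable _
  have hN : ∀ k (ε : A → Bool), N k (fun t => ‖rsum (fun a => (T k (x a) : Ω k → 𝕜) t) ε‖ₑ ^ 2) =
      N k (fun t => ‖(T k (rsum x ε) : Ω k → 𝕜) t‖ₑ ^ 2) := by
    intro k ε
    have hae : ∀ᵐ t ∂(μ k), (T k (rsum x ε) : Ω k → 𝕜) t =
        rsum (fun a => (T k (x a) : Ω k → 𝕜) t) ε := by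
      rw [rsum_lin]
      exact coe_rsum _ ε
    have m1 := meas_rsum (fun a => (T k (x a) : Ω k → 𝕜)) (fun a => hm k (x a)) ε
    have m2 : Measurable fun t => ‖(T k (rsum x ε) : Ω k → 𝕜) t‖ₑ ^ 2 :=
      ((hm k _).enorm).pow_const 2
    refine le_antisymm ((hQ k).mono _ _ m1 m2 ?_) ((hQ k).mono _ _ m2 m1 ?_)
    · filter_upwards [hae] with t ht
      rw [ht]
    · filter_upwards [hae] with t ht
      rw [ht]
  have hsum : ∑' k, ∑ ε : A → Bool, cs A * N k (fun t => ‖rsum (fun a => (T k (x a) : Ω k → 𝕜) t)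
      ε‖ₑ ^ 2) = ∑ ε : A → Bool, cs A * ∑' k, N k (fun t => ‖(T k (rsum x ε) : Ω k → 𝕜) t‖ₑ ^ 2) := by
    rw [Summable.tsum_finsetSum fun _ _ => ENNReal.summable]
    refine Finset.sum_congr rfl fun ε _ => ?_
    rw [ENNReal.tsum_mul_left]
    congr 1
    exact tsum_congr fun k => hN k ε
  refine ⟨?_, ?_⟩
  · calc qg N T x ≤ ∑' k, K * ∑ ε : A → Bool, cs A * N k (fun t =>
          ‖rsum (fun a => (T k (x a) : Ω k → 𝕜) t) ε‖ₑ ^ 2) :=
          ENNReal.tsum_le_tsum fun k => (hK k A (fun a => (T k (x a) : Ω k → 𝕜))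
            fun a => hm k (x a)).1
      _ = K * ∑ ε : A → Bool, cs A *
          ∑' k, N k (fun t => ‖(T k (rsum x ε) : Ω k → 𝕜) t‖ₑ ^ 2) := by
          rw [ENNReal.tsum_mul_left, hsum]
      _ ≤ K * ∑ ε : A → Bool, cs A * (c * ‖rsum x ε‖ₑ ^ 2) := by
          gcongr
          exact h1 _
      _ = K * c * ENNReal.ofReal (rad x) := by
          rw [hrad, mul_assoc K c, Finset.mul_sum (a := c)]
          congr 1
          exact Finset.sum_congr rfl fun ε _ => by ring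
  · calc ENNReal.ofReal (rad x) = ∑ ε : A → Bool, cs A * ‖rsum x ε‖ₑ ^ 2 := hrad
      _ ≤ ∑ ε : A → Bool, cs A * (c *
          ∑' k, N k (fun t => ‖(T k (rsum x ε) : Ω k → 𝕜) t‖ₑ ^ 2)) := by
          gcongr
          exact h2 _
      _ = c * ∑ ε : A → Bool, cs A *
          ∑' k, N k (fun t => ‖(T k (rsum x ε) : Ω k → 𝕜) t‖ₑ ^ 2) := by
          rw [Finset.mul_sum]
          exact Finset.sum_congr rfl fun ε _ => by ring
      _ = c * ∑' k, ∑ ε : A → Bool, cs A * N k (fun t =>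
          ‖rsum (fun a => (T k (x a) : Ω k → 𝕜) t) ε‖ₑ ^ 2) := by rw [hsum]
      _ ≤ c * ∑' k, K * N k (fun t => ∑ a, ‖(T k (x a) : Ω k → 𝕜) t‖ₑ ^ 2) := by
          gcongr with k
          exact (hK k A (fun a => (T k (x a) : Ω k → 𝕜)) fun a => hm k (x a)).2
      _ = K * c * qg N T x := by
          rw [ENNReal.tsum_mul_left]
          unfold qg
          ring

variable {X : Type u} [NormedAddCommGroup X] [NormedSpace 𝕜 X]
  {τ : ℕ → I → Fin 2} (hτ : ∀ m, Measurable (τ m))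
  (T : ∀ k, DiestelL2.L2V X →ₗ[𝕜] (Ω k →ₘ[μ k] 𝕜))

/-- energy of one cell function -/
noncomputable def sq (s b : ℕ) (x : X) (k : ι) (t : Ω k) : ℝ≥0∞ :=
  ‖(T k (cellv hτ s b x) : Ω k → 𝕜) t‖ₑ ^ 2

theorem meas_sq (s b : ℕ) (x : X) (k : ι) : Measurable (sq hτ T s b x k) :=
  ((AEEqFun.measurable (T k (cellv hτ s b x))).enorm).pow_const 2

section
variable {R : Type} [Fintype R] [DecidableEq R]

omit [DecidableEq R] in
theorem qg_fam (s : R → ℕ) (j β : ℕ) (ξ : R → ℕ → X) :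
    qg N T (fun a : (Σ r : R, ↥(cells j (s r) β)) => (cellv hτ (s a.1) a.2 (ξ a.1 a.2))) =
      ∑' k, N k (fun t => ∑ r, ∑ b ∈ cells j (s r) β, sq hτ T (s r) b (ξ r b) k t) := by
  unfold qg
  refine tsum_congr fun k => ?_
  congr 1
  funext t
  rw [Fintype.sum_sigma]
  refine Finset.sum_congr rfl fun r _ => ?_
  exact Finset.sum_coe_sort (cells j (s r) β) fun b => sq hτ T (s r) b (ξ r b) k t

variable {C₀ : ℝ≥0∞} (hTC : RadQ N T C₀)

include hTC

theorem en_le (s : R → ℕ) (j β : ℕ) (hs : ∀ r, j ≤ s r) (ξ : R → ℕ → X) :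
    ∑' k, N k (fun t => ∑ r, ∑ b ∈ cells j (s r) β, sq hτ T (s r) b (ξ r b) k t) ≤
      C₀ * ∫⁻ ω, (if adr τ j ω = β then
        ENNReal.ofReal (rad (fun r => ξ r (adr τ (s r) ω))) else 0) := by
  rw [← qg_fam, ← rad_fam hτ s j β hs ξ]
  exact (hTC _ _).1

theorem en_ge (s : R → ℕ) (j β : ℕ) (hs : ∀ r, j ≤ s r) (ξ : R → ℕ → X) :
    ∫⁻ ω, (if adr τ j ω = β then
        ENNReal.ofReal (rad (fun r => ξ r (adr τ (s r) ω))) else 0) ≤
      C₀ * ∑' k, N k (fun t => ∑ r, ∑ b ∈ cells j (s r) β, sq hτ T (s r) b (ξ r b) k t) := by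
  rw [← qg_fam, ← rad_fam hτ s j β hs ξ]
  exact (hTC _ _).2

end

/-- cells of a coarser level, weighted -/
theorem sum_sel (s j j' β : ℕ) (hj : j ≤ j') (hs : j' ≤ s) (f : ℕ → ℕ → ℝ≥0∞) :
    ∑ l ∈ cells j j' β, ∑ b ∈ cells j' s l, f l b =
      ∑ b ∈ cells j s β, f (b / 2 ^ (s - j')) b := by
  rw [← sum_cells_cells hj hs β fun b => f (b / 2 ^ (s - j')) b]
  refine Finset.sum_congr rfl fun l _ => Finset.sum_congr rfl fun b hb => ?_
  rw [(mem_cells.1 hb).2]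

include hτ in
theorem sys (hQ : ∀ k, Quad (μ k) (N k)) {n : ℕ} [NeZero n] (x : Fin n → X)
    (hx : ∀ i, ‖x i‖ = 1) {C₀ : ℝ≥0∞} (hC1 : 1 ≤ C₀) (hTC : RadQ N T C₀)
    (hp : ∀ (J : Finset ℕ) (g : ℕ → Fin 2 → ℝ≥0∞),
      ∫⁻ ω, ∏ m ∈ J, g m (τ m ω) = ∏ m ∈ J, ((∑ l, g m l) / (2 : ℕ))) :
    Nonempty (Sys N n (ENNReal.ofReal (rad x)) (C₀ ^ 3)) := by
  have hC3 : C₀ ≤ C₀ ^ 3 := le_self_pow₀ hC1 (by norm_num)
  have hvol := adr_vol hτ hp
  have hsh : ∀ a : Fin n, rad (fun r => x (r + a)) = rad x := fun a =>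
    rad_reindex x (Equiv.addRight a)
  have hsel : ∀ y : X, ‖y‖ = 1 → ENNReal.ofReal (rad (fun _ : Fin n => y)) = n := by
    intro y hy
    rw [rad_const 𝕜, hy]
    simp
  have hfull : ENNReal.ofReal (rad (fun a : Fin n × Fin n => x a.2)) ≤
      C₀ ^ 2 * (n * ENNReal.ofReal (rad x)) := by
    have h1 := en_ge hτ T hTC (fun _ : Fin n × Fin n => 0) 0 0 (fun _ => le_rfl)
      (fun a _ => x a.2)
    have h2 := en_le hτ T hTC (fun _ : Fin n => 0) 0 0 (fun _ => le_rfl)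
      (fun a _ => x a)
    rw [hvol 0 0 (by norm_num)] at h1 h2
    rw [pow_zero, one_mul] at h1 h2
    refine h1.trans ?_
    have h3 : ∀ k, N k
        (fun t => ∑ r : Fin n × Fin n, ∑ b ∈ cells 0 0 0, sq hτ T 0 b (x r.2) k t) =
        n * N k (fun t => ∑ r : Fin n, ∑ b ∈ cells 0 0 0, sq hτ T 0 b (x r) k t) := by
      intro k
      rw [← (hQ k).smul _ (by simp) _ (Finset.measurable_fun_sum _ fun r _ =>
        Finset.measurable_fun_sum _ fun b _ => meas_sq hτ T 0 b (x r) k)]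
      congr 1
      funext t
      rw [Fintype.sum_prod_type]
      simp only [Finset.sum_const, Finset.card_univ, Fintype.card_fin, nsmul_eq_mul]
    simp only [h3]
    rw [ENNReal.tsum_mul_left]
    calc C₀ * (n * _) ≤ C₀ * (n * (C₀ * ENNReal.ofReal (rad x))) := by gcongr
      _ = _ := by ring
  refine ⟨{
    M := fun s i j β k t => ∑ b ∈ cells j s β, sq hτ T s b (x i) k t
    meas := fun s i j β k => Finset.measurable_sum _ fun b _ => meas_sq hτ T s b (x i) k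
    split := fun s i j j' β k t hj hs => (sum_cells_cells hj hs β _).symm
    one_le := ?_
    shift_le := ?_
    shift_ge := ?_
    full_le := ?_
    sel_le := ?_
    sel_ge := ?_ }⟩
  · intro s i j β hβ hj
    have h := en_le hτ T hTC (fun _ : Unit => s) j β (fun _ => hj) (fun _ _ => x i)
    rw [hvol j β hβ] at h
    simp only [Finset.univ_unique, Finset.sum_singleton] at h
    refine h.trans ?_
    rw [rad_const 𝕜, hx]
    simp only [Fintype.card_unit, Nat.cast_one, one_pow, mul_one, ENNReal.ofReal_one]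
    gcongr
  · intro s a j β hβ hs
    have h := en_le hτ T hTC s j β hs (fun r _ => x (r + a))
    rw [hvol j β hβ, hsh] at h
    exact h.trans (by gcongr)
  · intro s a j β hβ hs
    have h := en_ge hτ T hTC s j β hs (fun r _ => x (r + a))
    rw [hvol j β hβ, hsh] at h
    exact h.trans (by gcongr)
  · intro s j β hβ hs
    have h := en_le hτ T hTC (fun a : Fin n × Fin n => s a.1) j β (fun a => hs a.1)
      (fun a _ => x a.2)
    rw [hvol j β hβ] at h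
    simp only [Fintype.sum_prod_type] at h
    refine h.trans ?_
    calc C₀ * ((2⁻¹ : ℝ≥0∞) ^ j * ENNReal.ofReal (rad (fun a : Fin n × Fin n => x a.2)))
        ≤ C₀ * ((2⁻¹ : ℝ≥0∞) ^ j * (C₀ ^ 2 * (n * ENNReal.ofReal (rad x)))) := by gcongr
      _ = _ := by ring
  · intro s θ j j' β hβ hj hs
    have h := en_le hτ T hTC s j β (fun r => hj.trans (hs r))
      (fun r b => x (θ (b / 2 ^ (s r - j'))))
    have h1 : ∀ ω, rad (fun r => x (θ (adr τ (s r) ω / 2 ^ (s r - j')))) =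
        rad (fun _ : Fin n => x (θ (adr τ j' ω))) := by
      intro ω
      congr 1
      funext r
      rw [adr_div j' (s r) (hs r)]
    simp only [h1, hsel _ (hx _)] at h
    rw [hvol j β hβ] at h
    have h2 : ∀ k, (fun t => ∑ l ∈ cells j j' β, ∑ r, ∑ b ∈ cells j' (s r) l,
        sq hτ T (s r) b (x (θ l)) k t) = fun t => ∑ r, ∑ b ∈ cells j (s r) β,
          sq hτ T (s r) b (x (θ (b / 2 ^ (s r - j')))) k t := by
      intro k
      funext t
      rw [Finset.sum_comm]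
      refine Finset.sum_congr rfl fun r _ => ?_
      exact sum_sel (s r) j j' β hj (hs r) fun l b => sq hτ T (s r) b (x (θ l)) k t
    simp only [h2]
    exact h.trans (by gcongr)
  · intro s θ j j' β hβ hj hs
    have h := en_ge hτ T hTC s j β (fun r => hj.trans (hs r))
      (fun r b => x (θ (b / 2 ^ (s r - j'))))
    have h1 : ∀ ω, rad (fun r => x (θ (adr τ (s r) ω / 2 ^ (s r - j')))) =
        rad (fun _ : Fin n => x (θ (adr τ j' ω))) := by
      intro ω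
      congr 1
      funext r
      rw [adr_div j' (s r) (hs r)]
    simp only [h1, hsel _ (hx _)] at h
    rw [hvol j β hβ] at h
    have h2 : ∀ k, (fun t => ∑ l ∈ cells j j' β, ∑ r, ∑ b ∈ cells j' (s r) l,
        sq hτ T (s r) b (x (θ l)) k t) = fun t => ∑ r, ∑ b ∈ cells j (s r) β,
          sq hτ T (s r) b (x (θ (b / 2 ^ (s r - j')))) k t := by
      intro k
      funext t
      rw [Finset.sum_comm]
      refine Finset.sum_congr rfl fun r _ => ?_
      exact sum_sel (s r) j j' β hj (hs r) fun l b => sq hτ T (s r) b (x (θ l)) k t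
    simp only [h2]
    exact h.trans (by gcongr)

end

end LTC
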