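import Pool.Agent.LTC.Defs
import Pool.Agent.HLP.Rho

/-!
# Examples of function norms: `L_p` and mixed norms
-/

set_option autoImplicit false

open MeasureTheory
open scoped ENNReal NNReal

namespace LTC

open DLP (rho)
open HLP (rho_mul)

universe w

section
variable {Ω : Type w} [MeasurableSpace Ω] {μ : Measure Ω}

theorem rho_mono_ae {p : ℝ} (hp : 0 < p) {u v : Ω → ℝ≥0∞} (h : ∀ᵐ t ∂μ, u t ≤ v t) :
    rho p μ u ≤ rho p μ v := by
  unfold rho
  refine ENNReal.rpow_le_rpow (lintegral_mono_ae ?_) (by positivity)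
  filter_upwards [h] with t ht
  exact ENNReal.rpow_le_rpow ht hp.le

/-- The function norm of `L_p(μ)`, `1 ≤ p < ∞`: `u ↦ (∫ u^p dμ)^{1/p}`. -/
noncomputable def normLp (p : ℝ) (hp : 1 ≤ p) (μ : Measure Ω) : FnNorm Ω μ where
  nrm u := (∫⁻ t, u t ^ p ∂μ) ^ (1 / p)
  mono _ _ _ _ h := rho_mono_ae (by linarith) h
  smul c u _ := rho_mul (by linarith) c (by simp) u
  add _ _ hu hv := ENNReal.lintegral_Lp_add_le hu.aemeasurable hv.aemeasurable hp

end

section mixed
variable {S : Type w} {T : Type w} [MeasurableSpace S] [MeasurableSpace T] {μ : Measure S}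

theorem meas_inner (ν : Measure T) [SFinite ν] (q : ℝ) (u : S × T → ℝ≥0∞) (hu : Measurable u) :
    Measurable fun a => (∫⁻ b, u (a, b) ^ q ∂ν) ^ (1 / q) :=
  (Measurable.lintegral_prod_right' (hu.pow_const q)).pow_const _

/-- The mixed norm: for a function norm `ρ` on `S` and the space `L_q(ν)`, `1 ≤ q < ∞`, the
function norm `u ↦ ρ(a ↦ (∫ u(a,b)^q dν(b))^{1/q})` on `S × T`. -/
noncomputable def FnNorm.mixed (ρ : FnNorm S μ) (q : ℝ) (hq : 1 ≤ q) (ν : Measure T) [SFinite ν] :
    FnNorm (S × T) (μ.prod ν) where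
  nrm u := ρ.nrm fun a => (∫⁻ b, u (a, b) ^ q ∂ν) ^ (1 / q)
  mono u v hu hv h := by
    refine ρ.mono _ _ (meas_inner ν q u hu) (meas_inner ν q v hv) ?_
    filter_upwards [Measure.ae_ae_of_ae_prod h] with a ha
    exact rho_mono_ae (by linarith) ha
  smul c u hu := by
    rw [← ρ.smul c _ (meas_inner ν q u hu)]
    congr 1
    funext a
    exact rho_mul (by linarith) c (by simp) fun b => u (a, b)
  add u v hu hv := by
    refine le_trans (ρ.mono _ _ (meas_inner ν q _ (hu.add hv))
      ((meas_inner ν q u hu).add (meas_inner ν q v hv)) ?_)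
      (ρ.add _ _ (meas_inner ν q u hu) (meas_inner ν q v hv))
    exact Filter.Eventually.of_forall fun a =>
      ENNReal.lintegral_Lp_add_le (hu.comp measurable_prodMk_left).aemeasurable
        (hv.comp measurable_prodMk_left).aemeasurable hq

end mixed

end LTC
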