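import Pool.Agent.LTC.Fn
import Pool.Agent.LTC.ExDefs
import Pool.Agent.HLP.Pub

/-!
# Examples: `L_p`-spaces and mixed-norm spaces
-/

set_option autoImplicit false

open MeasureTheory
open scoped ENNReal NNReal unitInterval

namespace LTC

open DLP (rho)
open HLP (rho_subadd rho_superadd rho_mul)

universe u v w

section
variable {Ω : Type w} [MeasurableSpace Ω] {μ : Measure Ω}

theorem rho_root {p s : ℝ} (hp : 0 < p) (hs : 0 < s) (u : Ω → ℝ≥0∞) :
    rho p μ (fun t => u t ^ (1 / s)) = rho (p / s) μ u ^ (1 / s) := by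
  unfold rho
  have e1 : ∀ t, (u t ^ (1 / s)) ^ p = u t ^ (p / s) := fun t => by
    rw [← ENNReal.rpow_mul]
    congr 1
    field_simp
  simp only [e1]
  rw [← ENNReal.rpow_mul]
  congr 1
  field_simp

theorem rho_pow {p s : ℝ} (hp : 0 < p) (hs : 0 < s) (u : Ω → ℝ≥0∞) :
    rho (p / s) μ (fun t => u t ^ s) = rho p μ u ^ s := by
  have h := rho_root (μ := μ) hp hs (fun t => u t ^ s)
  have e1 : (fun t => (u t ^ s) ^ (1 / s)) = u := by
    funext t
    exact rpow_inv hs _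
  rw [e1] at h
  rw [h, inv_rpow' hs]

theorem rho_convex {p s : ℝ} (hs : 0 < s) (hsp : s ≤ p) {n : ℕ} (u : Fin n → Ω → ℝ≥0∞)
    (hu : ∀ i, Measurable (u i)) :
    rho p μ (fun t => (∑ i, u i t ^ s) ^ (1 / s)) ≤ (∑ i, rho p μ (u i) ^ s) ^ (1 / s) := by
  have hp : 0 < p := by linarith
  rw [rho_root hp hs]
  refine ENNReal.rpow_le_rpow ?_ (by positivity)
  have h := rho_subadd (μ := μ) (q := p / s) (by rw [le_div_iff₀ hs]; linarith) Finset.univ
    (fun i t => u i t ^ s) fun i => ((hu i).pow_const s).aemeasurable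
  simp only [rho_pow hp hs] at h
  exact h

theorem rho_concave {p s : ℝ} (hp : 0 < p) (hsp : p ≤ s) {n : ℕ} (u : Fin n → Ω → ℝ≥0∞)
    (hu : ∀ i, Measurable (u i)) :
    (∑ i, rho p μ (u i) ^ s) ^ (1 / s) ≤ rho p μ (fun t => (∑ i, u i t ^ s) ^ (1 / s)) := by
  have hs : 0 < s := by linarith
  rw [rho_root hp hs]
  refine ENNReal.rpow_le_rpow ?_ (by positivity)
  have h := rho_superadd (μ := μ) (q := p / s) (by positivity) (by rw [div_le_one hs]; exact hsp)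
    Finset.univ (fun i t => u i t ^ s) fun i => ((hu i).pow_const s).aemeasurable
  simp only [rho_pow hp hs] at h
  exact h

theorem normLp_nrm (p : ℝ) (hp : 1 ≤ p) (μ : Measure Ω) (u : Ω → ℝ≥0∞) :
    (normLp p hp μ).nrm u = rho p μ u := rfl

theorem normLp_convex (p : ℝ) (hp : 1 ≤ p) (μ : Measure Ω) (s : ℝ) (hs : 0 < s) (hsp : s ≤ p) :
    (normLp p hp μ).Convex s 1 := by
  intro n u hu
  rw [ENNReal.coe_one, one_mul]
  exact rho_convex hs hsp u hu

theorem normLp_concave (p : ℝ) (hp : 1 ≤ p) (μ : Measure Ω) (s : ℝ) (hsp : p ≤ s) :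
    (normLp p hp μ).Concave s 1 := by
  intro n u hu
  rw [ENNReal.coe_one, one_mul]
  exact rho_concave (by linarith) hsp u hu

theorem normLp_oneSide (p : ℝ) (hp : 1 ≤ p) (μ : Measure Ω) (R : ℝ) (hR : p ≤ R) :
    (normLp p hp μ).OneSide R 1 := by
  rcases lt_trichotomy p 2 with h | h | h
  · exact Or.inr (Or.inl ⟨p, hp, h, normLp_concave p hp μ p le_rfl⟩)
  · subst h
    exact Or.inr (Or.inr ⟨normLp_convex 2 hp μ 2 (by norm_num) le_rfl,
      normLp_concave 2 hp μ 2 le_rfl⟩)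
  · exact Or.inl ⟨p, p, h, le_rfl, hR, normLp_convex p hp μ p (by linarith) le_rfl,
      normLp_concave p hp μ p le_rfl⟩

end

section mixed
variable {S : Type w} {T : Type w} [MeasurableSpace S] [MeasurableSpace T] {μ : Measure S}

theorem FnNorm.mixed_convex (ρ : FnNorm S μ) (q : ℝ) (hq : 1 ≤ q) (ν : Measure T) [SFinite ν]
    (s : ℝ) (M : ℝ≥0) (hs : 0 < s) (hsq : s ≤ q) (h : ρ.Convex s M) :
    (ρ.mixed q hq ν).Convex s M := by
  intro n u hu
  refine le_trans (ρ.mono _ _ (meas_inner ν q _ (meas_fam u hu s (1 / s)))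
    (meas_fam _ (fun i => meas_inner ν q (u i) (hu i)) s (1 / s)) ?_)
    (h n (fun i a => (∫⁻ b, u i (a, b) ^ q ∂ν) ^ (1 / q)) fun i => meas_inner ν q (u i) (hu i))
  exact Filter.Eventually.of_forall fun a => rho_convex hs hsq (fun i b => u i (a, b))
    fun i => (hu i).comp measurable_prodMk_left

theorem FnNorm.mixed_concave (ρ : FnNorm S μ) (q : ℝ) (hq : 1 ≤ q) (ν : Measure T) [SFinite ν]
    (s : ℝ) (M : ℝ≥0) (hsq : q ≤ s) (h : ρ.Concave s M) :
    (ρ.mixed q hq ν).Concave s M := by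
  intro n u hu
  refine (h n (fun i a => (∫⁻ b, u i (a, b) ^ q ∂ν) ^ (1 / q))
    fun i => meas_inner ν q (u i) (hu i)).trans ?_
  gcongr
  refine ρ.mono _ _ (meas_fam _ (fun i => meas_inner ν q (u i) (hu i)) s (1 / s))
    (meas_inner ν q _ (meas_fam u hu s (1 / s))) ?_
  exact Filter.Eventually.of_forall fun a => rho_concave (by linarith) hsq (fun i b => u i (a, b))
    fun i => (hu i).comp measurable_prodMk_left

/-- Mixed-norm spaces `L_p(L_q)` with both exponents on the same side of `2`. -/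
theorem mixed_oneSide (p q : ℝ) (hp : 1 ≤ p) (hq : 1 ≤ q) (μ : Measure S) (ν : Measure T)
    [SFinite ν] (R : ℝ) (hpR : p ≤ R) (hqR : q ≤ R)
    (h : 2 < p ∧ 2 < q ∨ p < 2 ∧ q < 2 ∨ p = 2 ∧ q = 2) :
    ((normLp p hp μ).mixed q hq ν).OneSide R 1 := by
  rcases h with ⟨h1, h2⟩ | ⟨h1, h2⟩ | ⟨h1, h2⟩
  · refine Or.inl ⟨min p q, max p q, lt_min h1 h2, min_le_max, max_le hpR hqR, ?_, ?_⟩
    · exact FnNorm.mixed_convex _ q hq ν _ 1 (lt_min (by linarith) (by linarith))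
        (min_le_right _ _) (normLp_convex p hp μ _ (lt_min (by linarith) (by linarith))
          (min_le_left _ _))
    · exact FnNorm.mixed_concave _ q hq ν _ 1 (le_max_right _ _)
        (normLp_concave p hp μ _ (le_max_left _ _))
  · refine Or.inr (Or.inl ⟨max p q, le_max_of_le_left hp, max_lt h1 h2, ?_⟩)
    exact FnNorm.mixed_concave _ q hq ν _ 1 (le_max_right _ _)
        (normLp_concave p hp μ _ (le_max_left _ _))
  · subst h1 h2
    refine Or.inr (Or.inr ⟨?_, ?_⟩)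
    · exact FnNorm.mixed_convex _ 2 hq ν _ 1 (by norm_num) le_rfl
        (normLp_convex 2 hp μ _ (by norm_num) le_rfl)
    · exact FnNorm.mixed_concave _ 2 hq ν _ 1 le_rfl (normLp_concave 2 hp μ _ le_rfl)

end mixed

section sums

/-- from `L_p`-classes to classes of measurable functions, in one coordinate -/
noncomputable def cLp {𝕜 : Type v} [RCLike 𝕜] {ι : Type} {Ω : ι → Type w}
    [∀ i, MeasurableSpace (Ω i)] {μ : ∀ i, Measure (Ω i)} {p : ι → ℝ≥0∞} [∀ i, Fact (1 ≤ p i)]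
    {E : Type u} [NormedAddCommGroup E] [NormedSpace 𝕜 E]
    (L : E →L[𝕜] lp (fun i => Lp 𝕜 (p i) (μ i)) 2) (i : ι) : E →ₗ[𝕜] (Ω i →ₘ[μ i] 𝕜) where
  toFun x := (L x i : Ω i →ₘ[μ i] 𝕜)
  map_add' x y := by
    rw [map_add]
    rfl
  map_smul' c x := by
    rw [map_smul]
    rfl

theorem sum_of_lp (𝕜 : Type v) [RCLike 𝕜] (E : Type u) [NormedAddCommGroup E]
    [NormedSpace 𝕜 E] (h : HLP.InLpSum.{u, v, w} 𝕜 E) : InOneSideSum.{u, v, w} 𝕜 E := by
  obtain ⟨ι, Ω, _, μ, p, _, P, hp, L, a, ha, hL⟩ := h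
  have hpt : ∀ k, p k ≠ ∞ := fun k => ne_top_of_le_ne_top ENNReal.ofReal_ne_top (hp k)
  have hp1 : ∀ k, 1 ≤ (p k).toReal := by
    intro k
    have h4 : (1 : ℝ≥0∞) ≤ p k := Fact.out
    have h5 := ENNReal.toReal_mono (hpt k) h4
    rwa [ENNReal.toReal_one] at h5
  have hp0 : ∀ k, p k ≠ 0 := fun k => by
    have h4 : (1 : ℝ≥0∞) ≤ p k := Fact.out
    exact (lt_of_lt_of_le one_pos h4).ne'
  set R : ℝ := max P 0 with hR
  have hpR : ∀ k, (p k).toReal ≤ R := fun k =>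
    ENNReal.toReal_le_of_le_ofReal (le_max_right P 0)
      ((hp k).trans (ENNReal.ofReal_le_ofReal (le_max_left P 0)))
  set m : ℝ := max 1 (max ‖L‖ a⁻¹) with hm
  have hm1 : 1 ≤ m := le_max_left _ _
  have hmS : ‖L‖ ≤ m := (le_max_left _ _).trans (le_max_right _ _)
  have hma : a⁻¹ ≤ m := (le_max_right _ _).trans (le_max_right _ _)
  have hm0 : 0 ≤ m := by linarith
  have hsum : ∀ x : E, ∑' i, (normLp (p i).toReal (hp1 i) (μ i)).nrm
      (fun t => ‖(cLp L i x : Ω i → 𝕜) t‖ₑ) ^ 2 = ‖L x‖ₑ ^ 2 := by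
    intro x
    have h1 : ‖L x‖ ^ 2 = ∑' n, ‖L x n‖ ^ 2 := DiestelL2.Dbl.norm_sq (L x)
    have h2 : Summable fun n => ‖L x n‖ ^ 2 := DiestelL2.Dbl.memℓp_two_iff.1 (L x).2
    rw [DLP.SQL_.enorm_sq_eq, h1, ENNReal.ofReal_tsum_of_nonneg (fun n => by positivity) h2]
    refine tsum_congr fun n => ?_
    rw [← DLP.SQL_.enorm_sq_eq]
    congr 1
    have h3 := DLP.SQL_.enorm_Lp (hp0 n) (hpt n) (L x n)
    show (∫⁻ t, ‖(L x n) t‖ₑ ^ (p n).toReal ∂(μ n)) ^ (1 / (p n).toReal) = ‖L x n‖ₑ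
    rw [← h3, rpow_inv (by linarith [hp1 n])]
  refine ⟨ι, Ω, _, μ, fun i => normLp (p i).toReal (hp1 i) (μ i), R, 1, fun i => cLp L i,
    (Real.toNNReal m) ^ 2, fun i => normLp_oneSide _ (hp1 i) _ R (hpR i), fun x => ?_⟩
  rw [hsum x]
  have hcast : (((Real.toNNReal m) ^ 2 : ℝ≥0) : ℝ≥0∞) = ENNReal.ofReal m ^ 2 := by
    rw [ENNReal.coe_pow]
    rfl
  rw [hcast, ← mul_pow, ← mul_pow]
  constructor
  · refine pow_le_pow_left₀ (by simp) (enorm_le_mul x (L x) m hm0 ((L.le_opNorm x).trans ?_)) 2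
    gcongr
  · refine pow_le_pow_left₀ (by simp) (enorm_le_mul (L x) x m hm0 ?_) 2
    calc ‖x‖ = a⁻¹ * (a * ‖x‖) := by field_simp
      _ ≤ m * ‖L x‖ := by
        gcongr
        exact hL x

end sums

end LTC
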