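import Pool.Agent.LTC.ClsA

/-!
# Renorming: constants one
-/

set_option autoImplicit false

open MeasureTheory
open scoped ENNReal NNReal

namespace LTC

universe w

variable {Ω : Type w} [MeasurableSpace Ω] {μ : Measure Ω} {F : (Ω → ℝ≥0∞) → ℝ≥0∞}

theorem rpow_inv {r : ℝ} (hr : 0 < r) (x : ℝ≥0∞) : (x ^ r) ^ (1 / r) = x := by
  rw [← ENNReal.rpow_mul, mul_one_div_cancel hr.ne', ENNReal.rpow_one]

theorem inv_rpow' {r : ℝ} (hr : 0 < r) (x : ℝ≥0∞) : (x ^ (1 / r)) ^ r = x := by
  rw [← ENNReal.rpow_mul, one_div_mul_cancel hr.ne', ENNReal.rpow_one]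

theorem le_rpow_inv {r : ℝ} (hr : 0 < r) {x y : ℝ≥0∞} : x ≤ y ^ (1 / r) ↔ x ^ r ≤ y := by
  constructor
  · intro h
    have := ENNReal.rpow_le_rpow h hr.le
    rwa [inv_rpow' hr] at this
  · intro h
    have := ENNReal.rpow_le_rpow h (z := 1 / r) (by positivity)
    rwa [rpow_inv hr] at this

theorem rpow_inv_le {r : ℝ} (hr : 0 < r) {x y : ℝ≥0∞} : x ^ (1 / r) ≤ y ↔ x ≤ y ^ r := by
  constructor
  · intro h
    have := ENNReal.rpow_le_rpow h hr.le
    rwa [inv_rpow' hr] at this
  · intro h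
    have := ENNReal.rpow_le_rpow h (z := 1 / r) (by positivity)
    rwa [rpow_inv hr] at this

/-- families from pairs -/
theorem nconv_of_pair {r : ℝ} (hr : 0 < r) (h0 : F (fun _ => 0) = 0)
    (h : ∀ u v : Ω → ℝ≥0∞, Measurable u → Measurable v →
      F (fun t => (u t ^ r + v t ^ r) ^ (1 / r)) ^ r ≤ F u ^ r + F v ^ r) : NConv F r := by
  classical
  intro κ s u hu
  rw [le_rpow_inv hr]
  induction s using Finset.induction_on with
  | empty =>
    simp only [Finset.sum_empty]
    rw [ENNReal.zero_rpow_of_pos (by positivity), h0, ENNReal.zero_rpow_of_pos hr]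
  | insert a s ha ih =>
    have hm : Measurable fun t => (∑ i ∈ s, u i t ^ r) ^ (1 / r) :=
      (Finset.measurable_fun_sum s fun i _ => (hu i).pow_const r).pow_const _
    have h1 := h (u a) _ (hu a) hm
    simp only [inv_rpow' hr] at h1
    simp only [Finset.sum_insert ha]
    exact h1.trans (add_le_add le_rfl ih)

theorem nconc_of_pair {r : ℝ} (hr : 0 < r)
    (h : ∀ u v : Ω → ℝ≥0∞, Measurable u → Measurable v →
      F u ^ r + F v ^ r ≤ F (fun t => (u t ^ r + v t ^ r) ^ (1 / r)) ^ r) : NConc F r := by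
  classical
  intro κ s u hu
  rw [rpow_inv_le hr]
  induction s using Finset.induction_on with
  | empty =>
    simp only [Finset.sum_empty]
    exact zero_le
  | insert a s ha ih =>
    have hm : Measurable fun t => (∑ i ∈ s, u i t ^ r) ^ (1 / r) :=
      (Finset.measurable_fun_sum s fun i _ => (hu i).pow_const r).pow_const _
    have h1 := h (u a) _ (hu a) hm
    simp only [inv_rpow' hr] at h1
    simp only [Finset.sum_insert ha]
    exact (add_le_add le_rfl ih).trans h1

/-- `r`-convexity with constant `M` -/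
def ConvM (F : (Ω → ℝ≥0∞) → ℝ≥0∞) (r : ℝ) (M : ℝ≥0∞) : Prop :=
  ∀ (n : ℕ) (u : Fin n → Ω → ℝ≥0∞), (∀ i, Measurable (u i)) →
    F (fun t => (∑ i, u i t ^ r) ^ (1 / r)) ≤ M * (∑ i, F (u i) ^ r) ^ (1 / r)

/-- `r`-concavity with constant `M` -/
def ConcM (F : (Ω → ℝ≥0∞) → ℝ≥0∞) (r : ℝ) (M : ℝ≥0∞) : Prop :=
  ∀ (n : ℕ) (u : Fin n → Ω → ℝ≥0∞), (∀ i, Measurable (u i)) →
    (∑ i, F (u i) ^ r) ^ (1 / r) ≤ M * F (fun t => (∑ i, u i t ^ r) ^ (1 / r))

theorem meas_fam {n : ℕ} (v : Fin n → Ω → ℝ≥0∞) (hv : ∀ i, Measurable (v i)) (r r' : ℝ) :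
    Measurable fun t => (∑ i, v i t ^ r) ^ r' :=
  (Finset.measurable_fun_sum _ fun i _ => (hv i).pow_const r).pow_const _

/-- values of upper decompositions -/
def updec (μ : Measure Ω) (F : (Ω → ℝ≥0∞) → ℝ≥0∞) (r : ℝ) (u : Ω → ℝ≥0∞) : Set ℝ≥0∞ :=
  {x | ∃ (n : ℕ) (v : Fin n → Ω → ℝ≥0∞), (∀ i, Measurable (v i)) ∧
    (∀ᵐ t ∂μ, u t ^ r ≤ ∑ i, v i t ^ r) ∧ x = ∑ i, F (v i) ^ r}

/-- values of lower decompositions -/
def lodec (μ : Measure Ω) (F : (Ω → ℝ≥0∞) → ℝ≥0∞) (r : ℝ) (u : Ω → ℝ≥0∞) : Set ℝ≥0∞ :=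
  {x | ∃ (n : ℕ) (v : Fin n → Ω → ℝ≥0∞), (∀ i, Measurable (v i)) ∧
    (∀ᵐ t ∂μ, ∑ i, v i t ^ r ≤ u t ^ r) ∧ x = ∑ i, F (v i) ^ r}

/-- convexified functional -/
noncomputable def cvx (μ : Measure Ω) (F : (Ω → ℝ≥0∞) → ℝ≥0∞) (r : ℝ) (u : Ω → ℝ≥0∞) : ℝ≥0∞ :=
  (sInf (updec μ F r u)) ^ (1 / r)

/-- concavified functional -/
noncomputable def ccv (μ : Measure Ω) (F : (Ω → ℝ≥0∞) → ℝ≥0∞) (r : ℝ) (u : Ω → ℝ≥0∞) : ℝ≥0∞ :=
  (sSup (lodec μ F r u)) ^ (1 / r)

theorem self_updec (r : ℝ) (u : Ω → ℝ≥0∞) (hu : Measurable u) : F u ^ r ∈ updec μ F r u :=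
  ⟨1, fun _ => u, fun _ => hu, Filter.Eventually.of_forall fun t => by simp, by simp⟩

theorem self_lodec (r : ℝ) (u : Ω → ℝ≥0∞) (hu : Measurable u) : F u ^ r ∈ lodec μ F r u :=
  ⟨1, fun _ => u, fun _ => hu, Filter.Eventually.of_forall fun t => by simp, by simp⟩

theorem cvx_le {r : ℝ} (hr : 0 < r) (u : Ω → ℝ≥0∞) (hu : Measurable u) : cvx μ F r u ≤ F u := by
  unfold cvx
  rw [rpow_inv_le hr]
  exact sInf_le (self_updec r u hu)

theorem le_ccv {r : ℝ} (hr : 0 < r) (u : Ω → ℝ≥0∞) (hu : Measurable u) : F u ≤ ccv μ F r u := by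
  unfold ccv
  rw [le_rpow_inv hr]
  exact le_sSup (self_lodec r u hu)

theorem M_rpow {M : ℝ≥0∞} (hM1 : 1 ≤ M) (hMt : M ≠ ∞) {r : ℝ} (hr : 0 < r) :
    M ^ r ≠ 0 ∧ M ^ r ≠ ∞ :=
  ⟨(lt_of_lt_of_le one_pos (ENNReal.one_le_rpow hM1 hr)).ne',
    ENNReal.rpow_ne_top_of_nonneg hr.le hMt⟩

theorem le_cvx (hQ : Quad μ F) {r : ℝ} (hr : 0 < r) {M : ℝ≥0∞} (hM1 : 1 ≤ M) (hMt : M ≠ ∞)
    (hM : ConvM F r M) (u : Ω → ℝ≥0∞) (hu : Measurable u) : F u ≤ M * cvx μ F r u := by
  obtain ⟨hMr0, hMrt⟩ := M_rpow hM1 hMt hr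
  have h1 : F u ^ r / M ^ r ≤ sInf (updec μ F r u) := by
    refine le_sInf ?_
    rintro x ⟨n, v, hv, hle, rfl⟩
    rw [ENNReal.div_le_iff_le_mul (Or.inl hMr0) (Or.inl hMrt)]
    have h2 : F u ≤ M * (∑ i, F (v i) ^ r) ^ (1 / r) := by
      refine le_trans (hQ.mono _ _ hu (meas_fam v hv r (1 / r)) ?_) (hM n v hv)
      filter_upwards [hle] with t ht
      rw [le_rpow_inv hr]
      exact ht
    have h3 := ENNReal.rpow_le_rpow h2 hr.le
    rw [ENNReal.mul_rpow_of_nonneg _ _ hr.le, inv_rpow' hr] at h3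
    rwa [mul_comm]
  have h4 : F u ^ r ≤ (M * cvx μ F r u) ^ r := by
    rw [ENNReal.mul_rpow_of_nonneg _ _ hr.le]
    unfold cvx
    rw [inv_rpow' hr]
    rw [ENNReal.div_le_iff_le_mul (Or.inl hMr0) (Or.inl hMrt)] at h1
    rwa [mul_comm]
  exact (ENNReal.rpow_le_rpow_iff hr).1 h4

theorem ccv_le (hQ : Quad μ F) {r : ℝ} (hr : 0 < r) {M : ℝ≥0∞}
    (hM : ConcM F r M) (u : Ω → ℝ≥0∞) (hu : Measurable u) : ccv μ F r u ≤ M * F u := by
  unfold ccv
  rw [rpow_inv_le hr]
  refine sSup_le ?_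
  rintro x ⟨n, v, hv, hle, rfl⟩
  rw [← rpow_inv_le hr]
  refine (hM n v hv).trans ?_
  gcongr
  refine hQ.mono _ _ (meas_fam v hv r (1 / r)) hu ?_
  filter_upwards [hle] with t ht
  rw [rpow_inv_le hr]
  exact ht

theorem cvx_quad (hQ : Quad μ F) {r : ℝ} (hr : 0 < r) : Quad μ (cvx μ F r) where
  mono := by
    intro u v hu hv huv
    unfold cvx
    refine ENNReal.rpow_le_rpow (sInf_le_sInf ?_) (by positivity)
    rintro x ⟨n, w, hw, hle, rfl⟩
    refine ⟨n, w, hw, ?_, rfl⟩
    filter_upwards [huv, hle] with t h1 h2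
    exact (ENNReal.rpow_le_rpow h1 hr.le).trans h2
  smul := by
    -- one inequality is enough
    have key : ∀ c : ℝ≥0∞, c ≠ ∞ → ∀ u : Ω → ℝ≥0∞, Measurable u →
        cvx μ F r (fun t => c * u t) ≤ c * cvx μ F r u := by
      intro c hc u hu
      have hcr : c ^ r ≠ ∞ := ENNReal.rpow_ne_top_of_nonneg hr.le hc
      by_cases hc0 : c = 0
      · subst hc0
        simp only [zero_mul]
        unfold cvx
        rw [rpow_inv_le hr, ENNReal.zero_rpow_of_pos hr]
        refine sInf_le ⟨0, fun i => i.elim0, fun i => i.elim0, ?_, by simp⟩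
        exact Filter.Eventually.of_forall fun t => by simp [ENNReal.zero_rpow_of_pos hr]
      have hcr0 : c ^ r ≠ 0 := by
        rw [Ne, ENNReal.rpow_eq_zero_iff]
        push Not
        exact ⟨fun h => absurd h hc0, fun h => absurd h hc⟩
      unfold cvx
      rw [rpow_inv_le hr, ENNReal.mul_rpow_of_nonneg _ _ hr.le, inv_rpow' hr, mul_comm,
        ← ENNReal.div_le_iff_le_mul (Or.inl hcr0) (Or.inl hcr)]
      refine le_sInf ?_
      rintro x ⟨n, v, hv, hle, rfl⟩
      rw [ENNReal.div_le_iff_le_mul (Or.inl hcr0) (Or.inl hcr)]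
      refine sInf_le ⟨n, fun i t => c * v i t, fun i => (hv i).const_mul c, ?_, ?_⟩
      · filter_upwards [hle] with t ht
        simp only [ENNReal.mul_rpow_of_nonneg _ _ hr.le]
        rw [← Finset.mul_sum]
        gcongr
      · rw [Finset.sum_mul]
        refine Finset.sum_congr rfl fun i _ => ?_
        rw [hQ.smul c hc _ (hv i), ENNReal.mul_rpow_of_nonneg _ _ hr.le, mul_comm]
    intro c hc u hu
    refine le_antisymm (key c hc u hu) ?_
    by_cases hc0 : c = 0
    · subst hc0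
      simp
    have h1 := key c⁻¹ (ENNReal.inv_ne_top.2 hc0) (fun t => c * u t) (hu.const_mul c)
    have e1 : (fun t => c⁻¹ * (c * u t)) = u := by
      funext t
      rw [← mul_assoc, ENNReal.inv_mul_cancel hc0 hc, one_mul]
    rw [e1] at h1
    calc c * cvx μ F r u ≤ c * (c⁻¹ * cvx μ F r (fun t => c * u t)) := by gcongr
      _ = _ := by rw [← mul_assoc, ENNReal.mul_inv_cancel hc0 hc, one_mul]

theorem ccv_quad (hQ : Quad μ F) {r : ℝ} (hr : 0 < r) : Quad μ (ccv μ F r) where
  mono := by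
    intro u v hu hv huv
    unfold ccv
    refine ENNReal.rpow_le_rpow (sSup_le_sSup ?_) (by positivity)
    rintro x ⟨n, w, hw, hle, rfl⟩
    refine ⟨n, w, hw, ?_, rfl⟩
    filter_upwards [huv, hle] with t h1 h2
    exact h2.trans (ENNReal.rpow_le_rpow h1 hr.le)
  smul := by
    have key : ∀ c : ℝ≥0∞, c ≠ 0 → c ≠ ∞ → ∀ u : Ω → ℝ≥0∞, Measurable u →
        c * ccv μ F r u ≤ ccv μ F r (fun t => c * u t) := by
      intro c hc0 hc u hu
      have hcr : c ^ r ≠ ∞ := ENNReal.rpow_ne_top_of_nonneg hr.le hc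
      have hcr0 : c ^ r ≠ 0 := by
        rw [Ne, ENNReal.rpow_eq_zero_iff]
        push Not
        exact ⟨fun h => absurd h hc0, fun h => absurd h hc⟩
      unfold ccv
      rw [le_rpow_inv hr, ENNReal.mul_rpow_of_nonneg _ _ hr.le, inv_rpow' hr, mul_comm,
        ← ENNReal.le_div_iff_mul_le (Or.inl hcr0) (Or.inl hcr)]
      refine sSup_le ?_
      rintro x ⟨n, v, hv, hle, rfl⟩
      rw [ENNReal.le_div_iff_mul_le (Or.inl hcr0) (Or.inl hcr)]
      refine le_sSup ⟨n, fun i t => c * v i t, fun i => (hv i).const_mul c, ?_, ?_⟩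
      · filter_upwards [hle] with t ht
        simp only [ENNReal.mul_rpow_of_nonneg _ _ hr.le]
        rw [← Finset.mul_sum]
        gcongr
      · rw [Finset.sum_mul]
        refine Finset.sum_congr rfl fun i _ => ?_
        rw [hQ.smul c hc _ (hv i), ENNReal.mul_rpow_of_nonneg _ _ hr.le, mul_comm]
    have h0 : ccv μ F r (fun _ => 0) = 0 := by
      have h1 : sSup (lodec μ F r fun _ => 0) ≤ 0 := by
        refine sSup_le ?_
        rintro x ⟨n, v, hv, hle, rfl⟩
        refine (Finset.sum_eq_zero fun i _ => ?_).le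
        have h2 : F (v i) ≤ F (fun _ => 0) := by
          refine hQ.mono _ _ (hv i) measurable_const ?_
          filter_upwards [hle] with t ht
          rw [ENNReal.zero_rpow_of_pos hr] at ht
          have h3 : v i t ^ r ≤ 0 :=
            (Finset.single_le_sum (f := fun i => v i t ^ r) (fun _ _ => zero_le)
              (Finset.mem_univ i)).trans ht
          have h4 : v i t ^ r = 0 := le_antisymm h3 zero_le
          rw [ENNReal.rpow_eq_zero_iff] at h4
          rcases h4 with ⟨h, -⟩ | ⟨-, h⟩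
          · exact h.le
          · linarith
        rw [hQ.basic.zero] at h2
        rw [le_antisymm h2 zero_le, ENNReal.zero_rpow_of_pos hr]
      unfold ccv
      rw [le_antisymm h1 zero_le, ENNReal.zero_rpow_of_pos (by positivity)]
    intro c hc u hu
    by_cases hc0 : c = 0
    · subst hc0
      simp only [zero_mul]
      exact h0
    refine le_antisymm ?_ (key c hc0 hc u hu)
    have h1 := key c⁻¹ (ENNReal.inv_ne_zero.2 hc) (ENNReal.inv_ne_top.2 hc0)
      (fun t => c * u t) (hu.const_mul c)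
    have e1 : (fun t => c⁻¹ * (c * u t)) = u := by
      funext t
      rw [← mul_assoc, ENNReal.inv_mul_cancel hc0 hc, one_mul]
    rw [e1] at h1
    calc ccv μ F r (fun t => c * u t) = c * (c⁻¹ * ccv μ F r (fun t => c * u t)) := by
          rw [← mul_assoc, ENNReal.mul_inv_cancel hc0 hc, one_mul]
      _ ≤ _ := by gcongr

theorem cvx_conv (hQ : Quad μ F) {r : ℝ} (hr : 0 < r) : NConv (cvx μ F r) r := by
  refine nconv_of_pair hr (cvx_quad hQ hr).basic.zero fun u v hu hv => ?_
  unfold cvx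
  rw [inv_rpow' hr, inv_rpow' hr, inv_rpow' hr, ENNReal.sInf_add]
  refine le_iInf₂ fun x hx => ?_
  rw [add_comm, ENNReal.sInf_add]
  refine le_iInf₂ fun y hy => ?_
  obtain ⟨n, w, hw, hle, rfl⟩ := hx
  obtain ⟨m, z, hz, hle', rfl⟩ := hy
  refine sInf_le ⟨n + m, Fin.append w z, ?_, ?_, ?_⟩
  · intro i
    refine Fin.addCases (fun i => ?_) (fun i => ?_) i
    · rw [Fin.append_left]
      exact hw i
    · rw [Fin.append_right]
      exact hz i
  · filter_upwards [hle, hle'] with t h1 h2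
    rw [inv_rpow' hr, Fin.sum_univ_add]
    simp only [Fin.append_left, Fin.append_right]
    exact add_le_add h1 h2
  · rw [Fin.sum_univ_add]
    simp only [Fin.append_left, Fin.append_right]
    rw [add_comm]

theorem zero_mem_lodec (r : ℝ) (u : Ω → ℝ≥0∞) : (lodec μ F r u).Nonempty :=
  ⟨0, 0, fun i => i.elim0, fun i => i.elim0, Filter.Eventually.of_forall fun t => by simp,
    by simp⟩

theorem ccv_conc {r : ℝ} (hr : 0 < r) : NConc (ccv μ F r) r := by
  refine nconc_of_pair hr fun u v hu hv => ?_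
  unfold ccv
  rw [inv_rpow' hr, inv_rpow' hr, inv_rpow' hr, ENNReal.sSup_add (zero_mem_lodec r u)]
  refine iSup₂_le fun x hx => ?_
  rw [add_comm, ENNReal.sSup_add (zero_mem_lodec r v)]
  refine iSup₂_le fun y hy => ?_
  obtain ⟨n, w, hw, hle, rfl⟩ := hx
  obtain ⟨m, z, hz, hle', rfl⟩ := hy
  refine le_sSup ⟨n + m, Fin.append w z, ?_, ?_, ?_⟩
  · intro i
    refine Fin.addCases (fun i => ?_) (fun i => ?_) i
    · rw [Fin.append_left]
      exact hw i
    · rw [Fin.append_right]
      exact hz i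
  · filter_upwards [hle, hle'] with t h1 h2
    rw [inv_rpow' hr, Fin.sum_univ_add]
    simp only [Fin.append_left, Fin.append_right]
    exact add_le_add h1 h2
  · rw [Fin.sum_univ_add]
    simp only [Fin.append_left, Fin.append_right]
    rw [add_comm]

/-- concavification keeps convexity with constant one -/
theorem ccv_conv (hQ : Quad μ F) {r R : ℝ} (hr : 0 < r) (hrR : r ≤ R) (hF : NConv F r) :
    NConv (ccv μ F R) r := by
  have hR : 0 < R := by linarith
  apply nconv_of_pair hr (ccv_quad hQ hR).basic.zero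
  intro u v hu hv
  set W : Ω → ℝ≥0∞ := fun t => (u t ^ r + v t ^ r) ^ (1 / r) with hW
  have hWm : Measurable W := ((hu.pow_const r).add (hv.pow_const r)).pow_const _
  have hWr : ∀ t, W t ^ r = u t ^ r + v t ^ r := fun t => inv_rpow' hr _
  set φ : Ω → ℝ≥0∞ := fun t => if W t = ∞ then (if u t = ∞ then 1 else 0) else u t / W t with hφ
  set ψ : Ω → ℝ≥0∞ := fun t => if W t = ∞ then (if u t = ∞ then 0 else 1) else v t / W t with hψ
  have mWt : MeasurableSet {t | W t = ∞} := hWm (measurableSet_singleton _)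
  have mU : MeasurableSet {t | u t = ∞} := hu (measurableSet_singleton _)
  have hφm : Measurable φ := Measurable.ite mWt
    (Measurable.ite mU measurable_const measurable_const) (hu.div hWm)
  have hψm : Measurable ψ := Measurable.ite mWt
    (Measurable.ite mU measurable_const measurable_const) (hv.div hWm)
  have huW : ∀ t, u t ≤ W t := fun t => by
    rw [hW, le_rpow_inv hr]
    exact le_self_add
  have hvW : ∀ t, v t ≤ W t := fun t => by
    rw [hW, le_rpow_inv hr]
    exact le_add_self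
  have h1 : ∀ t, W t ≠ 0 → 1 ≤ φ t ^ r + ψ t ^ r := by
    intro t ht0
    by_cases ht : W t = ∞
    · by_cases hu' : u t = ∞
      · simp [hφ, hψ, ht, hu']
      · simp [hφ, hψ, ht, hu']
    · have e1 : φ t = u t / W t := by rw [hφ]; exact if_neg ht
      have e2 : ψ t = v t / W t := by rw [hψ]; exact if_neg ht
      rw [e1, e2, ENNReal.div_rpow_of_nonneg _ _ hr.le, ENNReal.div_rpow_of_nonneg _ _ hr.le,
        ← ENNReal.add_div, ← hWr, ENNReal.div_self]
      · rw [Ne, ENNReal.rpow_eq_zero_iff]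
        push Not
        exact ⟨fun h => absurd h ht0, fun h => absurd h ht⟩
      · exact ENNReal.rpow_ne_top_of_nonneg hr.le ht
  have h2 : ∀ t, φ t * W t ≤ u t := by
    intro t
    by_cases ht : W t = ∞
    · by_cases hu' : u t = ∞
      · rw [hu']; exact le_top
      · have e1 : φ t = 0 := by
          rw [hφ]
          beta_reduce
          rw [if_pos ht, if_neg hu']
        rw [e1, zero_mul]
        exact zero_le
    · have e1 : φ t = u t / W t := by rw [hφ]; exact if_neg ht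
      rw [e1]
      exact ENNReal.mul_le_of_le_div le_rfl
  have h3 : ∀ t, ψ t * W t ≤ v t := by
    intro t
    by_cases ht : W t = ∞
    · by_cases hu' : u t = ∞
      · have e1 : ψ t = 0 := by
          rw [hψ]
          beta_reduce
          rw [if_pos ht, if_pos hu']
        rw [e1, zero_mul]
        exact zero_le
      · have hv' : v t = ∞ := by
          by_contra hv'
          have h5 := hWr t
          rw [ht, ENNReal.top_rpow_of_pos hr] at h5
          exact (ENNReal.add_ne_top.2 ⟨ENNReal.rpow_ne_top_of_nonneg hr.le hu',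
            ENNReal.rpow_ne_top_of_nonneg hr.le hv'⟩) h5.symm
        rw [hv']; exact le_top
    · have e1 : ψ t = v t / W t := by rw [hψ]; exact if_neg ht
      rw [e1]
      exact ENNReal.mul_le_of_le_div le_rfl
  -- the main estimate
  have hmain : ∀ x ∈ lodec μ F R W,
      x ≤ (ccv μ F R u ^ r + ccv μ F R v ^ r) ^ (R / r) := by
    rintro x ⟨n, w, hw, hle, rfl⟩
    have hρ : 1 ≤ R / r := by
      rw [le_div_iff₀ hr]
      linarith
    have hρ0 : 0 < R / r := by positivity
    have a1 : ∀ i, F (w i) ^ R ≤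
        (F (fun t => φ t * w i t) ^ r + F (fun t => ψ t * w i t) ^ r) ^ (R / r) := by
      intro i
      have a2 : F (w i) ^ r ≤ F (fun t => φ t * w i t) ^ r + F (fun t => ψ t * w i t) ^ r := by
        have a3 := hF (Finset.univ : Finset Bool)
          (fun b => Bool.rec (fun t => ψ t * w i t) (fun t => φ t * w i t) b) (by
            intro b
            cases b
            · exact hψm.mul (hw i)
            · exact hφm.mul (hw i))
        simp only [Fintype.sum_bool] at a3
        rw [le_rpow_inv hr] at a3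
        refine le_trans (ENNReal.rpow_le_rpow (hQ.mono _ _ (hw i) ?_ ?_) hr.le) a3
        · exact (((hφm.mul (hw i)).pow_const r).add ((hψm.mul (hw i)).pow_const r)).pow_const _
        · filter_upwards [hle] with t ht
          rw [le_rpow_inv hr, ENNReal.mul_rpow_of_nonneg _ _ hr.le,
            ENNReal.mul_rpow_of_nonneg _ _ hr.le, ← add_mul]
          by_cases hW0 : W t = 0
          · have b1 : w i t ^ R ≤ 0 := by
              rw [hW0, ENNReal.zero_rpow_of_pos hR] at ht
              exact (Finset.single_le_sum (f := fun i => w i t ^ R) (fun _ _ => zero_le)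
                (Finset.mem_univ i)).trans ht
            have b2 : w i t ^ R = 0 := le_antisymm b1 zero_le
            rw [ENNReal.rpow_eq_zero_iff] at b2
            rcases b2 with ⟨b3, -⟩ | ⟨-, b3⟩
            · rw [b3, ENNReal.zero_rpow_of_pos hr]
              exact zero_le
            · linarith
          · calc w i t ^ r = 1 * w i t ^ r := (one_mul _).symm
              _ ≤ _ := by
                gcongr
                exact h1 t hW0
      calc F (w i) ^ R = (F (w i) ^ r) ^ (R / r) := by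
            rw [← ENNReal.rpow_mul, mul_div_cancel₀ _ hr.ne']
        _ ≤ _ := ENNReal.rpow_le_rpow a2 hρ0.le
    have hφs : ∑ i, (F (fun t => φ t * w i t) ^ r) ^ (R / r) ≤ ccv μ F R u ^ R := by
      unfold ccv
      rw [inv_rpow' hR]
      refine le_sSup ⟨n, fun i t => φ t * w i t, fun i => hφm.mul (hw i), ?_, ?_⟩
      · filter_upwards [hle] with t ht
        simp only [ENNReal.mul_rpow_of_nonneg _ _ hR.le]
        rw [← Finset.mul_sum]
        calc φ t ^ R * ∑ i, w i t ^ R ≤ φ t ^ R * W t ^ R := by gcongr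
          _ = (φ t * W t) ^ R := (ENNReal.mul_rpow_of_nonneg _ _ hR.le).symm
          _ ≤ u t ^ R := ENNReal.rpow_le_rpow (h2 t) hR.le
      · refine Finset.sum_congr rfl fun i _ => ?_
        rw [← ENNReal.rpow_mul, mul_div_cancel₀ _ hr.ne']
    have hψs : ∑ i, (F (fun t => ψ t * w i t) ^ r) ^ (R / r) ≤ ccv μ F R v ^ R := by
      unfold ccv
      rw [inv_rpow' hR]
      refine le_sSup ⟨n, fun i t => ψ t * w i t, fun i => hψm.mul (hw i), ?_, ?_⟩
      · filter_upwards [hle] with t ht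
        simp only [ENNReal.mul_rpow_of_nonneg _ _ hR.le]
        rw [← Finset.mul_sum]
        calc ψ t ^ R * ∑ i, w i t ^ R ≤ ψ t ^ R * W t ^ R := by gcongr
          _ = (ψ t * W t) ^ R := (ENNReal.mul_rpow_of_nonneg _ _ hR.le).symm
          _ ≤ v t ^ R := ENNReal.rpow_le_rpow (h3 t) hR.le
      · refine Finset.sum_congr rfl fun i _ => ?_
        rw [← ENNReal.rpow_mul, mul_div_cancel₀ _ hr.ne']
    have hmink := ENNReal.Lp_add_le (s := (Finset.univ : Finset (Fin n)))
      (f := fun i => F (fun t => φ t * w i t) ^ r) (g := fun i => F (fun t => ψ t * w i t) ^ r)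
      (p := R / r) hρ
    have hRr : ∀ x : ℝ≥0∞, (x ^ R) ^ (1 / (R / r)) = x ^ r := by
      intro x
      rw [← ENNReal.rpow_mul]
      congr 1
      field_simp
    calc ∑ i, F (w i) ^ R ≤ ∑ i, (F (fun t => φ t * w i t) ^ r +
          F (fun t => ψ t * w i t) ^ r) ^ (R / r) := Finset.sum_le_sum fun i _ => a1 i
      _ = ((∑ i, (F (fun t => φ t * w i t) ^ r +
          F (fun t => ψ t * w i t) ^ r) ^ (R / r)) ^ (1 / (R / r))) ^ (R / r) := by
          rw [inv_rpow' hρ0]
      _ ≤ (ccv μ F R u ^ r + ccv μ F R v ^ r) ^ (R / r) := by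
          refine ENNReal.rpow_le_rpow (hmink.trans (add_le_add ?_ ?_)) hρ0.le
          · rw [← hRr]
            exact ENNReal.rpow_le_rpow hφs (by positivity)
          · rw [← hRr]
            exact ENNReal.rpow_le_rpow hψs (by positivity)
  have h6 : sSup (lodec μ F R W) ≤ (ccv μ F R u ^ r + ccv μ F R v ^ r) ^ (R / r) :=
    sSup_le hmain
  calc ccv μ F R W ^ r = (sSup (lodec μ F R W)) ^ (r / R) := by
        unfold ccv
        rw [← ENNReal.rpow_mul]
        congr 1
        field_simp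
    _ ≤ ((ccv μ F R u ^ r + ccv μ F R v ^ r) ^ (R / r)) ^ (r / R) :=
        ENNReal.rpow_le_rpow h6 (by positivity)
    _ = ccv μ F R u ^ r + ccv μ F R v ^ r := by
        rw [← ENNReal.rpow_mul]
        have : R / r * (r / R) = 1 := by field_simp
        rw [this, ENNReal.rpow_one]

end LTC
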