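import Pool.Agent.LTC.Defs
import Pool.Agent.LTC.Emb
import Pool.Agent.LTC.Ren

/-!
# Banach function norms
-/

set_option autoImplicit false

open MeasureTheory
open scoped ENNReal NNReal unitInterval

namespace LTC

universe u v w

section
variable {Ω : Type w} [MeasurableSpace Ω] {μ : Measure Ω}

/-- quadratic functional of a function norm -/
noncomputable def hf (F : (Ω → ℝ≥0∞) → ℝ≥0∞) (u : Ω → ℝ≥0∞) : ℝ≥0∞ :=
  F (fun t => u t ^ (1 / 2 : ℝ)) ^ (2 : ℝ)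

variable {F : (Ω → ℝ≥0∞) → ℝ≥0∞}

theorem hf_quad (hQ : Quad μ F) : Quad μ (hf F) where
  mono := by
    intro u v hu hv huv
    unfold hf
    refine ENNReal.rpow_le_rpow (hQ.mono _ _ (hu.pow_const _) (hv.pow_const _) ?_) (by norm_num)
    filter_upwards [huv] with t ht
    exact ENNReal.rpow_le_rpow ht (by norm_num)
  smul := by
    intro c hc u hu
    unfold hf
    have hc' : c ^ (1 / 2 : ℝ) ≠ ∞ := ENNReal.rpow_ne_top_of_nonneg (by norm_num) hc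
    simp only [ENNReal.mul_rpow_of_nonneg _ _ (by norm_num : (0 : ℝ) ≤ 1 / 2)]
    rw [hQ.smul _ hc' _ (hu.pow_const _), ENNReal.mul_rpow_of_nonneg _ _ (by norm_num),
      ← ENNReal.rpow_mul, show (1 / 2 * 2 : ℝ) = 1 by norm_num, ENNReal.rpow_one]

theorem half_pow_pow {s : ℝ} (x : ℝ≥0∞) : x ^ (s / 2) = (x ^ (1 / 2 : ℝ)) ^ s := by
  rw [← ENNReal.rpow_mul]
  congr 1
  ring

theorem root_half {s : ℝ} (hs : 0 < s) (x : ℝ≥0∞) :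
    (x ^ (1 / (s / 2))) ^ (1 / 2 : ℝ) = x ^ (1 / s) := by
  rw [← ENNReal.rpow_mul]
  congr 1
  field_simp

theorem root_two {s : ℝ} (hs : 0 < s) (x : ℝ≥0∞) :
    (x ^ (1 / s)) ^ (2 : ℝ) = x ^ (1 / (s / 2)) := by
  rw [← ENNReal.rpow_mul]
  congr 1
  field_simp

theorem two_half {s : ℝ} (x : ℝ≥0∞) : (x ^ (2 : ℝ)) ^ (s / 2) = x ^ s := by
  rw [← ENNReal.rpow_mul]
  congr 1
  ring

theorem hf_conv {s : ℝ} (hs : 0 < s) (h : NConv F s) : NConv (hf F) (s / 2) := by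
  intro κ A u hu
  unfold hf
  simp only [root_half hs, two_half]
  simp only [half_pow_pow (s := s)]
  have h1 := h A (fun i t => u i t ^ (1 / 2 : ℝ)) fun i => (hu i).pow_const _
  have h2 := ENNReal.rpow_le_rpow h1 (z := 2) (by norm_num)
  rw [root_two hs] at h2
  exact h2

theorem hf_conc {s : ℝ} (hs : 0 < s) (h : NConc F s) : NConc (hf F) (s / 2) := by
  intro κ A u hu
  unfold hf
  simp only [root_half hs, two_half]
  simp only [half_pow_pow (s := s)]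
  have h1 := h A (fun i t => u i t ^ (1 / 2 : ℝ)) fun i => (hu i).pow_const _
  have h2 := ENNReal.rpow_le_rpow h1 (z := 2) (by norm_num)
  rw [root_two hs] at h2
  exact h2

omit [MeasurableSpace Ω] in
theorem hf_sq (G : Ω → ℝ≥0∞) : hf F (fun t => G t ^ 2) = F G ^ 2 := by
  unfold hf
  have e1 : (fun t => (G t ^ 2) ^ (1 / 2 : ℝ)) = G := by
    funext t
    rw [← ENNReal.rpow_natCast, ← ENNReal.rpow_mul]
    norm_num
  rw [e1, ← ENNReal.rpow_natCast]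
  norm_num

theorem FnNorm.quad (ρ : FnNorm Ω μ) : Quad μ ρ.nrm where
  mono := ρ.mono
  smul := by
    intro c hc u hu
    lift c to ℝ≥0 using hc
    exact ρ.smul c u hu

theorem FnNorm.conv_one (ρ : FnNorm Ω μ) : NConv ρ.nrm 1 := by
  refine nconv_of_pair one_pos ρ.quad.basic.zero fun u v hu hv => ?_
  simp only [ENNReal.rpow_one, div_one]
  exact ρ.add u v hu hv


/-- The regularised quadratic functional of a function norm on one side of `2`. -/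
theorem exists_quad (𝕜 : Type v) [RCLike 𝕜] (R : ℝ) (M : ℝ≥0) :
    ∃ cU K₀ C : ℝ≥0∞, cU ≠ ∞ ∧ 1 ≤ K₀ ∧ K₀ ≠ ∞ ∧ 1 ≤ C ∧ C ≠ ∞ ∧
      ∀ (Ω : Type w) [MeasurableSpace Ω] (μ : Measure Ω) (ρ : FnNorm Ω μ), ρ.OneSide R M →
        ∃ N : (Ω → ℝ≥0∞) → ℝ≥0∞, Quad μ N ∧ (UpC N cU ∨ DownC N) ∧ Kh 𝕜 N K₀ ∧
          ∀ G : Ω → ℝ≥0∞, Measurable G → N (fun t => G t ^ 2) ≤ C * ρ.nrm G ^ 2 ∧
            ρ.nrm G ^ 2 ≤ C * N (fun t => G t ^ 2) := by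
  obtain ⟨KA, hA1, hAt, hA⟩ := khA.{v, w} (max 1 (R / 2)) (le_max_left _ _)
  obtain ⟨KB, hB1, hBt, hB⟩ := khB.{v, w}
  set M' : ℝ≥0∞ := max 1 (M : ℝ≥0∞) with hM'
  have hM1 : 1 ≤ M' := le_max_left _ _
  have hMM : (M : ℝ≥0∞) ≤ M' := le_max_right _ _
  have hMt : M' ≠ ∞ := by
    rw [hM']
    exact (max_lt (by simp) (by simp)).ne
  have hMsq : M' ≤ M' ^ 2 := le_self_pow₀ hM1 (by norm_num)
  have hKh : ∀ (Ω : Type w) [MeasurableSpace Ω] (N : (Ω → ℝ≥0∞) → ℝ≥0∞) (K K' : ℝ≥0∞),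
      K ≤ K' → Kh 𝕜 N K → Kh 𝕜 N K' := by
    intro Ω _ N K K' hKK h A _ _ f hf
    obtain ⟨h1, h2⟩ := h A f hf
    exact ⟨h1.trans (by gcongr), h2.trans (by gcongr)⟩
  refine ⟨max 1 (cA (R / 2)), max KA KB, (M' ^ 2) ^ 2, ?_, le_max_of_le_left hA1, ?_,
    one_le_pow₀ (one_le_pow₀ hM1), by finiteness, ?_⟩
  · exact (max_lt (by simp) (cA_ne_top _).lt_top).ne
  · exact (max_lt hAt.lt_top hBt.lt_top).ne
  intro Ω _ μ ρ hρ
  have hQ := ρ.quad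
  -- comparison from equivalent functionals
  have hcmp : ∀ F : (Ω → ℝ≥0∞) → ℝ≥0∞, (∀ u : Ω → ℝ≥0∞, Measurable u → F u ≤ M' ^ 2 * ρ.nrm u) →
      (∀ u : Ω → ℝ≥0∞, Measurable u → ρ.nrm u ≤ M' ^ 2 * F u) →
      ∀ G : Ω → ℝ≥0∞, Measurable G → hf F (fun t => G t ^ 2) ≤ (M' ^ 2) ^ 2 * ρ.nrm G ^ 2 ∧
        ρ.nrm G ^ 2 ≤ (M' ^ 2) ^ 2 * hf F (fun t => G t ^ 2) := by
    intro F h1 h2 G hG
    rw [hf_sq, ← mul_pow, ← mul_pow]
    exact ⟨pow_le_pow_left₀ (by simp) (h1 G hG) 2, pow_le_pow_left₀ (by simp) (h2 G hG) 2⟩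
  -- convexification followed by concavification
  have hcase : ∀ s r : ℝ, 0 < s → s ≤ r → ρ.Convex s M → ρ.Concave r M →
      ∃ F : (Ω → ℝ≥0∞) → ℝ≥0∞, Quad μ F ∧ NConv F s ∧ NConc F r ∧
        (∀ u : Ω → ℝ≥0∞, Measurable u → F u ≤ M' ^ 2 * ρ.nrm u) ∧
        (∀ u : Ω → ℝ≥0∞, Measurable u → ρ.nrm u ≤ M' ^ 2 * F u) := by
    intro s r hs hsr hv hc
    have hr : 0 < r := by linarith
    have hv' : ConvM ρ.nrm s M' := fun n u hu => (hv n u hu).trans (by gcongr)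
    have hc' : ConcM ρ.nrm r M' := fun n u hu => (hc n u hu).trans (by gcongr)
    set F1 := cvx μ ρ.nrm s with hF1
    have q1 : Quad μ F1 := cvx_quad hQ hs
    have c1 : NConv F1 s := cvx_conv hQ hs
    have a1 : ∀ u : Ω → ℝ≥0∞, Measurable u → F1 u ≤ ρ.nrm u := fun u hu => cvx_le hs u hu
    have a2 : ∀ u : Ω → ℝ≥0∞, Measurable u → ρ.nrm u ≤ M' * F1 u :=
      fun u hu => le_cvx hQ hs hM1 hMt hv' u hu
    have c2 : ConcM F1 r (M' ^ 2) := by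
      intro n u hu
      calc (∑ i, F1 (u i) ^ r) ^ (1 / r) ≤ (∑ i, ρ.nrm (u i) ^ r) ^ (1 / r) := by
            gcongr with i _
            exact a1 _ (hu i)
        _ ≤ M' * ρ.nrm (fun t => (∑ i, u i t ^ r) ^ (1 / r)) := hc' n u hu
        _ ≤ M' * (M' * F1 (fun t => (∑ i, u i t ^ r) ^ (1 / r))) := by
            gcongr
            exact a2 _ (meas_fam u hu r (1 / r))
        _ = _ := by rw [← mul_assoc, pow_two]
    refine ⟨ccv μ F1 r, ccv_quad q1 hr, ccv_conv q1 hs hsr c1, ccv_conc hr, ?_, ?_⟩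
    · intro u hu
      calc ccv μ F1 r u ≤ M' ^ 2 * F1 u := ccv_le q1 hr c2 u hu
        _ ≤ M' ^ 2 * ρ.nrm u := by
          gcongr
          exact a1 u hu
    · intro u hu
      calc ρ.nrm u ≤ M' * F1 u := a2 u hu
        _ ≤ M' ^ 2 * ccv μ F1 r u := by
          gcongr
          exact le_ccv hr u hu
  rcases hρ with ⟨s, r, hs, hsr, hrR, hv, hc⟩ | ⟨s, hs1, hs2, hc⟩ | ⟨hv, hc⟩
  · obtain ⟨F, q, cv, cc, b1, b2⟩ := hcase s r (by linarith) hsr hv hc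
    have k1 : 1 < s / 2 := by linarith
    have k2 : 1 ≤ r / 2 := by linarith
    refine ⟨hf F, hf_quad q, Or.inl ?_, ?_, hcmp F b1 b2⟩
    · refine (upc (hf_quad q) k1 k2 (hf_conv (by linarith) cv) (hf_conc (by linarith) cc)).mono ?_
      exact (cA_mono (by linarith)).trans (le_max_right _ _)
    · refine hKh Ω _ KA _ (le_max_left _ _) ?_
      exact hA 𝕜 Ω μ (hf F) (hf_quad q) (s / 2) (r / 2) k1 k2
        ((by linarith : r / 2 ≤ R / 2).trans (le_max_right _ _)) (hf_conv (by linarith) cv)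
        (hf_conc (by linarith) cc)
  · have hs0 : 0 < s := by linarith
    have hc' : ConcM ρ.nrm s M' := fun n u hu => (hc n u hu).trans (by gcongr)
    have q := ccv_quad hQ hs0
    have cv : NConv (ccv μ ρ.nrm s) 1 := ccv_conv hQ one_pos hs1 ρ.conv_one
    have cc : NConc (ccv μ ρ.nrm s) s := ccv_conc hs0
    refine ⟨hf (ccv μ ρ.nrm s), hf_quad q, Or.inr ?_, ?_, hcmp _ ?_ ?_⟩
    · exact downc (hf_quad q) (by positivity) (by linarith) (hf_conc hs0 cc)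
        (hf_conv one_pos cv)
    · refine hKh Ω _ KB _ (le_max_right _ _) ?_
      exact hB 𝕜 Ω μ _ (hf_quad q) (s / 2) (by positivity) (by linarith) (hf_conc hs0 cc)
        (hf_conv one_pos cv)
    · intro u hu
      exact (ccv_le hQ hs0 hc' u hu).trans (by gcongr)
    · intro u hu
      calc ρ.nrm u ≤ 1 * ccv μ ρ.nrm s u := by
            rw [one_mul]
            exact le_ccv hs0 u hu
        _ ≤ _ := by
            gcongr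
            exact one_le_pow₀ hM1
  · obtain ⟨F, q, cv, cc, b1, b2⟩ := hcase 2 2 (by norm_num) le_rfl hv hc
    have cv' : NConv (hf F) (2 / 2) := hf_conv (by norm_num) cv
    have cc' : NConc (hf F) (2 / 2) := hf_conc (by norm_num) cc
    rw [show (2 / 2 : ℝ) = 1 by norm_num] at cv' cc'
    refine ⟨hf F, hf_quad q, Or.inl ?_, ?_, hcmp F b1 b2⟩
    · exact (upc_add cv' cc').mono (le_max_left _ _)
    · exact hKh Ω _ 1 _ (le_max_of_le_left hA1) (kh_add 𝕜 (hf_quad q) cv' cc')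

end

/-- from the public form to admissible data -/
theorem adm_of (𝕜 : Type v) [RCLike 𝕜] {ι : Type} {Ω : ι → Type w} [∀ i, MeasurableSpace (Ω i)]
    {μ : ∀ i, Measure (Ω i)} (ρ : ∀ i, FnNorm (Ω i) (μ i)) (R : ℝ) (M : ℝ≥0)
    (hρ : ∀ i, (ρ i).OneSide R M) :
    ∃ (N : ∀ i, (Ω i → ℝ≥0∞) → ℝ≥0∞) (up : ι → Prop) (cU K₀ C : ℝ≥0∞), Adm 𝕜 μ N up cU K₀ ∧
      1 ≤ C ∧ C ≠ ∞ ∧ ∀ i, ∀ G : Ω i → ℝ≥0∞, Measurable G →
        N i (fun t => G t ^ 2) ≤ C * (ρ i).nrm G ^ 2 ∧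
            (ρ i).nrm G ^ 2 ≤ C * N i (fun t => G t ^ 2) := by
  obtain ⟨cU, K₀, C, h1, h2, h3, h4, h5, h6⟩ := exists_quad.{v, w} 𝕜 R M
  choose N hq hud hkh hcmp using fun i => h6 (Ω i) (μ i) (ρ i) (hρ i)
  refine ⟨N, fun i => UpC (N i) cU, cU, K₀, C, ⟨h1, h2, h3, hq, fun k hk => hk, ?_, hkh⟩, h4, h5,
    hcmp⟩
  intro k hk
  exact (hud k).resolve_left hk

theorem lat_of {𝕜 : Type v} [RCLike 𝕜] {ι : Type} {Ω : ι → Type w} [∀ i, MeasurableSpace (Ω i)]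
    {μ : ∀ i, Measure (Ω i)} {ρ : ∀ i, FnNorm (Ω i) (μ i)} {N : ∀ i, (Ω i → ℝ≥0∞) → ℝ≥0∞}
    {C : ℝ≥0∞} (hC1 : 1 ≤ C) (hCt : C ≠ ∞)
    (hcmp : ∀ i, ∀ G : Ω i → ℝ≥0∞, Measurable G → N i (fun t => G t ^ 2) ≤ C * (ρ i).nrm G ^ 2 ∧
            (ρ i).nrm G ^ 2 ≤ C * N i (fun t => G t ^ 2))
    {E : Type u} [NormedAddCommGroup E] [NormedSpace 𝕜 E] (T : ∀ i, E →ₗ[𝕜] (Ω i →ₘ[μ i] 𝕜))
    (c : ℝ≥0)
    (hT : ∀ x : E, ∑' i, (ρ i).nrm (fun t => ‖(T i x : Ω i → 𝕜) t‖ₑ) ^ 2 ≤ c * ‖x‖ₑ ^ 2 ∧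
        ‖x‖ₑ ^ 2 ≤ c * ∑' i, (ρ i).nrm (fun t => ‖(T i x : Ω i → 𝕜) t‖ₑ) ^ 2) :
    ∃ c' : ℝ≥0∞, 1 ≤ c' ∧ c' ≠ ∞ ∧ LatEmb N T c' := by
  have hm : ∀ i (x : E), Measurable fun t => ‖(T i x : Ω i → 𝕜) t‖ₑ := fun i x =>
    (AEEqFun.measurable (T i x)).enorm
  refine ⟨C * max 1 (c : ℝ≥0∞), ?_, ?_, ?_, ?_⟩
  · calc (1 : ℝ≥0∞) = 1 * 1 := (one_mul 1).symm
      _ ≤ _ := mul_le_mul' hC1 (le_max_left _ _)
  · exact ENNReal.mul_ne_top hCt (max_lt (by simp) (by simp)).ne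
  · intro x
    calc ∑' k, N k (fun t => ‖(T k x : Ω k → 𝕜) t‖ₑ ^ 2)
        ≤ ∑' k, C * (ρ k).nrm (fun t => ‖(T k x : Ω k → 𝕜) t‖ₑ) ^ 2 :=
          ENNReal.tsum_le_tsum fun k => (hcmp k _ (hm k x)).1
      _ = C * ∑' k, (ρ k).nrm (fun t => ‖(T k x : Ω k → 𝕜) t‖ₑ) ^ 2 := ENNReal.tsum_mul_left
      _ ≤ C * (c * ‖x‖ₑ ^ 2) := by
          gcongr
          exact (hT x).1
      _ ≤ C * (max 1 (c : ℝ≥0∞) * ‖x‖ₑ ^ 2) := by
          gcongr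
          exact le_max_right _ _
      _ = _ := by rw [mul_assoc]
  · intro x
    calc ‖x‖ₑ ^ 2 ≤ c * ∑' k, (ρ k).nrm (fun t => ‖(T k x : Ω k → 𝕜) t‖ₑ) ^ 2 := (hT x).2
      _ ≤ c * ∑' k, C * N k (fun t => ‖(T k x : Ω k → 𝕜) t‖ₑ ^ 2) := by
          gcongr with k
          exact (hcmp k _ (hm k x)).2
      _ = C * c * ∑' k, N k (fun t => ‖(T k x : Ω k → 𝕜) t‖ₑ ^ 2) := by
          rw [ENNReal.tsum_mul_left]
          ring
      _ ≤ _ := by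
          gcongr
          exact le_max_right _ _

/-- The core statement. -/
theorem hilb_pub (𝕜 : Type v) [RCLike 𝕜] (Y : Type u) [NormedAddCommGroup Y]
    [NormedSpace 𝕜 Y] [CompleteSpace Y]
    (h : InOneSideSum.{u, v, w} 𝕜 (Lp Y 2 (volume : Measure I))) :
    DiestelL2.IsHilbertian 𝕜 Y := by
  obtain ⟨ι, Ω, _, μ, ρ, R, M, T, c, hρ, hT⟩ := h
  obtain ⟨N, up, cU, K₀, C, hA, hC1, hCt, hcmp⟩ := adm_of 𝕜 ρ R M hρ
  obtain ⟨c', h1, h2, h3⟩ := lat_of hC1 hCt hcmp T c hT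
  exact hilb_of_lat Y hA T c' h1 h2 h3

/-- The main theorem. -/
theorem main_lat (𝕜 : Type v) [RCLike 𝕜] (X : Type u) [NormedAddCommGroup X]
    [NormedSpace 𝕜 X] [CompleteSpace X] [TopologicalSpace.SeparableSpace X] :
    (InOneSideSum.{u, v, w} 𝕜 X ∨ InOneSideSum.{max u v, v, w} 𝕜 (StrongDual 𝕜 X) →
      (DiestelL2.Isom 𝕜 (lp (fun _ : ℕ => X) 2) (Lp X 2 (volume : Measure I)) ↔
        DiestelL2.IsHilbertian 𝕜 X)) ∧
    (InOneSideSum.{u, v, w} 𝕜 X →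
      (DLP.Embeds 𝕜 (Lp X 2 (volume : Measure I)) (lp (fun _ : ℕ => X) 2) ↔
        DiestelL2.IsHilbertian 𝕜 X)) := by
  refine ⟨?_, ?_⟩
  · rintro (⟨ι, Ω, _, μ, ρ, R, M, T, c, hρ, hT⟩ | ⟨ι, Ω, _, μ, ρ, R, M, T, c, hρ, hT⟩)
    · obtain ⟨N, up, cU, K₀, C, hA, hC1, hCt, hcmp⟩ := adm_of 𝕜 ρ R M hρ
      obtain ⟨c', h1, h2, h3⟩ := lat_of hC1 hCt hcmp T c hT
      exact (diestel_X X hA T c' h1 h2 h3).1
    · obtain ⟨N, up, cU, K₀, C, hA, hC1, hCt, hcmp⟩ := adm_of 𝕜 ρ R M hρ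
      obtain ⟨c', h1, h2, h3⟩ := lat_of hC1 hCt hcmp T c hT
      exact diestel_dual X hA T c' h1 h2 h3
  · rintro ⟨ι, Ω, _, μ, ρ, R, M, T, c, hρ, hT⟩
    obtain ⟨N, up, cU, K₀, C, hA, hC1, hCt, hcmp⟩ := adm_of 𝕜 ρ R M hρ
    obtain ⟨c', h1, h2, h3⟩ := lat_of hC1 hCt hcmp T c hT
    exact (diestel_X X hA T c' h1 h2 h3).2

end LTC
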