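import Pool.Agent.LTC.ClsB
import Pool.Agent.HLP.Khi2

/-!
# Khintchine's inequality for convex and concave functionals
-/

set_option autoImplicit false

open MeasureTheory
open scoped ENNReal NNReal

namespace LTC

open DLP (rsum rad sgn)
open DLP.SQL_ (ofReal_mean enorm_sq_eq card_mean enorm_ofReal sq_rpow)

universe v w

/-- weight of one choice of signs -/
noncomputable def cs (A : Type) [Fintype A] : ℝ≥0∞ := (2 ^ (Fintype.card A) : ℝ≥0∞)⁻¹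

theorem cs_ne_top (A : Type) [Fintype A] : cs A ≠ ∞ := by
  unfold cs
  exact ENNReal.inv_ne_top.2 (by positivity)

theorem pt_ort (𝕜 : Type v) [RCLike 𝕜] (A : Type) [Fintype A] [DecidableEq A] (x : A → 𝕜) :
    ∑ a, ‖x a‖ₑ ^ 2 = ∑ ε : A → Bool, cs A * ‖rsum x ε‖ₑ ^ 2 := by
  have h3 := DLP.ort.{v} 𝕜 A x
  have h4 := congrArg ENNReal.ofReal h3
  rw [ofReal_mean _ fun ε => by positivity, ENNReal.ofReal_sum_of_nonneg fun a _ => by positivity]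
    at h4
  simp only [enorm_sq_eq]
  rw [← h4]
  rfl

theorem pt_up (R₀ : ℝ) (hR₀ : 1 ≤ R₀) : ∃ K : ℝ≥0∞, 1 ≤ K ∧ K ≠ ∞ ∧
    ∀ R : ℝ, 1 ≤ R → R ≤ R₀ →
    ∀ (𝕜 : Type v) [RCLike 𝕜] (A : Type) [Fintype A] [DecidableEq A] (x : A → 𝕜),
      ∑ ε : A → Bool, cs A * (‖rsum x ε‖ₑ ^ 2) ^ R ≤ K * (∑ a, ‖x a‖ₑ ^ 2) ^ R := by
  obtain ⟨K, hK1, hK⟩ := DLP.khi.{v} (2 * R₀) (by linarith)
  refine ⟨ENNReal.ofReal K, by rw [ENNReal.one_le_ofReal]; exact hK1, ENNReal.ofReal_ne_top, ?_⟩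
  intro R hR hRR 𝕜 _ A _ _ x
  have h := hK 𝕜 (2 * R) (by linarith) (by linarith) A x
  have h2 := ENNReal.ofReal_le_ofReal h
  rw [show (2 * R) / 2 = R by ring, ENNReal.ofReal_mul (by linarith),
    ofReal_mean _ fun ε => by positivity,
    ← ENNReal.ofReal_rpow_of_nonneg (Finset.sum_nonneg fun a _ => by positivity) (by linarith),
    ENNReal.ofReal_sum_of_nonneg fun a _ => by positivity] at h2
  simp only [← enorm_sq_eq] at h2
  refine le_trans (le_of_eq ?_) h2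
  refine Finset.sum_congr rfl fun ε _ => ?_
  unfold cs
  congr 1
  rw [← enorm_ofReal _ _ (by linarith), ← ENNReal.rpow_natCast, ← ENNReal.rpow_mul]
  norm_num

theorem pt_low : ∃ K : ℝ≥0∞, 1 ≤ K ∧ K ≠ ∞ ∧
    ∀ (𝕜 : Type v) [RCLike 𝕜] (A : Type) [Fintype A] [DecidableEq A] (x : A → 𝕜),
      (∑ a, ‖x a‖ₑ ^ 2) ^ (1 / 2 : ℝ) ≤
        K * ∑ ε : A → Bool, cs A * (‖rsum x ε‖ₑ ^ 2) ^ (1 / 2 : ℝ) := by
  obtain ⟨K, hK1, hK⟩ := HLP.khi_low.{v}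
  refine ⟨ENNReal.ofReal K, by rw [ENNReal.one_le_ofReal]; exact hK1, ENNReal.ofReal_ne_top, ?_⟩
  intro 𝕜 _ A _ _ x
  have h := hK 𝕜 1 (by norm_num) (by norm_num) A x
  have h2 := ENNReal.ofReal_le_ofReal h
  rw [ENNReal.ofReal_mul (by linarith),
    ofReal_mean _ fun ε => by positivity,
    ← ENNReal.ofReal_rpow_of_nonneg (Finset.sum_nonneg fun a _ => by positivity) (by norm_num),
    ENNReal.ofReal_sum_of_nonneg fun a _ => by positivity] at h2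
  simp only [← enorm_sq_eq] at h2
  refine h2.trans (le_of_eq ?_)
  congr 1
  refine Finset.sum_congr rfl fun ε _ => ?_
  unfold cs
  congr 1
  rw [← enorm_ofReal _ _ (by norm_num), sq_rpow]

variable {Ω : Type w} [MeasurableSpace Ω] {μ : Measure Ω} {N : (Ω → ℝ≥0∞) → ℝ≥0∞}

/-- The square function and the Rademacher average are comparable. -/
def Kh (𝕜 : Type v) [RCLike 𝕜] (N : (Ω → ℝ≥0∞) → ℝ≥0∞) (K : ℝ≥0∞) : Prop :=
  ∀ (A : Type) [Fintype A] [DecidableEq A] (f : A → Ω → 𝕜), (∀ a, Measurable (f a)) →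
    N (fun t => ∑ a, ‖f a t‖ₑ ^ 2) ≤
        K * ∑ ε : A → Bool, cs A * N (fun t => ‖rsum (fun a => f a t) ε‖ₑ ^ 2) ∧
      ∑ ε : A → Bool, cs A * N (fun t => ‖rsum (fun a => f a t) ε‖ₑ ^ 2) ≤
        K * N (fun t => ∑ a, ‖f a t‖ₑ ^ 2)

theorem meas_rsum {𝕜 : Type v} [RCLike 𝕜] {A : Type} [Fintype A] (f : A → Ω → 𝕜)
    (hf : ∀ a, Measurable (f a)) (ε : A → Bool) :
    Measurable fun t => ‖rsum (fun a => f a t) ε‖ₑ ^ 2 := by
  refine Measurable.pow_const (Measurable.enorm ?_) 2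
  unfold rsum
  refine Finset.measurable_fun_sum _ fun a _ => ?_
  unfold sgn
  split_ifs
  · exact hf a
  · exact (hf a).neg

theorem meas_sqs {𝕜 : Type v} [RCLike 𝕜] {A : Type} [Fintype A] (f : A → Ω → 𝕜)
    (hf : ∀ a, Measurable (f a)) : Measurable fun t => ∑ a, ‖f a t‖ₑ ^ 2 :=
  Finset.measurable_fun_sum _ fun a _ => ((hf a).enorm).pow_const 2

theorem cs_sum (A : Type) [Fintype A] [DecidableEq A] : ∑ _ε : A → Bool, cs A = 1 := card_mean A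

theorem khA (R₀ : ℝ) (hR₀ : 1 ≤ R₀) : ∃ K : ℝ≥0∞, 1 ≤ K ∧ K ≠ ∞ ∧
    ∀ (𝕜 : Type v) [RCLike 𝕜] (Ω : Type w) [MeasurableSpace Ω] (μ : Measure Ω)
      (N : (Ω → ℝ≥0∞) → ℝ≥0∞), Quad μ N → ∀ r R : ℝ, 1 < r → 1 ≤ R → R ≤ R₀ → NConv N r →
        NConc N R → Kh 𝕜 N K := by
  obtain ⟨K, hK1, hKt, hK⟩ := pt_up.{v} R₀ hR₀
  refine ⟨K, hK1, hKt, ?_⟩
  intro 𝕜 _ Ω _ μ N hQ r R hr hR hRR hv hc A _ _ f hf
  have hR0 : 0 < R := by linarith
  refine ⟨?_, ?_⟩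
  · have h1 : N (fun t => ∑ a, ‖f a t‖ₑ ^ 2) ≤
        ∑ ε : A → Bool, N (fun t => cs A * ‖rsum (fun a => f a t) ε‖ₑ ^ 2) := by
      have h2 := subA hQ hr hv Finset.univ
        (fun (ε : A → Bool) t => cs A * ‖rsum (fun a => f a t) ε‖ₑ ^ 2)
        fun ε => (meas_rsum f hf ε).const_mul _
      simp only [← pt_ort] at h2
      exact h2
    simp only [hQ.smul _ (cs_ne_top A) _ (meas_rsum f hf _)] at h1
    refine h1.trans ?_
    calc _ = 1 * ∑ ε : A → Bool, cs A * N (fun t => ‖rsum (fun a => f a t) ε‖ₑ ^ 2) :=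
          (one_mul _).symm
      _ ≤ _ := by gcongr
  · refine (mean_le Finset.univ (fun _ => cs A)
      (fun ε : A → Bool => N (fun t => ‖rsum (fun a => f a t) ε‖ₑ ^ 2)) (cs_sum A) hR).trans ?_
    refine (wconc hQ hR0 hc Finset.univ (fun (ε : A → Bool) t => ‖rsum (fun a => f a t) ε‖ₑ ^ 2)
      (meas_rsum f hf) (fun _ => cs A) fun _ => cs_ne_top A).trans ?_
    rw [← hQ.smul K hKt _ (meas_sqs f hf)]
    refine hQ.basic.mono _ _ (meas_mix Finset.univ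
      (fun (ε : A → Bool) t => ‖rsum (fun a => f a t) ε‖ₑ ^ 2) (meas_rsum f hf) (fun _ => cs A)
      R (1 / R)) ((meas_sqs f hf).const_mul _) fun t => ?_
    calc _ ≤ (K * (∑ a, ‖f a t‖ₑ ^ 2) ^ R) ^ (1 / R) :=
          ENNReal.rpow_le_rpow (hK R hR hRR 𝕜 A fun a => f a t) (by positivity)
      _ = K ^ (1 / R) * ∑ a, ‖f a t‖ₑ ^ 2 := by
          rw [ENNReal.mul_rpow_of_nonneg _ _ (by positivity), ← ENNReal.rpow_mul,
            mul_one_div_cancel hR0.ne', ENNReal.rpow_one]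
      _ ≤ K * ∑ a, ‖f a t‖ₑ ^ 2 := by
          gcongr
          calc K ^ (1 / R) ≤ K ^ (1 : ℝ) := by
                apply ENNReal.rpow_le_rpow_of_exponent_le hK1
                rw [div_le_iff₀ hR0]
                linarith
            _ = K := ENNReal.rpow_one K

theorem kh_add (𝕜 : Type v) [RCLike 𝕜] (hQ : Quad μ N) (hv : NConv N 1) (hc : NConc N 1) :
    Kh 𝕜 N 1 := by
  intro A _ _ f hf
  have h1 := hv Finset.univ
    (fun (ε : A → Bool) t => cs A * ‖rsum (fun a => f a t) ε‖ₑ ^ 2)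
    fun ε => (meas_rsum f hf ε).const_mul _
  have h2 := hc Finset.univ
    (fun (ε : A → Bool) t => cs A * ‖rsum (fun a => f a t) ε‖ₑ ^ 2)
    fun ε => (meas_rsum f hf ε).const_mul _
  simp only [ENNReal.rpow_one, div_one, ← pt_ort] at h1 h2
  simp only [hQ.smul _ (cs_ne_top A) _ (meas_rsum f hf _)] at h1 h2
  rw [one_mul, one_mul]
  exact ⟨h1, h2⟩

theorem khB : ∃ K : ℝ≥0∞, 1 ≤ K ∧ K ≠ ∞ ∧
    ∀ (𝕜 : Type v) [RCLike 𝕜] (Ω : Type w) [MeasurableSpace Ω] (μ : Measure Ω)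
      (N : (Ω → ℝ≥0∞) → ℝ≥0∞), Quad μ N → ∀ p : ℝ, 0 < p → p < 1 → NConc N p →
        NConv N (1 / 2) → Kh 𝕜 N K := by
  obtain ⟨K, hK1, hKt, hK⟩ := pt_low.{v}
  have hK2t : K ^ (1 / (1 / 2 : ℝ)) ≠ ∞ := ENNReal.rpow_ne_top_of_nonneg (by norm_num) hKt
  have hK21 : 1 ≤ K ^ (1 / (1 / 2 : ℝ)) := ENNReal.one_le_rpow hK1 (by norm_num)
  refine ⟨K ^ (1 / (1 / 2 : ℝ)), hK21, hK2t, ?_⟩
  intro 𝕜 _ Ω _ μ N hQ p hp0 hp1 hc hh A _ _ f hf
  refine ⟨?_, ?_⟩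
  · have hm := meas_mix Finset.univ
      (fun (ε : A → Bool) t => ‖rsum (fun a => f a t) ε‖ₑ ^ 2) (meas_rsum f hf) (fun _ => cs A)
      (1 / 2) (1 / (1 / 2))
    have h1 : N (fun t => ∑ a, ‖f a t‖ₑ ^ 2) ≤ N (fun t => K ^ (1 / (1 / 2 : ℝ)) *
        (∑ ε : A → Bool, cs A * (‖rsum (fun a => f a t) ε‖ₑ ^ 2) ^ (1 / 2 : ℝ)) ^
          (1 / (1 / 2 : ℝ))) := by
      refine hQ.basic.mono _ _ (meas_sqs f hf) (hm.const_mul _) fun t => ?_
      calc ∑ a, ‖f a t‖ₑ ^ 2 = ((∑ a, ‖f a t‖ₑ ^ 2) ^ (1 / 2 : ℝ)) ^ (1 / (1 / 2 : ℝ)) := by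
            rw [← ENNReal.rpow_mul, mul_one_div_cancel (by norm_num), ENNReal.rpow_one]
        _ ≤ (K * ∑ ε : A → Bool, cs A * (‖rsum (fun a => f a t) ε‖ₑ ^ 2) ^ (1 / 2 : ℝ)) ^
            (1 / (1 / 2 : ℝ)) :=
            ENNReal.rpow_le_rpow (hK 𝕜 A fun a => f a t) (by norm_num)
        _ = _ := ENNReal.mul_rpow_of_nonneg _ _ (by norm_num)
    rw [hQ.smul _ hK2t _ hm] at h1
    refine h1.trans ?_
    gcongr
    refine (wconv hQ (by norm_num) hh Finset.univ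
      (fun (ε : A → Bool) t => ‖rsum (fun a => f a t) ε‖ₑ ^ 2)
      (meas_rsum f hf) (fun _ => cs A) fun _ => cs_ne_top A).trans ?_
    exact mean_ge Finset.univ (fun _ => cs A)
      (fun ε : A → Bool => N (fun t => ‖rsum (fun a => f a t) ε‖ₑ ^ 2)) (cs_sum A) (by norm_num)
      (by norm_num)
  · have h2 := supB hQ hp0 hp1 hc Finset.univ
      (fun (ε : A → Bool) t => cs A * ‖rsum (fun a => f a t) ε‖ₑ ^ 2)
      fun ε => (meas_rsum f hf ε).const_mul _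
    simp only [← pt_ort] at h2
    simp only [hQ.smul _ (cs_ne_top A) _ (meas_rsum f hf _)] at h2
    refine h2.trans ?_
    calc _ = 1 * N (fun t => ∑ a, ‖f a t‖ₑ ^ 2) := (one_mul _).symm
      _ ≤ _ := by gcongr

end LTC
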