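import Pool.Agent.HLP.Tools

/-!
# Abstract coordinate functionals and energy systems

`MP_19fa38_an`, Banach lattices strictly on one side of `2`.
-/

set_option autoImplicit false

open MeasureTheory
open scoped ENNReal

namespace LTC

open HLP (avg cells mem_cells sum_cells sum_cells_cells half_pow sum_half esc pigeon tele_down
  tele_up ext ext_val sum_fin_cells avg_sum avg_tsum avg_mul avg_coord avg_mono avg_const
  avg_le_const)

universe w

/-- basic properties of a coordinate functional -/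
structure Basic {Ω : Type w} [MeasurableSpace Ω] (N : (Ω → ℝ≥0∞) → ℝ≥0∞) : Prop where
  zero : N (fun _ => 0) = 0
  mono : ∀ u v : Ω → ℝ≥0∞, Measurable u → Measurable v → (∀ t, u t ≤ v t) → N u ≤ N v

/-- functionals of the first kind: subadditive, with an upper selection inequality -/
structure UpC {Ω : Type w} [MeasurableSpace Ω] (N : (Ω → ℝ≥0∞) → ℝ≥0∞) (cU : ℝ≥0∞) : Prop where
  sub : ∀ {κ : Type} (s : Finset κ) (u : κ → Ω → ℝ≥0∞), (∀ i, Measurable (u i)) →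
    N (fun t => ∑ i ∈ s, u i t) ≤ ∑ i ∈ s, N (u i)
  sel : ∀ n : ℕ, 1 ≤ n → ∃ K : ℝ≥0∞, K ≠ ∞ ∧ ∀ {κ : Type} [Fintype κ] [DecidableEq κ]
    (U : Fin n → κ → Ω → ℝ≥0∞), (∀ i l, Measurable (U i l)) → ∀ m : ℝ≥0∞, m ≠ ∞ →
    N (fun t => ∑ l, ∑ i, U i l t) ≠ ∞ → (∀ l, N (fun t => ∑ i, U i l t) ≤ m) →
    (avg n fun σ : κ → Fin n => N (fun t => ∑ l, U (σ l) l t)) ≤
      cU * ((n : ℝ≥0∞)⁻¹ * N (fun t => ∑ l, ∑ i, U i l t)) +
        K * ((∑ l, N (fun t => ∑ i, U i l t)) - N (fun t => ∑ l, ∑ i, U i l t)) + K * m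

/-- functionals of the second kind: superadditive, with a lower selection inequality -/
structure DownC {Ω : Type w} [MeasurableSpace Ω] (N : (Ω → ℝ≥0∞) → ℝ≥0∞) : Prop where
  sup : ∀ {κ : Type} (s : Finset κ) (u : κ → Ω → ℝ≥0∞), (∀ i, Measurable (u i)) →
    ∑ i ∈ s, N (u i) ≤ N (fun t => ∑ i ∈ s, u i t)
  quasi : ∀ {κ : Type} (s : Finset κ) (u : κ → Ω → ℝ≥0∞), (∀ i, Measurable (u i)) →
    N (fun t => ∑ i ∈ s, u i t) ≤ s.card * ∑ i ∈ s, N (u i)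
  sel : ∀ n : ℕ, 1 ≤ n → ∃ K : ℝ≥0∞, K ≠ ∞ ∧ ∀ {κ : Type} [Fintype κ] [DecidableEq κ]
    (U : Fin n → κ → Ω → ℝ≥0∞), (∀ i l, Measurable (U i l)) → ∀ m : ℝ≥0∞, m ≠ ∞ →
    N (fun t => ∑ l, ∑ i, U i l t) ≠ ∞ → (∀ l, N (fun t => ∑ i, U i l t) ≤ m) →
    N (fun t => ∑ l, ∑ i, U i l t) ≤
      64 * n * (avg n fun σ : κ → Fin n => N (fun t => ∑ l, U (σ l) l t)) +
        K * (N (fun t => ∑ l, ∑ i, U i l t) - ∑ l, N (fun t => ∑ i, U i l t)) + K * m

theorem DownC.quasi2 {Ω : Type w} [MeasurableSpace Ω] {N : (Ω → ℝ≥0∞) → ℝ≥0∞} (h : DownC N)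
    {u v : Ω → ℝ≥0∞} (hu : Measurable u) (hv : Measurable v) :
    N (fun t => u t + v t) ≤ 2 * N u + 2 * N v := by
  have h1 := h.quasi (Finset.univ : Finset Bool) (fun b => Bool.rec v u b) (by
    intro b
    cases b
    · exact hv
    · exact hu)
  rw [Finset.card_univ, Fintype.card_bool, Fintype.sum_bool] at h1
  simp only [Fintype.sum_bool] at h1
  calc _ ≤ _ := h1
    _ = _ := by
      rw [mul_add]
      norm_num

/-- An energy system: `M s i j β k` is the square function, in the `k`-th coordinate, of the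
family of the vectors `1_b x_i`, `b` a cell of level `s` contained in the cell `β` of level `j`. -/
structure Sys {ι : Type} {Ω : ι → Type w} [∀ k, MeasurableSpace (Ω k)]
    (N : ∀ k, (Ω k → ℝ≥0∞) → ℝ≥0∞) (n : ℕ) [NeZero n] (D C : ℝ≥0∞) where
  M : ℕ → Fin n → ℕ → ℕ → ∀ k, Ω k → ℝ≥0∞
  meas : ∀ s i j β k, Measurable (M s i j β k)
  split : ∀ s i j j' β k t, j ≤ j' → j' ≤ s → M s i j β k t = ∑ l ∈ cells j j' β, M s i j' l k t
  one_le : ∀ s i j β, β < 2 ^ j → j ≤ s →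
    ∑' k, N k (M s i j β k) ≤ C * (2⁻¹ : ℝ≥0∞) ^ j
  shift_le : ∀ (s : Fin n → ℕ) (a : Fin n) (j β : ℕ), β < 2 ^ j → (∀ r, j ≤ s r) →
    ∑' k, N k (fun t => ∑ r, M (s r) (r + a) j β k t) ≤ C * ((2⁻¹ : ℝ≥0∞) ^ j * D)
  shift_ge : ∀ (s : Fin n → ℕ) (a : Fin n) (j β : ℕ), β < 2 ^ j → (∀ r, j ≤ s r) →
    (2⁻¹ : ℝ≥0∞) ^ j * D ≤ C * ∑' k, N k (fun t => ∑ r, M (s r) (r + a) j β k t)
  full_le : ∀ (s : Fin n → ℕ) (j β : ℕ), β < 2 ^ j → (∀ r, j ≤ s r) →
    ∑' k, N k (fun t => ∑ r, ∑ i, M (s r) i j β k t) ≤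
      C * ((2⁻¹ : ℝ≥0∞) ^ j * (n * D))
  sel_le : ∀ (s : Fin n → ℕ) (σ : ℕ → Fin n) (j j' β : ℕ), β < 2 ^ j → j ≤ j' → (∀ r, j' ≤ s r) →
    ∑' k, N k (fun t => ∑ l ∈ cells j j' β, ∑ r, M (s r) (σ l) j' l k t) ≤
      C * ((2⁻¹ : ℝ≥0∞) ^ j * n)
  sel_ge : ∀ (s : Fin n → ℕ) (σ : ℕ → Fin n) (j j' β : ℕ), β < 2 ^ j → j ≤ j' → (∀ r, j' ≤ s r) →
    (2⁻¹ : ℝ≥0∞) ^ j * n ≤
      C * ∑' k, N k (fun t => ∑ l ∈ cells j j' β, ∑ r, M (s r) (σ l) j' l k t)

namespace Sys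

variable {ι : Type} {Ω : ι → Type w} [∀ k, MeasurableSpace (Ω k)]
    {N : ∀ k, (Ω k → ℝ≥0∞) → ℝ≥0∞} {n : ℕ} [NeZero n] {D C : ℝ≥0∞}
    (S : Sys N n D C)

/-- shifted family -/
noncomputable def G (s : Fin n → ℕ) (a : Fin n) (j β : ℕ) (k : ι) : Ω k → ℝ≥0∞ :=
  fun t => ∑ r, S.M (s r) (r + a) j β k t

/-- full family -/
noncomputable def W (s : Fin n → ℕ) (j β : ℕ) (k : ι) : Ω k → ℝ≥0∞ :=
  fun t => ∑ r, ∑ i, S.M (s r) i j β k t

/-- level sums -/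
noncomputable def e (s : ℕ) (i : Fin n) (j : ℕ) (k : ι) : ℝ≥0∞ :=
  ∑ β ∈ Finset.range (2 ^ j), N k (S.M s i j β k)

theorem meas_G (s : Fin n → ℕ) (a : Fin n) (j β : ℕ) (k : ι) : Measurable (S.G s a j β k) :=
  Finset.measurable_fun_sum _ fun _ _ => S.meas _ _ _ _ _

theorem meas_W (s : Fin n → ℕ) (j β : ℕ) (k : ι) : Measurable (S.W s j β k) :=
  Finset.measurable_fun_sum _ fun _ _ => Finset.measurable_fun_sum _ fun _ _ => S.meas _ _ _ _ _

theorem sum_G (s : Fin n → ℕ) (j β : ℕ) (k : ι) (t : Ω k) :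
    ∑ a, S.G s a j β k t = S.W s j β k t := by
  unfold G W
  rw [Finset.sum_comm]
  refine Finset.sum_congr rfl fun r _ => ?_
  exact Equiv.sum_comp (Equiv.addLeft r) fun i => S.M (s r) i j β k t

theorem split_W (s : Fin n → ℕ) (j j' β : ℕ) (k : ι) (t : Ω k) (hj : j ≤ j')
    (hs : ∀ r, j' ≤ s r) : S.W s j β k t = ∑ l ∈ cells j j' β, S.W s j' l k t := by
  unfold W
  symm
  rw [Finset.sum_comm]
  refine Finset.sum_congr rfl fun r _ => ?_
  rw [Finset.sum_comm]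
  refine Finset.sum_congr rfl fun i _ => ?_
  exact (S.split _ _ _ _ _ _ _ hj (hs r)).symm

theorem e_sum (s : ℕ) (i : Fin n) (j : ℕ) (hj : j ≤ s) : ∑' k, S.e s i j k ≤ C := by
  unfold e
  rw [Summable.tsum_finsetSum fun _ _ => ENNReal.summable]
  refine (Finset.sum_le_sum fun β hβ => S.one_le s i j β (Finset.mem_range.1 hβ) hj).trans ?_
  rw [Finset.sum_congr rfl fun β _ => mul_comm C _, sum_half]

theorem e_up (k : ι) {cU : ℝ≥0∞} (hk : UpC (N k) cU) (s : ℕ) (i : Fin n) (j j' : ℕ)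
    (hj : j ≤ j') (hs : j' ≤ s) : S.e s i j k ≤ S.e s i j' k := by
  unfold e
  rw [← sum_cells hj]
  refine Finset.sum_le_sum fun β _ => ?_
  have h := hk.sub (cells j j' β) (fun l => S.M s i j' l k)
    fun l => (S.meas _ _ _ _ _)
  refine le_trans (le_of_eq ?_) h
  congr 1
  funext t
  exact S.split _ _ _ _ _ _ _ hj hs

theorem e_down (k : ι) (hk : DownC (N k)) (s : ℕ) (i : Fin n) (j j' : ℕ)
    (hj : j ≤ j') (hs : j' ≤ s) : S.e s i j' k ≤ S.e s i j k := by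
  unfold e
  rw [← sum_cells hj]
  refine Finset.sum_le_sum fun β _ => ?_
  have h := hk.sup (cells j j' β)
    (fun l => S.M s i j' l k) fun l => (S.meas _ _ _ _ _)
  refine h.trans (le_of_eq ?_)
  congr 1
  funext t
  exact (S.split _ _ _ _ _ _ _ hj hs).symm

/-- levels and blocks -/
theorem levels (up : ι → Prop) {cU : ℝ≥0∞} (hup : ∀ k, up k → UpC (N k) cU)
    (hdown : ∀ k, ¬ up k → DownC (N k)) (hC : C ≠ ∞) (η : ℝ≥0∞) (hη : η ≠ 0) :
    ∃ F : Finset ι, ∀ J : ℕ, ∃ (s : Fin n → ℕ) (L : Fin n → Finset ι), (∀ r, J ≤ s r) ∧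
      (∀ r, Disjoint (L r) F) ∧ (∀ r r', r ≠ r' → Disjoint (L r) (L r')) ∧
      ∀ r i j, j ≤ J → ∀ t : Finset ι, (∀ k ∈ t, k ∉ F ∧ k ∉ L r) →
        ∑ k ∈ t, S.e (s r) i j k ≤ η := by
  obtain ⟨F, hF⟩ := esc n S.e C hC (fun s i j hj => S.e_sum s i j hj) up
    (fun k hk s i j j' hj hs => S.e_up k (hup k hk) s i j j' hj hs)
    (fun k hk s i j j' hj hs => S.e_down k (hdown k hk) s i j j' hj hs) η hη
  refine ⟨F, fun J => ?_⟩
  obtain ⟨s, L, h1, h2, h3, h4⟩ := hF J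
  exact ⟨fun r => s r, fun r => L r, fun r => h1 _, fun r => h2 _,
    fun r r' hr => h3 _ _ (fun h => hr (Fin.ext h)), fun r i j hj => h4 r i j hj⟩

end Sys

/-- sums of few large and many small pieces -/
theorem block {Ω : Type w} [MeasurableSpace Ω] {N : (Ω → ℝ≥0∞) → ℝ≥0∞} (h : DownC N)
    {n : ℕ} (hn : 1 ≤ n) (u : Fin n → Ω → ℝ≥0∞) (hu : ∀ r, Measurable (u r))
    (P : Fin n → Prop) [DecidablePred P] (hP : ∀ r r', P r → P r' → r = r') :
    N (fun t => ∑ r, u r t) ≤ ∑ r, (if P r then 2 else 2 * (n : ℝ≥0∞)) * N (u r) := by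
  classical
  by_cases hex : ∃ r, P r
  · obtain ⟨r0, hr0⟩ := hex
    have e1 : (fun t => ∑ r, u r t) = fun t => u r0 t + ∑ r ∈ Finset.univ.erase r0, u r t := by
      funext t
      exact (Finset.add_sum_erase Finset.univ (fun r => u r t) (Finset.mem_univ r0)).symm
    rw [e1]
    have h1 := h.quasi2 (hu r0)
      (v := fun t => ∑ r ∈ Finset.univ.erase r0, u r t)
      (Finset.measurable_fun_sum _ fun r _ => (hu r))
    refine h1.trans ?_
    have h2 := h.quasi (Finset.univ.erase r0) u hu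
    rw [← Finset.add_sum_erase _ _ (Finset.mem_univ r0), if_pos hr0]
    refine add_le_add le_rfl ?_
    calc 2 * N (fun t => ∑ r ∈ Finset.univ.erase r0, u r t)
        ≤ 2 * ((Finset.univ.erase r0).card * ∑ r ∈ Finset.univ.erase r0, N (u r)) := by
          gcongr
      _ ≤ 2 * ((n : ℝ≥0∞) * ∑ r ∈ Finset.univ.erase r0, N (u r)) := by
          gcongr
          have : (Finset.univ.erase r0).card ≤ n := by
            rw [Finset.card_erase_of_mem (Finset.mem_univ _), Finset.card_univ, Fintype.card_fin]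
            omega
          exact_mod_cast this
      _ = ∑ r ∈ Finset.univ.erase r0, 2 * (n : ℝ≥0∞) * N (u r) := by
          rw [← mul_assoc, Finset.mul_sum]
      _ ≤ _ := by
          refine Finset.sum_le_sum fun r hr => ?_
          rw [if_neg]
          intro hr'
          exact (Finset.mem_erase.1 hr).1 (hP r r0 hr' hr0)
  · push Not at hex
    have h2 := h.quasi Finset.univ u hu
    refine h2.trans ?_
    rw [Finset.card_univ, Fintype.card_fin, Finset.mul_sum]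
    refine Finset.sum_le_sum fun r _ => ?_
    rw [if_neg (hex r)]
    gcongr
    calc (n : ℝ≥0∞) = 1 * n := (one_mul _).symm
      _ ≤ 2 * n := by gcongr; norm_num

end LTC
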