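import Pool.Agent.LTC.Sys

/-!
# The type 2 direction
-/

set_option autoImplicit false

open MeasureTheory
open scoped ENNReal

namespace LTC

open HLP (avg cells mem_cells sum_cells sum_cells_cells half_pow sum_half esc pigeon tele_down
  tele_up ext ext_val sum_fin_cells avg_sum avg_tsum avg_mul avg_coord avg_mono avg_const
  avg_le_const)

universe w

namespace Sys

variable {ι : Type} {Ω : ι → Type w} [∀ k, MeasurableSpace (Ω k)]
    {N : ∀ k, (Ω k → ℝ≥0∞) → ℝ≥0∞} {n : ℕ} [NeZero n] {D C : ℝ≥0∞}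
    (S : Sys N n D C)

/-- random selection in a cell -/
noncomputable def Y (s : Fin n → ℕ) (σ : ℕ → Fin n) (j j' β : ℕ) (k : ι) : Ω k → ℝ≥0∞ :=
  fun t => ∑ l ∈ cells j j' β, ∑ r, S.M (s r) (σ l) j' l k t

theorem tsum_cells (j : ℕ) (f : ℕ → ι → ℝ≥0∞) :
    ∑ β ∈ Finset.range (2 ^ j), ∑' k, f β k = ∑' k, ∑ β ∈ Finset.range (2 ^ j), f β k :=
  (Summable.tsum_finsetSum fun _ _ => ENNReal.summable).symm

theorem G_bound (up : ι → Prop) [DecidablePred up] {cU : ℝ≥0∞}
    (hU : ∀ k, up k → UpC (N k) cU) (hDn : ∀ k, ¬ up k → DownC (N k)) (hC1 : 1 ≤ C) (F : Finset ι) (J : ℕ) (s : Fin n → ℕ)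
    (L : Fin n → Finset ι) (hs : ∀ r, J ≤ s r) (hLL : ∀ r r', r ≠ r' → Disjoint (L r) (L r'))
    (hL : ∀ r i j, j ≤ J → ∀ t : Finset ι, (∀ k ∈ t, k ∉ F ∧ k ∉ L r) →
        ∑ k ∈ t, S.e (s r) i j k ≤ (n : ℝ≥0∞)⁻¹) (a : Fin n) (j : ℕ) (hj : j ≤ J)
    (T : Finset ι) :
    ∑ k ∈ T, ∑ β ∈ Finset.range (2 ^ j), N k (S.G s a j β k) ≤
      5 * n * C + ∑ k ∈ F.filter (fun k => ¬ up k), ∑ β ∈ Finset.range (2 ^ j),
        N k (S.G s a j β k) := by
  classical
  have hn : 1 ≤ n := Nat.one_le_iff_ne_zero.2 (NeZero.ne n)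
  have hn0 : (n : ℝ≥0∞) ≠ 0 := by exact_mod_cast NeZero.ne n
  have hesum : ∀ r i (t : Finset ι), ∑ k ∈ t, S.e (s r) i j k ≤ C := fun r i t =>
    (ENNReal.sum_le_tsum t).trans (S.e_sum (s r) i j (hj.trans (hs r)))
  have h1 : ∑ k ∈ T with up k, ∑ β ∈ Finset.range (2 ^ j),
      N k (S.G s a j β k) ≤ n * C := by
    calc _ ≤ ∑ k ∈ T with up k, ∑ r, S.e (s r) (r + a) j k := by
          refine Finset.sum_le_sum fun k hk => ?_
          unfold e
          rw [Finset.sum_comm]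
          refine Finset.sum_le_sum fun β _ => ?_
          exact (hU k (Finset.mem_filter.1 hk).2).sub Finset.univ
            (fun r => S.M (s r) (r + a) j β k) fun r => (S.meas _ _ _ _ _)
      _ = ∑ r, ∑ k ∈ T with up k, S.e (s r) (r + a) j k := Finset.sum_comm
      _ ≤ ∑ _r : Fin n, C := Finset.sum_le_sum fun r _ => hesum r _ _
      _ = n * C := by simp
  have h2 : ∑ k ∈ (T.filter fun k => ¬ up k) with k ∉ F, ∑ β ∈ Finset.range (2 ^ j),
      N k (S.G s a j β k) ≤ 4 * n * C := by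
    set T2 := (T.filter fun k => ¬ up k).filter fun k => k ∉ F with hT2
    calc _ ≤ ∑ k ∈ T2, ∑ r, (if k ∈ L r then 2 else 2 * (n : ℝ≥0∞)) *
          S.e (s r) (r + a) j k := by
          refine Finset.sum_le_sum fun k hk => ?_
          unfold e
          simp_rw [Finset.mul_sum]
          rw [Finset.sum_comm]
          refine Finset.sum_le_sum fun β _ => ?_
          have hk1 := (Finset.mem_filter.1 (Finset.mem_filter.1 hk).1).2
          exact block (hDn k hk1) hn (fun r => S.M (s r) (r + a) j β k)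
            (fun r => S.meas _ _ _ _ _) (fun r => k ∈ L r) (by
              intro r r' hr hr'
              by_contra hne
              exact (Finset.disjoint_left.1 (hLL r r' hne)) hr hr')
      _ = ∑ r, ∑ k ∈ T2, (if k ∈ L r then 2 else 2 * (n : ℝ≥0∞)) * S.e (s r) (r + a) j k :=
          Finset.sum_comm
      _ ≤ ∑ r : Fin n, (2 * C + 2) := by
          refine Finset.sum_le_sum fun r _ => ?_
          rw [← Finset.sum_filter_add_sum_filter_not T2 (fun k => k ∈ L r)]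
          refine add_le_add ?_ ?_
          · calc ∑ k ∈ T2 with k ∈ L r, (if k ∈ L r then 2 else 2 * (n : ℝ≥0∞)) *
                  S.e (s r) (r + a) j k = ∑ k ∈ T2 with k ∈ L r, 2 * S.e (s r) (r + a) j k :=
                  Finset.sum_congr rfl fun k hk => by rw [if_pos (Finset.mem_filter.1 hk).2]
              _ = 2 * ∑ k ∈ T2 with k ∈ L r, S.e (s r) (r + a) j k := (Finset.mul_sum _ _ _).symm
              _ ≤ 2 * C := by gcongr; exact hesum r _ _
          · calc ∑ k ∈ T2 with ¬ k ∈ L r, (if k ∈ L r then 2 else 2 * (n : ℝ≥0∞)) *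
                  S.e (s r) (r + a) j k =
                    ∑ k ∈ T2 with ¬ k ∈ L r, 2 * (n : ℝ≥0∞) * S.e (s r) (r + a) j k :=
                  Finset.sum_congr rfl fun k hk => by rw [if_neg (Finset.mem_filter.1 hk).2]
              _ = 2 * n * ∑ k ∈ T2 with ¬ k ∈ L r, S.e (s r) (r + a) j k :=
                  (Finset.mul_sum _ _ _).symm
              _ ≤ 2 * n * (n : ℝ≥0∞)⁻¹ := by
                  gcongr
                  refine hL r _ j hj _ fun k hk => ?_
                  rw [Finset.mem_filter] at hk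
                  exact ⟨(Finset.mem_filter.1 hk.1).2, hk.2⟩
              _ = 2 := by rw [mul_assoc, ENNReal.mul_inv_cancel hn0 (by simp), mul_one]
      _ = n * (2 * C + 2) := by
          simp
          ring
      _ ≤ n * (2 * C + 2 * C) := by
          gcongr
          calc (2 : ℝ≥0∞) = 2 * 1 := by ring
            _ ≤ 2 * C := by gcongr
      _ = 4 * n * C := by ring
  have h3 : ∑ k ∈ (T.filter fun k => ¬ up k) with k ∈ F, ∑ β ∈ Finset.range (2 ^ j),
      N k (S.G s a j β k) ≤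
      ∑ k ∈ F.filter (fun k => ¬ up k), ∑ β ∈ Finset.range (2 ^ j),
        N k (S.G s a j β k) := by
    refine Finset.sum_le_sum_of_subset ?_
    intro k hk
    rw [Finset.mem_filter, Finset.mem_filter] at hk
    rw [Finset.mem_filter]
    exact ⟨hk.2, hk.1.2⟩
  rw [← Finset.sum_filter_add_sum_filter_not T (fun k => up k),
    ← Finset.sum_filter_add_sum_filter_not (T.filter fun k => ¬ up k) (fun k => k ∈ F)]
  calc _ ≤ n * C + (∑ k ∈ F.filter (fun k => ¬ up k), ∑ β ∈ Finset.range (2 ^ j),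
        N k (S.G s a j β k) + 4 * n * C) :=
        add_le_add h1 (add_le_add h3 h2)
    _ = _ := by ring

theorem shift_main (up : ι → Prop) [DecidablePred up] {cU : ℝ≥0∞}
    (hU : ∀ k, up k → UpC (N k) cU) (hDn : ∀ k, ¬ up k → DownC (N k)) (hC1 : 1 ≤ C) (F : Finset ι) (J : ℕ) (s : Fin n → ℕ)
    (L : Fin n → Finset ι) (hs : ∀ r, J ≤ s r) (hLL : ∀ r r', r ≠ r' → Disjoint (L r) (L r'))
    (hL : ∀ r i j, j ≤ J → ∀ t : Finset ι, (∀ k ∈ t, k ∉ F ∧ k ∉ L r) →
        ∑ k ∈ t, S.e (s r) i j k ≤ (n : ℝ≥0∞)⁻¹) (j : ℕ) (hj : j ≤ J) :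
    n * D ≤ C * (5 * n * n * C + ∑ k ∈ F.filter (fun k => ¬ up k), ∑ β ∈ Finset.range (2 ^ j),
        N k (S.W s j β k)) := by
  have h1 : ∀ a : Fin n, D ≤ C * (5 * n * C + ∑ k ∈ F.filter (fun k => ¬ up k),
      ∑ β ∈ Finset.range (2 ^ j), N k (S.G s a j β k)) := by
    intro a
    calc D = ∑ _β ∈ Finset.range (2 ^ j), (2⁻¹ : ℝ≥0∞) ^ j * D := (sum_half j D).symm
      _ ≤ ∑ β ∈ Finset.range (2 ^ j), C * ∑' k, N k (S.G s a j β k) :=
          Finset.sum_le_sum fun β hβ =>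
            S.shift_ge s a j β (Finset.mem_range.1 hβ) fun r => hj.trans (hs r)
      _ = C * ∑' k, ∑ β ∈ Finset.range (2 ^ j), N k (S.G s a j β k) := by
          rw [← Finset.mul_sum, tsum_cells]
      _ ≤ _ := by
          gcongr
          rw [ENNReal.tsum_eq_iSup_sum]
          exact iSup_le fun T => S.G_bound up hU hDn hC1 F J s L hs hLL hL a j hj T
  calc n * D = ∑ _a : Fin n, D := by simp
    _ ≤ ∑ a : Fin n, C * (5 * n * C + ∑ k ∈ F.filter (fun k => ¬ up k),
          ∑ β ∈ Finset.range (2 ^ j), N k (S.G s a j β k)) :=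
        Finset.sum_le_sum fun a _ => h1 a
    _ = C * (5 * n * n * C + ∑ a : Fin n, ∑ k ∈ F.filter (fun k => ¬ up k),
          ∑ β ∈ Finset.range (2 ^ j), N k (S.G s a j β k)) := by
        rw [← Finset.mul_sum, Finset.sum_add_distrib]
        congr 2
        simp
        ring
    _ ≤ _ := by
        gcongr
        rw [Finset.sum_comm]
        refine Finset.sum_le_sum fun k hk => ?_
        rw [Finset.sum_comm]
        refine Finset.sum_le_sum fun β _ => ?_
        have h2 := (hDn k (Finset.mem_filter.1 hk).2).sup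
          Finset.univ (fun a => S.G s a j β k) fun a => (S.meas_G s a j β k)
        refine h2.trans (le_of_eq ?_)
        congr 1
        funext t
        exact S.sum_G s j β k t

theorem W_cell_le (s : Fin n → ℕ) (j β : ℕ) (hβ : β < 2 ^ j) (hs : ∀ r, j ≤ s r) (k : ι) :
    N k (S.W s j β k) ≤ C * ((2⁻¹ : ℝ≥0∞) ^ j * (n * D)) :=
  (ENNReal.le_tsum k).trans (S.full_le s j β hβ hs)

/-- local selection data: pieces -/
noncomputable def U (s : Fin n → ℕ) (j j' β : ℕ) (k : ι) (i : Fin n) (l : Fin (2 ^ j')) :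
    Ω k → ℝ≥0∞ :=
  fun t => if (l : ℕ) ∈ cells j j' β then ∑ r, S.M (s r) i j' l k t else 0

theorem meas_U (s : Fin n → ℕ) (j j' β : ℕ) (k : ι) (i : Fin n) (l : Fin (2 ^ j')) :
    Measurable (S.U s j j' β k i l) := by
  unfold U
  by_cases h : (l : ℕ) ∈ cells j j' β
  · simp only [h, if_true]
    exact Finset.measurable_fun_sum _ fun r _ => S.meas _ _ _ _ _
  · simp only [h, if_false]
    exact measurable_const

theorem sum_U_i (s : Fin n → ℕ) (j j' β : ℕ) (k : ι) (l : Fin (2 ^ j')) (t : Ω k) :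
    ∑ i, S.U s j j' β k i l t = if (l : ℕ) ∈ cells j j' β then S.W s j' l k t else 0 := by
  unfold U W
  by_cases h : (l : ℕ) ∈ cells j j' β
  · simp only [h, if_true]
    exact Finset.sum_comm
  · simp only [h, if_false, Finset.sum_const_zero]

theorem sum_U (s : Fin n → ℕ) (j j' β : ℕ) (k : ι) (hj : j ≤ j') (hs : ∀ r, j' ≤ s r) (t : Ω k) :
    ∑ l, ∑ i, S.U s j j' β k i l t = S.W s j β k t := by
  simp_rw [sum_U_i]
  rw [sum_fin_cells j j' β (fun l => S.W s j' l k t)]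
  exact (S.split_W s j j' β k t hj hs).symm

theorem sel_U (s : Fin n → ℕ) (j j' β : ℕ) (k : ι) (σ : Fin (2 ^ j') → Fin n) (t : Ω k) :
    ∑ l, S.U s j j' β k (σ l) l t = S.Y s (ext σ) j j' β k t := by
  unfold U Y
  rw [← sum_fin_cells j j' β (fun l => ∑ r, S.M (s r) (ext σ l) j' l k t)]
  refine Finset.sum_congr rfl fun l _ => ?_
  rw [ext_val]

theorem rho_sum_U (hB : ∀ k, Basic (N k)) (s : Fin n → ℕ) (j j' β : ℕ) (k : ι) :
    ∑ l, N k (fun t => ∑ i, S.U s j j' β k i l t) =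
      ∑ l ∈ cells j j' β, N k (S.W s j' l k) := by
  rw [← sum_fin_cells j j' β (fun l => N k (S.W s j' l k))]
  refine Finset.sum_congr rfl fun l _ => ?_
  simp_rw [sum_U_i]
  by_cases h : (l : ℕ) ∈ cells j j' β
  · simp only [h, if_true]
  · simp only [h, if_false]
    exact (hB k).zero

theorem rho_U_le (hB : ∀ k, Basic (N k)) (s : Fin n → ℕ) (j j' β : ℕ) (k : ι)
    (hs : ∀ r, j' ≤ s r) (l : Fin (2 ^ j')) :
    N k (fun t => ∑ i, S.U s j j' β k i l t) ≤
      C * ((2⁻¹ : ℝ≥0∞) ^ j' * (n * D)) := by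
  simp_rw [sum_U_i]
  by_cases h : (l : ℕ) ∈ cells j j' β
  · simp only [h, if_true]
    exact S.W_cell_le s j' l l.2 hs k
  · simp only [h, if_false]
    rw [(hB k).zero]
    exact zero_le

/-- total energy of the random selections -/
theorem sel_total (s : Fin n → ℕ) (j j' : ℕ) (hj : j ≤ j') (hs : ∀ r, j' ≤ s r) (T : Finset ι) :
    ∑ k ∈ T, ∑ β ∈ Finset.range (2 ^ j), (avg n fun σ : Fin (2 ^ j') → Fin n =>
      N k (S.Y s (ext σ) j j' β k)) ≤ C * n := by
  have hn : 1 ≤ n := Nat.one_le_iff_ne_zero.2 (NeZero.ne n)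
  simp_rw [avg_sum]
  refine avg_le_const n hn fun σ => ?_
  rw [Finset.sum_comm]
  calc ∑ β ∈ Finset.range (2 ^ j), ∑ k ∈ T, N k (S.Y s (ext σ) j j' β k)
      ≤ ∑ β ∈ Finset.range (2 ^ j), (2⁻¹ : ℝ≥0∞) ^ j * (C * n) := by
        refine Finset.sum_le_sum fun β hβ => ?_
        refine (ENNReal.sum_le_tsum T).trans ?_
        refine (S.sel_le s (ext σ) j j' β (Finset.mem_range.1 hβ) hj hs).trans (le_of_eq ?_)
        ring
    _ = C * n := sum_half j _

/-- Energy of the full family at level `j`, over a set of coordinates. -/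
noncomputable def EE (s : Fin n → ℕ) (T : Finset ι) (j : ℕ) : ℝ≥0∞ :=
  ∑ k ∈ T, ∑ β ∈ Finset.range (2 ^ j), N k (S.W s j β k)

theorem EE_le (s : Fin n → ℕ) (T : Finset ι) (j : ℕ) (hs : ∀ r, j ≤ s r) :
    S.EE s T j ≤ C * (n * D) := by
  unfold EE
  rw [Finset.sum_comm]
  calc _ ≤ ∑ β ∈ Finset.range (2 ^ j), (2⁻¹ : ℝ≥0∞) ^ j * (C * (n * D)) := by
        refine Finset.sum_le_sum fun β hβ => ?_
        refine (ENNReal.sum_le_tsum T).trans ?_
        refine (S.full_le s j β (Finset.mem_range.1 hβ) hs).trans (le_of_eq ?_)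
        ring
    _ = _ := sum_half j _

include S in
/-- **Type 2 direction.** -/
theorem typ (hB : ∀ k, Basic (N k)) (up : ι → Prop) [DecidablePred up] {cU : ℝ≥0∞}
    (hU : ∀ k, up k → UpC (N k) cU) (hDn : ∀ k, ¬ up k → DownC (N k)) (hC1 : 1 ≤ C) (hC : C ≠ ∞) (hD : D ≠ ∞) :
    D ≤ 140 * C ^ 2 * n := by
  classical
  have hn : 1 ≤ n := Nat.one_le_iff_ne_zero.2 (NeZero.ne n)
  have hn0 : (n : ℝ≥0∞) ≠ 0 := by exact_mod_cast NeZero.ne n
  by_cases hD0 : D = 0
  · rw [hD0]; exact zero_le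
  obtain ⟨F, hF⟩ := S.levels up hU hDn hC ((n : ℝ≥0∞)⁻¹) (by simp)
  set Fm := F.filter (fun k => ¬ up k) with hFm
  -- constants
  have hsel : ∀ k : ι, ∃ K : ℝ≥0∞, K ≠ ∞ ∧ (¬ up k → ∀ (s : Fin n → ℕ) (j j' β : ℕ),
      j ≤ j' → (∀ r, j' ≤ s r) → β < 2 ^ j →
      N k (S.W s j β k) ≤
        64 * n * (avg n fun σ : Fin (2 ^ j') → Fin n =>
          N k (S.Y s (ext σ) j j' β k)) +
        K * (N k (S.W s j β k) -
          ∑ l ∈ cells j j' β, N k (S.W s j' l k)) +
        K * (C * ((2⁻¹ : ℝ≥0∞) ^ j' * (n * D)))) := by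
    intro k
    by_cases hk : ¬ up k
    · obtain ⟨K, hK1, hK2⟩ := (hDn k hk).sel n hn
      refine ⟨K, hK1, fun _ s j j' β hj hs hβ => ?_⟩
      have h := hK2 (S.U s j j' β k) (fun i l => S.meas_U s j j' β k i l)
        (C * ((2⁻¹ : ℝ≥0∞) ^ j' * (n * D))) (by finiteness)
      simp_rw [S.sum_U s j j' β k hj hs] at h
      have h2 := h (by
        refine ne_top_of_le_ne_top ?_ (S.W_cell_le s j β hβ (fun r => hj.trans (hs r)) k)
        finiteness) (S.rho_U_le hB s j j' β k hs)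
      rw [S.rho_sum_U hB s j j' β k] at h2
      simp_rw [S.sel_U s j j' β k] at h2
      exact h2
    · exact ⟨0, by simp, fun h => absurd h hk⟩
  choose Kk hKk1 hKk2 using hsel
  set KF : ℝ≥0∞ := ∑ k ∈ Fm, Kk k with hKF
  have hKFt : KF ≠ ∞ := by
    rw [hKF, ENNReal.sum_ne_top]
    exact fun k _ => hKk1 k
  -- choice of the number of steps and of the step size
  obtain ⟨J, hJ⟩ := ENNReal.exists_nat_gt (show 4 * C * C * KF ≠ ∞ by finiteness)
  obtain ⟨a, ha⟩ := ENNReal.exists_nat_gt (show 4 * KF * C * C * (Fm.card : ℝ≥0∞) ≠ ∞ by finiteness)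
  have hJ1 : 1 ≤ J := by
    rcases Nat.eq_zero_or_pos J with h | h
    · rw [h] at hJ; simp at hJ
    · exact h
  have ha2 : 4 * KF * C * C * (Fm.card : ℝ≥0∞) ≤ (2 : ℝ≥0∞) ^ a := by
    refine ha.le.trans ?_
    have : a ≤ 2 ^ a := Nat.lt_two_pow_self.le
    exact_mod_cast this
  obtain ⟨s, L, hs, -, hLL, hL⟩ := hF (J * a)
  -- the energies
  set E : ℕ → ℝ≥0∞ := fun m => S.EE s Fm (m * a) with hE
  have hle : ∀ m, m ≤ J → m * a ≤ J * a := fun m hm => Nat.mul_le_mul_right a hm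
  have hsplit : ∀ m, m < J → ∀ k ∈ Fm, ∀ β, ∑ l ∈ cells (m * a) ((m + 1) * a) β,
      N k (S.W s ((m + 1) * a) l k) ≤ N k (S.W s (m * a) β k) := by
    intro m hm k hk β
    have h := (hDn k (Finset.mem_filter.1 hk).2).sup
      (cells (m * a) ((m + 1) * a) β) (fun l => S.W s ((m + 1) * a) l k)
      fun l => (S.meas_W s _ l k)
    refine h.trans (le_of_eq ?_)
    congr 1
    funext t
    exact (S.split_W s _ _ β k t (Nat.mul_le_mul_right a (by omega))
      fun r => (hle (m + 1) (by omega)).trans (hs r)).symm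
  have hEdec : ∀ m, m < J → E (m + 1) ≤ E m := by
    intro m hm
    rw [hE]
    unfold EE
    refine Finset.sum_le_sum fun k hk => ?_
    rw [← sum_cells (Nat.mul_le_mul_right a (by omega : m ≤ m + 1))]
    exact Finset.sum_le_sum fun β _ => hsplit m hm k hk β
  have hE0 : E 0 ≤ C * (n * D) := S.EE_le s Fm _ fun r => by simp
  have htele := tele_down E J hEdec
  obtain ⟨m, hm, hmd⟩ := pigeon (fun m => E m - E (m + 1)) J hJ1 (C * (n * D))
    (le_trans le_self_add (htele.trans hE0))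
  -- main inequality at level `m * a`
  have hj : m * a ≤ (m + 1) * a := Nat.mul_le_mul_right a (by omega)
  have hsj : ∀ r, (m + 1) * a ≤ s r := fun r => (hle (m + 1) (by omega)).trans (hs r)
  have hmain := S.shift_main up hU hDn hC1 F (J * a) s L hs hLL hL (m * a) (hle m hm.le)
  have hEm : E m ≤ 64 * n * (C * n) + KF * (E m - E (m + 1)) +
      KF * (Fm.card * (C * ((2⁻¹ : ℝ≥0∞) ^ a * (n * D)))) := by
    have h1 : E m ≤ ∑ k ∈ Fm, ∑ β ∈ Finset.range (2 ^ (m * a)),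
        (64 * n * (avg n fun σ : Fin (2 ^ ((m + 1) * a)) → Fin n =>
          N k (S.Y s (ext σ) (m * a) ((m + 1) * a) β k)) +
        KF * (N k (S.W s (m * a) β k) -
          ∑ l ∈ cells (m * a) ((m + 1) * a) β, N k (S.W s ((m + 1) * a) l k)) +
        KF * (C * ((2⁻¹ : ℝ≥0∞) ^ ((m + 1) * a) * (n * D)))) := by
      rw [hE]
      unfold EE
      refine Finset.sum_le_sum fun k hk => Finset.sum_le_sum fun β hβ => ?_
      refine (hKk2 k (Finset.mem_filter.1 hk).2 s (m * a) ((m + 1) * a) β hj hsj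
        (Finset.mem_range.1 hβ)).trans ?_
      have hKle : Kk k ≤ KF := Finset.single_le_sum (f := Kk) (fun _ _ => zero_le) hk
      gcongr
    refine h1.trans ?_
    simp_rw [Finset.sum_add_distrib, ← Finset.mul_sum]
    refine add_le_add (add_le_add ?_ ?_) ?_
    · gcongr
      exact S.sel_total s (m * a) ((m + 1) * a) hj hsj Fm
    · gcongr
      refine ENNReal.le_sub_of_add_le_right ?_ ?_
      · refine ne_top_of_le_ne_top ?_ (S.EE_le s Fm ((m + 1) * a) hsj)
        finiteness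
      · rw [hE]
        unfold EE
        rw [← Finset.sum_add_distrib]
        refine Finset.sum_le_sum fun k hk => ?_
        rw [← sum_cells hj, ← Finset.sum_add_distrib]
        refine Finset.sum_le_sum fun β _ => ?_
        rw [tsub_add_cancel_of_le (hsplit m hm k hk β)]
    · rw [Finset.sum_const, Finset.sum_const, Finset.card_range, nsmul_eq_mul, nsmul_eq_mul]
      have e1 : (2⁻¹ : ℝ≥0∞) ^ ((m + 1) * a) = (2⁻¹ : ℝ≥0∞) ^ (m * a) * (2⁻¹ : ℝ≥0∞) ^ a := by
        rw [← pow_add]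
        congr 1
        ring
      rw [e1]
      refine le_of_eq ?_
      calc _ = KF * ((Fm.card : ℝ≥0∞) * (C * ((((2 ^ (m * a) : ℕ) : ℝ≥0∞) *
            (2⁻¹ : ℝ≥0∞) ^ (m * a)) * (2⁻¹ : ℝ≥0∞) ^ a * (n * D)))) := by ring
        _ = _ := by rw [half_pow, one_mul]
  -- arithmetic
  have hJ0 : (J : ℝ≥0∞) ≠ 0 := by
    have : J ≠ 0 := by omega
    exact_mod_cast this
  have hd1 : C * (KF * (E m - E (m + 1))) ≤ n * D / 4 := by
    calc C * (KF * (E m - E (m + 1))) ≤ C * (KF * (C * (n * D) / J)) := by gcongr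
      _ = (4 * C * C * KF) / J * (n * D / 4) := by
          rw [ENNReal.div_eq_inv_mul, ENNReal.div_eq_inv_mul, ENNReal.div_eq_inv_mul]
          calc C * (KF * ((J : ℝ≥0∞)⁻¹ * (C * (n * D))))
              = 1 * (C * (KF * ((J : ℝ≥0∞)⁻¹ * (C * (n * D))))) := (one_mul _).symm
            _ = (4 * (4 : ℝ≥0∞)⁻¹) * (C * (KF * ((J : ℝ≥0∞)⁻¹ * (C * (n * D))))) := by
                rw [ENNReal.mul_inv_cancel (by simp) (by simp)]
            _ = _ := by ring
      _ ≤ 1 * (n * D / 4) := by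
          gcongr
          exact ENNReal.div_le_of_le_mul (by rw [one_mul]; exact hJ.le)
      _ = n * D / 4 := one_mul _
  have hd2 : C * (KF * (Fm.card * (C * ((2⁻¹ : ℝ≥0∞) ^ a * (n * D))))) ≤ n * D / 4 := by
    calc C * (KF * (Fm.card * (C * ((2⁻¹ : ℝ≥0∞) ^ a * (n * D)))))
        = (4 * KF * C * C * (Fm.card : ℝ≥0∞)) * (2⁻¹ : ℝ≥0∞) ^ a * (n * D / 4) := by
          rw [ENNReal.div_eq_inv_mul]
          calc C * (KF * (Fm.card * (C * ((2⁻¹ : ℝ≥0∞) ^ a * (n * D)))))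
              = 1 * (C * (KF * (Fm.card * (C * ((2⁻¹ : ℝ≥0∞) ^ a * (n * D)))))) :=
                (one_mul _).symm
            _ = (4 * (4 : ℝ≥0∞)⁻¹) * (C * (KF * (Fm.card * (C * ((2⁻¹ : ℝ≥0∞) ^ a *
                  (n * D)))))) := by rw [ENNReal.mul_inv_cancel (by simp) (by simp)]
            _ = _ := by ring
      _ ≤ (2 : ℝ≥0∞) ^ a * (2⁻¹ : ℝ≥0∞) ^ a * (n * D / 4) := by gcongr
      _ = n * D / 4 := by
          rw [← mul_pow, ENNReal.mul_inv_cancel (by simp) (by simp), one_pow, one_mul]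
  have hfin : n * D ≤ 69 * C ^ 2 * (n * n) + (n * D / 4 + n * D / 4) := by
    calc n * D ≤ C * (5 * n * n * C + E m) := hmain
      _ ≤ C * (5 * n * n * C + (64 * n * (C * n) + KF * (E m - E (m + 1)) +
            KF * (Fm.card * (C * ((2⁻¹ : ℝ≥0∞) ^ a * (n * D)))))) := by gcongr
      _ = 69 * C ^ 2 * (n * n) + (C * (KF * (E m - E (m + 1))) +
            C * (KF * (Fm.card * (C * ((2⁻¹ : ℝ≥0∞) ^ a * (n * D)))))) := by ring
      _ ≤ _ := by gcongr
  have h4 : (n * D / 4 + n * D / 4 : ℝ≥0∞) = n * D / 2 := by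
    rw [ENNReal.div_add_div_same, ← two_mul, ENNReal.div_eq_inv_mul, ENNReal.div_eq_inv_mul,
      ← mul_assoc]
    congr 1
    rw [show (4 : ℝ≥0∞) = 2 * 2 by norm_num, ENNReal.mul_inv (by simp) (by simp), mul_assoc,
      ENNReal.inv_mul_cancel (by simp) (by simp), mul_one]
  rw [h4] at hfin
  have hnDt : (n : ℝ≥0∞) * D ≠ ∞ := by finiteness
  have h5 : n * D / 2 ≤ 69 * C ^ 2 * (n * n) := by
    have h6 : (n * D / 2 : ℝ≥0∞) + n * D / 2 ≤ 69 * C ^ 2 * (n * n) + n * D / 2 := by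
      rw [ENNReal.add_halves]
      exact hfin
    exact (ENNReal.add_le_add_iff_right (ENNReal.div_ne_top hnDt (by simp))).1 h6
  have h7 : n * D ≤ n * (140 * C ^ 2 * n) := by
    calc (n : ℝ≥0∞) * D = 2 * (n * D / 2) := by
          rw [ENNReal.mul_div_cancel (by simp) (by simp)]
      _ ≤ 2 * (69 * C ^ 2 * (n * n)) := by gcongr
      _ = n * (138 * C ^ 2 * n) := by ring
      _ ≤ n * (140 * C ^ 2 * n) := by gcongr; norm_num
  exact (ENNReal.mul_le_mul_iff_right hn0 (by simp)).1 h7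

end Sys

end LTC
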