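import Pool.Agent.LTC.Energy
import Pool.Agent.HLP.Main

/-!
# Rademacher type 2 and cotype 2
-/

set_option autoImplicit false

open MeasureTheory
open scoped ENNReal unitInterval

namespace LTC

open HLP (rad_reindex rad_zero rad_nonneg weights)
open DLP (rsum rad)

universe u v w

section
variable {𝕜 : Type v} [RCLike 𝕜] {ι : Type} {Ω : ι → Type w} [∀ i, MeasurableSpace (Ω i)]
  {μ : ∀ i, Measure (Ω i)} {N : ∀ k, (Ω k → ℝ≥0∞) → ℝ≥0∞}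
  {X : Type u} [NormedAddCommGroup X] [NormedSpace 𝕜 X]

/-- unit vectors -/
theorem unit_case (up : ι → Prop) [DecidablePred up] {cU : ℝ≥0∞} (hcU : cU ≠ ∞)
    (hQ : ∀ k, Quad (μ k) (N k)) (hU : ∀ k, up k → UpC (N k) cU)
    (hDn : ∀ k, ¬ up k → DownC (N k))
    (T : ∀ k, DiestelL2.L2V X →ₗ[𝕜] (Ω k →ₘ[μ k] 𝕜)) (C₀ : ℝ≥0∞) (hC1 : 1 ≤ C₀)
    (hC : C₀ ≠ ∞) (hTC : RadQ N T C₀) :
    ∃ K : ℝ≥0∞, K ≠ ∞ ∧ ∀ (A : Type) [Fintype A] [DecidableEq A] (x : A → X),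
      (∀ a, ‖x a‖ = 1) → ENNReal.ofReal (rad x) ≤ K * Fintype.card A ∧
        Fintype.card A ≤ K * ENNReal.ofReal (rad x) := by
  obtain ⟨τ, hτ, hp⟩ := DLP.tau 2 (by norm_num)
  have hB : ∀ k, Basic (N k) := fun k => (hQ k).basic
  have hC3 : 1 ≤ C₀ ^ 3 := one_le_pow₀ hC1
  have hC3t : C₀ ^ 3 ≠ ∞ := ENNReal.pow_ne_top hC
  set K1 : ℝ≥0∞ := 140 * (C₀ ^ 3) ^ 2 with hK1
  set K2 : ℝ≥0∞ := 2 * C₀ ^ 3 * (2 * C₀ ^ 3 + cU * C₀ ^ 3 + 2) with hK2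
  have hK1t : K1 ≠ ∞ := ENNReal.mul_ne_top (by simp) (ENNReal.pow_ne_top hC3t)
  have hK2t : K2 ≠ ∞ := by
    rw [hK2]
    finiteness
  have key : ∀ (n : ℕ) (x : Fin n → X), (∀ a, ‖x a‖ = 1) →
      ENNReal.ofReal (rad x) ≤ max K1 K2 * n ∧ n ≤ max K1 K2 * ENNReal.ofReal (rad x) := by
    intro n x hx
    rcases Nat.eq_zero_or_pos n with rfl | hn
    · have : x = fun _ => 0 := by
        funext a
        exact a.elim0
      rw [this, rad_zero]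
      simp
    have : NeZero n := ⟨hn.ne'⟩
    obtain ⟨S⟩ := sys hτ T hQ x hx hC1 hTC hp
    have h1 := S.typ hB up hU hDn hC3 hC3t ENNReal.ofReal_ne_top
    have h2 := S.cotyp hB up hU hDn hC3 hC3t ENNReal.ofReal_ne_top
    refine ⟨h1.trans ?_, h2.trans ?_⟩
    · gcongr
      exact le_max_left _ _
    · gcongr
      exact le_max_right _ _
  refine ⟨max K1 K2, ?_, ?_⟩
  · rcases max_choice K1 K2 with h | h <;> rw [h] <;> assumption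
  intro A _ _ x hx
  have h := key (Fintype.card A) (fun b => x ((Fintype.equivFin A).symm b)) fun b => hx _
  rw [rad_reindex x (Fintype.equivFin A).symm] at h
  exact h

/-- weighted square function -/
noncomputable def VV (N : ∀ k, (Ω k → ℝ≥0∞) → ℝ≥0∞) (T : ∀ k, X →ₗ[𝕜] (Ω k →ₘ[μ k] 𝕜))
    {n : ℕ} (y : Fin n → X) (l : Fin n → ℝ≥0∞) : ℝ≥0∞ :=
  ∑' k, N k (fun t => ∑ i, l i * ‖(T k (y i) : Ω k → 𝕜) t‖ₑ ^ 2)

theorem meas_VV (T : ∀ k, X →ₗ[𝕜] (Ω k →ₘ[μ k] 𝕜)) {n : ℕ} (y : Fin n → X)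
    (l : Fin n → ℝ≥0∞) (k : ι) :
    Measurable fun t => ∑ i, l i * ‖(T k (y i) : Ω k → 𝕜) t‖ₑ ^ 2 :=
  Finset.measurable_fun_sum _ fun i _ =>
    (((AEEqFun.measurable (T k (y i))).enorm).pow_const 2).const_mul _

theorem VV_mono (hQ : ∀ k, Quad (μ k) (N k)) (T : ∀ k, X →ₗ[𝕜] (Ω k →ₘ[μ k] 𝕜))
    {n : ℕ} (y : Fin n → X) (l l' : Fin n → ℝ≥0∞) (h : ∀ i, l i ≤ l' i) :
    VV N T y l ≤ VV N T y l' := by
  unfold VV
  refine ENNReal.tsum_le_tsum fun k => (hQ k).basic.mono _ _ (meas_VV T y l k)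
    (meas_VV T y l' k) fun t => ?_
  refine Finset.sum_le_sum fun i _ => ?_
  gcongr
  exact h i

theorem VV_mul (hQ : ∀ k, Quad (μ k) (N k)) (T : ∀ k, X →ₗ[𝕜] (Ω k →ₘ[μ k] 𝕜))
    {n : ℕ} (y : Fin n → X) (l : Fin n → ℝ≥0∞) (c : ℝ≥0∞) (hc : c ≠ ∞) :
    VV N T y (fun i => c * l i) = c * VV N T y l := by
  unfold VV
  rw [← ENNReal.tsum_mul_left]
  refine tsum_congr fun k => ?_
  rw [← (hQ k).smul c hc _ (meas_VV T y l k)]
  congr 1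
  funext t
  rw [Finset.mul_sum]
  exact Finset.sum_congr rfl fun i _ => by ring

theorem VV_nat (T : ∀ k, X →ₗ[𝕜] (Ω k →ₘ[μ k] 𝕜)) {n : ℕ} (y : Fin n → X)
    (m : Fin n → ℕ) :
    VV N T y (fun i => (m i : ℝ≥0∞)) = qg N T (fun a : (Σ i : Fin n, Fin (m i)) => y a.1) := by
  unfold VV qg
  refine tsum_congr fun k => ?_
  congr 1
  funext t
  rw [Fintype.sum_sigma]
  refine Finset.sum_congr rfl fun i _ => ?_
  simp

theorem VV_real (hQ : ∀ k, Quad (μ k) (N k)) (T : ∀ k, X →ₗ[𝕜] (Ω k →ₘ[μ k] 𝕜)) {n : ℕ}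
    (y : Fin n → X) (r : Fin n → ℝ) :
    VV N T y (fun i => ENNReal.ofReal (r i ^ 2)) = qg N T (fun i => ((r i : ℝ) : 𝕜) • y i) := by
  unfold VV qg
  refine tsum_congr fun k => ?_
  have h1 : ∀ᵐ t ∂(μ k), ∀ i : Fin n, ‖(T k (((r i : ℝ) : 𝕜) • y i) : Ω k → 𝕜) t‖ₑ ^ 2 =
      ENNReal.ofReal (r i ^ 2) * ‖(T k (y i) : Ω k → 𝕜) t‖ₑ ^ 2 := by
    rw [ae_all_iff]
    intro i
    rw [map_smul]
    filter_upwards [AEEqFun.coeFn_smul ((r i : ℝ) : 𝕜) (T k (y i))] with t ht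
    rw [ht, Pi.smul_apply, enorm_smul, mul_pow]
    congr 1
    rw [← ofReal_norm, RCLike.norm_ofReal, ← ENNReal.ofReal_pow (abs_nonneg _), sq_abs]
  have m1 := meas_VV T y (fun i => ENNReal.ofReal (r i ^ 2)) k
  have m2 : Measurable fun t => ∑ i, ‖(T k (((r i : ℝ) : 𝕜) • y i) : Ω k → 𝕜) t‖ₑ ^ 2 :=
    Finset.measurable_fun_sum _ fun i _ => ((AEEqFun.measurable _).enorm).pow_const 2
  refine le_antisymm ((hQ k).mono _ _ m1 m2 ?_) ((hQ k).mono _ _ m2 m1 ?_)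
  · filter_upwards [h1] with t ht
    rw [Finset.sum_congr rfl fun i _ => ht i]
  · filter_upwards [h1] with t ht
    rw [Finset.sum_congr rfl fun i _ => ht i]

/-- two-sided estimates -/
structure LatEmb (N : ∀ k, (Ω k → ℝ≥0∞) → ℝ≥0∞) {E : Type u} [NormedAddCommGroup E]
    [NormedSpace 𝕜 E] (T : ∀ k, E →ₗ[𝕜] (Ω k →ₘ[μ k] 𝕜)) (c : ℝ≥0∞) : Prop where
  le : ∀ x : E, ∑' k, N k (fun t => ‖(T k x : Ω k → 𝕜) t‖ₑ ^ 2) ≤ c * ‖x‖ₑ ^ 2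
  ge : ∀ x : E, ‖x‖ₑ ^ 2 ≤ c * ∑' k, N k (fun t => ‖(T k x : Ω k → 𝕜) t‖ₑ ^ 2)

/-- type 2 and cotype 2 -/
theorem type_cotype (up : ι → Prop) [DecidablePred up] {cU : ℝ≥0∞} (hcU : cU ≠ ∞)
    (hQ : ∀ k, Quad (μ k) (N k)) (hU : ∀ k, up k → UpC (N k) cU)
    (hDn : ∀ k, ¬ up k → DownC (N k)) (K₀ : ℝ≥0∞) (hK₀1 : 1 ≤ K₀) (hK₀t : K₀ ≠ ∞)
    (hK₀ : ∀ k, Kh 𝕜 (N k) K₀)
    (T : ∀ k, DiestelL2.L2V X →ₗ[𝕜] (Ω k →ₘ[μ k] 𝕜)) (c : ℝ≥0∞) (hc1 : 1 ≤ c) (hct : c ≠ ∞)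
    (hT : LatEmb N T c) :
    ∃ K : ℝ, 0 ≤ K ∧ (∀ (n : ℕ) (x : Fin n → X), rad x ≤ K * ∑ j, ‖x j‖ ^ 2) ∧
      (∀ (n : ℕ) (x : Fin n → X), ∑ j, ‖x j‖ ^ 2 ≤ K * rad x) := by
  classical
  obtain ⟨C₀, h01, h0t, h0⟩ := radq T hQ K₀ hK₀1 hK₀t hK₀ c hc1 hct hT.le hT.ge
  obtain ⟨K, hK, hunit⟩ := unit_case up hcU hQ hU hDn T C₀ h01 h0t h0
  set T1 : ∀ k, X →ₗ[𝕜] (Ω k →ₘ[μ k] 𝕜) := fun k =>
    (T k) ∘ₗ ((Lp.constL 2 (volume : Measure I) 𝕜 : X →L[𝕜] DiestelL2.L2V X) :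
      X →ₗ[𝕜] DiestelL2.L2V X) with hT1
  have hconst : ∀ x : X, ‖(Lp.constL 2 (volume : Measure I) 𝕜 : X →L[𝕜] DiestelL2.L2V X) x‖ₑ =
      ‖x‖ₑ := by
    intro x
    have h1 : ‖(Lp.constL 2 (volume : Measure I) 𝕜 : X →L[𝕜] DiestelL2.L2V X) x‖ = ‖x‖ := by
      have := Lp.norm_const' (p := 2) (μ := (volume : Measure I)) (c := x) (by simp) (by simp)
      simpa using this
    rw [← ofReal_norm, ← ofReal_norm, h1]
  have hl1 : ∀ x : X, ∑' k, N k (fun t => ‖(T1 k x : Ω k → 𝕜) t‖ₑ ^ 2) ≤ c * ‖x‖ₑ ^ 2 := by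
    intro x
    rw [← hconst x]
    exact hT.le _
  have hg1 : ∀ x : X, ‖x‖ₑ ^ 2 ≤ c * ∑' k, N k (fun t => ‖(T1 k x : Ω k → 𝕜) t‖ₑ ^ 2) := by
    intro x
    rw [← hconst x]
    exact hT.ge _
  obtain ⟨C₁, h11, h1t, h1⟩ := radq T1 hQ K₀ hK₀1 hK₀t hK₀ c hc1 hct hl1 hg1
  set K' : ℝ≥0∞ := C₁ * (2 * (C₁ * K)) with hK'
  have hK't : K' ≠ ∞ := by
    rw [hK']
    finiteness
  have main : ∀ (n : ℕ) (x : Fin n → X),
      ENNReal.ofReal (rad x) ≤ K' * ENNReal.ofReal (∑ j, ‖x j‖ ^ 2) ∧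
        ENNReal.ofReal (∑ j, ‖x j‖ ^ 2) ≤ K' * ENNReal.ofReal (rad x) := by
    intro n x
    by_cases hex : ∃ i, x i ≠ 0
    · obtain ⟨i₀, hi₀⟩ := hex
      let y : Fin n → X := fun i =>
        if x i = 0 then ((‖x i₀‖⁻¹ : ℝ) : 𝕜) • x i₀ else ((‖x i‖⁻¹ : ℝ) : 𝕜) • x i
      have hnorm : ∀ z : X, z ≠ 0 → ‖((‖z‖⁻¹ : ℝ) : 𝕜) • z‖ = 1 := by
        intro z hz
        have hz' : ‖z‖ ≠ 0 := norm_ne_zero_iff.2 hz
        rw [norm_smul, RCLike.norm_ofReal, abs_of_nonneg (by positivity), inv_mul_cancel₀ hz']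
      have hy : ∀ i, ‖y i‖ = 1 := by
        intro i
        show ‖(if x i = 0 then ((‖x i₀‖⁻¹ : ℝ) : 𝕜) • x i₀ else ((‖x i‖⁻¹ : ℝ) : 𝕜) • x i)‖ = 1
        split_ifs with h
        · exact hnorm _ hi₀
        · exact hnorm _ h
      have hxy : ∀ i, x i = ((‖x i‖ : ℝ) : 𝕜) • y i := by
        intro i
        show x i = ((‖x i‖ : ℝ) : 𝕜) •
          (if x i = 0 then ((‖x i₀‖⁻¹ : ℝ) : 𝕜) • x i₀ else ((‖x i‖⁻¹ : ℝ) : 𝕜) • x i)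
        split_ifs with h
        · rw [h]; simp
        · have hz' : ‖x i‖ ≠ 0 := norm_ne_zero_iff.2 h
          rw [smul_smul, ← RCLike.ofReal_mul, mul_inv_cancel₀ hz', RCLike.ofReal_one, one_smul]
      have hw := weights (fun l => VV N T1 y l) (C₁ * K)
        (VV_mono hQ T1 y) (fun l c hc => VV_mul hQ T1 y l c hc) (by
          intro m
          obtain ⟨a1, a2⟩ := hunit (Σ i : Fin n, Fin (m i)) (fun a => y a.1) fun a => hy _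
          obtain ⟨b1, b2⟩ := h1 (Σ i : Fin n, Fin (m i)) (fun a => y a.1)
          have hcard : (Fintype.card (Σ i : Fin n, Fin (m i)) : ℝ≥0∞) = ∑ i, (m i : ℝ≥0∞) := by
            rw [Fintype.card_sigma]
            simp
          rw [hcard] at a1 a2
          rw [← VV_nat T1 y m] at b1 b2
          refine ⟨?_, ?_⟩
          · calc VV N T1 y (fun i => (m i : ℝ≥0∞))
                ≤ C₁ * ENNReal.ofReal (rad (fun a : (Σ i : Fin n, Fin (m i)) => y a.1)) := b1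
              _ ≤ C₁ * (K * ∑ i, (m i : ℝ≥0∞)) := by gcongr
              _ = _ := by ring
          · calc ∑ i, (m i : ℝ≥0∞)
                ≤ K * ENNReal.ofReal (rad (fun a : (Σ i : Fin n, Fin (m i)) => y a.1)) := a2
              _ ≤ K * (C₁ * VV N T1 y (fun i => (m i : ℝ≥0∞))) := by gcongr
              _ = _ := by ring)
        (fun i => ‖x i‖ ^ 2) (fun i => by positivity)
      rw [VV_real hQ T1 y (fun i => ‖x i‖)] at hw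
      simp only [← hxy] at hw
      obtain ⟨c1, c2⟩ := h1 (Fin n) x
      refine ⟨?_, ?_⟩
      · calc ENNReal.ofReal (rad x) ≤ C₁ * qg N T1 x := c2
          _ ≤ C₁ * (2 * (C₁ * K) * ENNReal.ofReal (∑ i, ‖x i‖ ^ 2)) := by
            gcongr
            exact hw.1
          _ = _ := by rw [hK']; ring
      · calc ENNReal.ofReal (∑ i, ‖x i‖ ^ 2) ≤ 2 * (C₁ * K) * qg N T1 x := hw.2
          _ ≤ 2 * (C₁ * K) * (C₁ * ENNReal.ofReal (rad x)) := by gcongr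
          _ = _ := by rw [hK']; ring
    · push Not at hex
      have : x = fun _ => 0 := funext hex
      rw [this, rad_zero]
      simp
  refine ⟨K'.toReal, ENNReal.toReal_nonneg, fun n x => ?_, fun n x => ?_⟩
  · have h := ENNReal.toReal_mono (ENNReal.mul_ne_top hK't ENNReal.ofReal_ne_top) (main n x).1
    rwa [ENNReal.toReal_mul, ENNReal.toReal_ofReal (rad_nonneg _),
      ENNReal.toReal_ofReal (by positivity)] at h
  · have h := ENNReal.toReal_mono (ENNReal.mul_ne_top hK't ENNReal.ofReal_ne_top) (main n x).2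
    rwa [ENNReal.toReal_mul, ENNReal.toReal_ofReal (by positivity),
      ENNReal.toReal_ofReal (rad_nonneg _)] at h

end

end LTC
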